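import Pool.Agent.HB.C.Coord

/-!
# Project HB, part C, module Alpha: the automorphism `α (x,y) = (ζ x, -y)` and collisions

(1) `coordB_alpha`: a standard parameter at `α (x,y)` is a unit times the one at `(x,y)`:
 `ζ x - ζ p = ζ (x - p)`; `-y`; `(ζ x)⁻¹ = ζ⁻¹ x⁻¹`.
(2) `col_excl`: `α` has no fixed points: `(x,y)` and `α (x,y)` do not both have the reduction of
 `(x',y')`.  First alternatives: `x - x' ∈ mO`, `ζ x - x' ∈ mO`, so `(1 - ζ) x ∈ mO`, `x ∈ mO`;
 `y - y' ∈ mO`, `-y - y' ∈ mO`, so `2 y ∈ mO`, `y ∈ mO`; but `y² = x⁶ + 1`, contradiction.  Second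
 alternatives: `z = y/x³` and `-y/(ζ x)³ = -z` (`ζ³ = 1`), so `z ∈ mO`, but `z² = 1 + (1/x)⁶`.
 Mixed: `x ∈ O` and `(ζ x)⁻¹ ∈ mO` are incompatible (`x' ∈ O` and `x'⁻¹ ∈ mO`; `x' ≠ 0`).
(3) `col_dom`: `Col` at a dominating local ring implies `Col` below, for points which are morphisms
 below (`x ∈ O` or `1/x ∈ O`).  `y ∈ O` if `x ∈ O` (`pow_mem`), `y/x³ ∈ O` if `1/x ∈ O`; use
 `DomR.mO_iff`; if the image of `x` is in `O'` and `x ∉ O` then `1/x ∈ mO O`, so its image is in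
 `mO O'`, contradiction with `x ≠ 0`.
-/

set_option autoImplicit false

namespace HB

namespace C

universe u

variable {k K : Type u} [Field k] [Field K] [Algebra k K] [CharZero k]

omit [CharZero k] in
private theorem al_zeta_ne {ζ : k} (hζ : ζ ^ 2 + ζ + 1 = 0) : ζ ≠ 0 := by
  rintro rfl
  rw [zero_pow two_ne_zero, zero_add, zero_add] at hζ
  exact one_ne_zero hζ

private theorem al_one_sub {ζ : k} (hζ : ζ ^ 2 + ζ + 1 = 0) : 1 - ζ ≠ 0 := by
  intro h
  have h1 : ζ = 1 := (sub_eq_zero.mp h).symm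
  rw [h1] at hζ
  norm_num at hζ

omit [CharZero k] in
private theorem al_cube {ζ : k} (hζ : ζ ^ 2 + ζ + 1 = 0) : ζ ^ 3 = 1 := by
  linear_combination (ζ - 1) * hζ

/-- cancelling a nonzero constant -/
private theorem al_cancel {O : Subring K} (hO : LocRing k O) {c : k} (hc : c ≠ 0) {a : K}
    (h : algebraMap k K c * a ∈ mO O) : a ∈ mO O := by
  have h1 := mem_mO_mul h (hO.base c⁻¹)
  have h2 : algebraMap k K c ≠ 0 := (map_ne_zero _).mpr hc
  rw [map_inv₀, inv_mul_cancel_left₀ h2] at h1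
  exact h1

omit [CharZero k] in
private theorem al_pow {O : Subring K} {a : K} (h : a ∈ mO O) {n : ℕ} (hn : n ≠ 0) :
    a ^ n ∈ mO O := by
  obtain ⟨m, rfl⟩ := Nat.exists_eq_succ_of_ne_zero hn
  rw [pow_succ]
  exact mem_mO_mul h (O.pow_mem h.1 m)

theorem coordB_alpha {O : Subring K} (hO : LocRing k O) {ζ : k} (hζ : ζ ^ 2 + ζ + 1 = 0)
    {x y w : K} (h : CoordB k O x y w) :
    ∃ u, Un O u ∧ CoordB k O (algebraMap k K ζ * x) (-y) (u * w) := by
  have hz := al_zeta_ne hζ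
  rcases h with ⟨p, hp, hy⟩ | ⟨hw, p, hp⟩ | hw
  · refine ⟨algebraMap k K ζ, hO.const hz, Or.inl ⟨ζ * p, ?_, hy.neg⟩⟩
    rw [hp, map_mul]
    ring
  · refine ⟨-1, Un.one.neg, Or.inr (Or.inl ⟨?_, ζ * p, ?_⟩)⟩
    · rw [hw]
      ring
    · have h1 := mem_mO_mul hp (hO.base ζ)
      rw [map_mul, ← mul_sub]
      exact h1
  · refine ⟨(algebraMap k K ζ)⁻¹, (hO.const hz).inv, Or.inr (Or.inr ?_)⟩
    rw [hw, mul_inv]

theorem col_excl {O : Subring K} (hO : LocRing k O) {ζ : k} (hζ : ζ ^ 2 + ζ + 1 = 0)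
    {x y x' y' : K} (hx : x ≠ 0) (hx' : x' ≠ 0) (hB : y ^ 2 = x ^ 6 + 1)
    (h : Col O x y x' y') : ¬ Col O (algebraMap k K ζ * x) (-y) x' y' := by
  have h2 : (2 : k) ≠ 0 := two_ne_zero
  have hmix : x' ∈ O → x'⁻¹ ∈ mO O → False := by
    intro h3 h4
    rcases h4.2 with h5 | h5
    · exact inv_ne_zero hx' h5
    · rw [inv_inv] at h5
      exact h5 h3
  intro h'
  rcases h with ⟨a1, a2, a3, a4⟩ | ⟨a1, a2, a3⟩
  · rcases h' with ⟨b1, b2, b3, b4⟩ | ⟨b1, b2, b3⟩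
    · have h3 : x ∈ mO O := by
        apply al_cancel hO (al_one_sub hζ)
        have h4 := hO.sub a3 b3
        have h5 : x - x' - (algebraMap k K ζ * x - x') = algebraMap k K (1 - ζ) * x := by
          rw [map_sub, map_one]
          ring
        rwa [h5] at h4
      have h4 : y ∈ mO O := by
        apply al_cancel hO h2
        have h5 := hO.sub a4 b4
        have h6 : y - y' - (-y - y') = algebraMap k K 2 * y := by
          rw [map_ofNat]
          ring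
        rwa [h6] at h5
      have h5 := hO.sub (al_pow h4 two_ne_zero) (al_pow h3 (show (6 : ℕ) ≠ 0 by norm_num))
      rw [hB, add_sub_cancel_left] at h5
      exact (Un.one (O := O)).not_mem h5
    · exact hmix a2 b2
  · rcases h' with ⟨b1, b2, b3, b4⟩ | ⟨b1, b2, b3⟩
    · exact hmix b2 a2
    · have hz3 : algebraMap k K ζ ^ 3 = 1 := by rw [← map_pow, al_cube hζ, map_one]
      have h3 : y / x ^ 3 ∈ mO O := by
        apply al_cancel hO h2
        have h4 := hO.sub a3 b3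
        have h5 : y / x ^ 3 - y' / x' ^ 3 - (-y / (algebraMap k K ζ * x) ^ 3 - y' / x' ^ 3) =
            algebraMap k K 2 * (y / x ^ 3) := by
          rw [mul_pow, hz3, one_mul, map_ofNat]
          ring
        rwa [h5] at h4
      have h4 := hO.sub (al_pow h3 two_ne_zero) (al_pow a1 (show (6 : ℕ) ≠ 0 by norm_num))
      have h5 : (y / x ^ 3) ^ 2 - x⁻¹ ^ 6 = 1 := by
        rw [div_pow, hB]
        field_simp
        ring
      rw [h5] at h4
      exact (Un.one (O := O)).not_mem h4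

theorem col_dom {L : Type u} [Field L] [Algebra k L] [Algebra K L] [IsScalarTower k K L]
    {O : Subring K} {O' : Subring L} (hO : LocRing k O) (hd : DomR O O') {x y x' y' : K}
    (hx : x ≠ 0) (hx' : x' ≠ 0) (hB : y ^ 2 = x ^ 6 + 1) (hB' : y' ^ 2 = x' ^ 6 + 1)
    (hm : x ∈ O ∨ x⁻¹ ∈ O) (hm' : x' ∈ O ∨ x'⁻¹ ∈ O)
    (h : Col O' (algebraMap K L x) (algebraMap K L y) (algebraMap K L x') (algebraMap K L y')) :
    Col O x y x' y' := by
  have hA : ∀ z : K, z ≠ 0 → (z ∈ O ∨ z⁻¹ ∈ O) → algebraMap K L z ∈ O' → z ∈ O := by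
    intro z hz hm hz'
    by_contra hzO
    have h1 : z⁻¹ ∈ mO O := ⟨hm.resolve_left hzO, Or.inr (by rwa [inv_inv])⟩
    have h2 := hd.max _ h1
    rw [map_inv₀] at h2
    rcases h2.2 with h3 | h3
    · exact inv_ne_zero ((map_ne_zero _).mpr hz) h3
    · rw [inv_inv] at h3
      exact h3 hz'
  have hC : ∀ z : K, z ≠ 0 → (z ∈ O ∨ z⁻¹ ∈ O) → (algebraMap K L z)⁻¹ ∈ mO O' → z⁻¹ ∈ mO O := by
    intro z hz hm hz'
    have h1 : z⁻¹ ∈ O := by
      apply hA z⁻¹ (inv_ne_zero hz) (by rw [inv_inv]; exact hm.symm)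
      rw [map_inv₀]
      exact hz'.1
    rw [← hd.mO_iff h1, map_inv₀]
    exact hz'
  have hY : ∀ z w : K, w ^ 2 = z ^ 6 + 1 → z ∈ O → w ∈ O := by
    intro z w hw hz
    apply hO.pow_mem two_ne_zero
    rw [hw]
    exact O.add_mem (O.pow_mem hz _) O.one_mem
  have hZ : ∀ z w : K, z ≠ 0 → w ^ 2 = z ^ 6 + 1 → z⁻¹ ∈ O → w / z ^ 3 ∈ O := by
    intro z w hz hw hz'
    apply hO.pow_mem two_ne_zero
    have h5 : (w / z ^ 3) ^ 2 = 1 + z⁻¹ ^ 6 := by
      rw [div_pow, hw]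
      field_simp
    rw [h5]
    exact O.add_mem O.one_mem (O.pow_mem hz' _)
  rcases h with ⟨a1, a2, a3, a4⟩ | ⟨a1, a2, a3⟩
  · have b1 := hA x hx hm a1
    have b2 := hA x' hx' hm' a2
    refine Or.inl ⟨b1, b2, ?_, ?_⟩
    · rw [← hd.mO_iff (O.sub_mem b1 b2), map_sub]
      exact a3
    · rw [← hd.mO_iff (O.sub_mem (hY x y hB b1) (hY x' y' hB' b2)), map_sub]
      exact a4
  · have b1 := hC x hx hm a1
    have b2 := hC x' hx' hm' a2
    refine Or.inr ⟨b1, b2, ?_⟩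
    rw [← hd.mO_iff (O.sub_mem (hZ x y hx hB b1.1) (hZ x' y' hx' hB' b2.1)), map_sub, map_div₀,
      map_div₀, map_pow, map_pow]
    exact a3

end C

end HB
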