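import Pool.Agent.HB.C.Coord

/-!
# Project HB, part C, module BBLoc: from `P^1` to `B`, locally

STATEMENT. Kummer step `c ^ 2 = x ^ 6 + 1`.  If `w, w'` generate the maximal ideal of `O` and
`w = x - p` or `1/x`, then the maximal ideal of `O'` is generated by `v, w'` with `v` the standard
local parameter of `B` at `(x, c)`.

PROOF. `f = x ^ 6 + 1`.
(1) `w = x - p`: `x = w + p ∈ O`.  If `p ^ 6 + 1 ≠ 0`, `f` is a unit of `O` (residue `p ^ 6 + 1`);
 `h.et` with `u = f`, `g = 1`; `v = w` (image), and `c ^ 2 = f` is a unit so `c` is a unit of `O'`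
 (`un_pow`): first alternative of `CoordB`.  If `p ^ 6 + 1 = 0`: `f = (x - p) q` with
 `q = x^5 + x^4 p + x^3 p^2 + x^2 p^3 + x p^4 + p^5` of residue `6 p ^ 5 ≠ 0` (char 0, `p ≠ 0`), so a
 unit; `h.ram` with `u = q`, `g = 1`, `t = w`, `t' = w'`: `Gen O' c w'`; `v = c`, second
 alternative (`x - p ∈ mO O'`).
(2) `w = 1/x`, `x ≠ 0`: `f = (x ^ 3) ^ 2 (1 + w ^ 6)`, `1 + w ^ 6` a unit of `O`; `h.et` with
 `g = x ^ 3`; `v = w`, third alternative.
-/

set_option autoImplicit false

namespace HB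

namespace C

universe u

variable {k K L : Type u} [Field k] [Field K] [Field L] [Algebra k K] [Algebra K L] [Algebra k L]
  [IsScalarTower k K L] [CharZero k]

theorem bb_loc {O : Subring K} {O' : Subring L} (hO : LocRing k O) (hO' : LocRing k O')
    {x : K} {c : L} (hx : x ≠ 0) (h : StepAt 2 O O' (x ^ 6 + 1) c)
    (hc : c ^ 2 = algebraMap K L (x ^ 6 + 1)) {w w' : K} (hw : Gen O w w')
    (hxw : CoordP k x w) :
    ∃ v : L, Gen O' v (algebraMap K L w') ∧ CoordB k O' (algebraMap K L x) c v := by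
  rcases hxw with ⟨p, hp⟩ | hp
  · have hwm : x - algebraMap k K p ∈ mO O := by rw [← hp]; exact hw.1
    have hP : algebraMap k K p ∈ O := hO.base p
    have hxO : x ∈ O := by
      have := O.add_mem hwm.1 hP
      rwa [sub_add_cancel] at this
    by_cases h0 : p ^ 6 + 1 = 0
    · have hP6 : algebraMap k K p ^ 6 = -1 := by
        have h1 : p ^ 6 = -1 := by linear_combination h0
        rw [← map_pow, h1, map_neg, map_one]
      have hp0 : p ≠ 0 := by
        rintro rfl
        norm_num at h0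
      set P := algebraMap k K p with hPdef
      have hq : Un O (x ^ 5 + x ^ 4 * P + x ^ 3 * P ^ 2 + x ^ 2 * P ^ 3 + x * P ^ 4 + P ^ 5) := by
        refine hO.un_of_res (c := 6 * p ^ 5) ?_ (mul_ne_zero (by norm_num) (pow_ne_zero 5 hp0))
        have e : x ^ 5 + x ^ 4 * P + x ^ 3 * P ^ 2 + x ^ 2 * P ^ 3 + x * P ^ 4 + P ^ 5 -
            algebraMap k K (6 * p ^ 5) =
            (x - P) * (x ^ 4 + 2 * (x ^ 3 * P) + 3 * (x ^ 2 * P ^ 2) + 4 * (x * P ^ 3) +
              5 * P ^ 4) := by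
          rw [map_mul, map_pow, map_ofNat, ← hPdef]
          ring
        rw [e]
        have hn : ∀ n : ℕ, (n : K) ∈ O := fun n => natCast_mem O n
        refine mul_mem_mO hwm ?_
        refine O.add_mem (O.add_mem (O.add_mem (O.add_mem (O.pow_mem hxO 4) ?_) ?_) ?_) ?_
        · exact O.mul_mem (by exact_mod_cast hn 2) (O.mul_mem (O.pow_mem hxO 3) hP)
        · exact O.mul_mem (by exact_mod_cast hn 3) (O.mul_mem (O.pow_mem hxO 2) (O.pow_mem hP 2))
        · exact O.mul_mem (by exact_mod_cast hn 4) (O.mul_mem hxO (O.pow_mem hP 3))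
        · exact O.mul_mem (by exact_mod_cast hn 5) (O.pow_mem hP 4)
      have e : x ^ 6 + 1 = (x ^ 5 + x ^ 4 * P + x ^ 3 * P ^ 2 + x ^ 2 * P ^ 3 + x * P ^ 4 +
          P ^ 5) * 1 ^ 2 * w := by
        rw [hp]
        linear_combination hP6
      have hg := h.ram _ 1 w w' hq one_ne_zero e hw
      rw [map_one, div_one] at hg
      refine ⟨c, hg, Or.inr (Or.inl ⟨rfl, p, ?_⟩)⟩
      have := h.dom.max _ hwm
      rwa [hPdef, map_sub, ← IsScalarTower.algebraMap_apply] at this
    · have hu : Un O (x ^ 6 + 1) := by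
        refine hO.un_of_res (c := p ^ 6 + 1) ?_ h0
        have e : x ^ 6 + 1 - algebraMap k K (p ^ 6 + 1) = (x - algebraMap k K p) *
            (x ^ 5 + x ^ 4 * algebraMap k K p + x ^ 3 * algebraMap k K p ^ 2 +
              x ^ 2 * algebraMap k K p ^ 3 + x * algebraMap k K p ^ 4 +
              algebraMap k K p ^ 5) := by
          rw [map_add, map_pow, map_one]
          ring
        rw [e]
        refine mul_mem_mO hwm ?_
        refine O.add_mem (O.add_mem (O.add_mem (O.add_mem (O.add_mem (O.pow_mem hxO 5)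
          ?_) ?_) ?_) ?_) (O.pow_mem hP 5)
        · exact O.mul_mem (O.pow_mem hxO 4) hP
        · exact O.mul_mem (O.pow_mem hxO 3) (O.pow_mem hP 2)
        · exact O.mul_mem (O.pow_mem hxO 2) (O.pow_mem hP 3)
        · exact O.mul_mem hxO (O.pow_mem hP 4)
      have hg := h.et (x ^ 6 + 1) 1 hu one_ne_zero (by ring) w w' hw
      refine ⟨_, hg, Or.inl ⟨p, ?_, ?_⟩⟩
      · rw [hp, map_sub, ← IsScalarTower.algebraMap_apply]
      · refine hO'.un_pow (n := 2) (by norm_num) ?_
        rw [hc]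
        exact h.dom.un hu
  · have hwm : w ∈ mO O := hw.1
    have hw6 : w ^ 6 ∈ mO O := by
      have := mul_mem_mO hwm (O.pow_mem hwm.1 5)
      rwa [← pow_succ'] at this
    have hu : Un O (1 + w ^ 6) := hO.un_add Un.one hw6
    have e : x ^ 6 + 1 = (1 + w ^ 6) * (x ^ 3) ^ 2 := by
      rw [hp]
      field_simp
    have hg := h.et _ (x ^ 3) hu (pow_ne_zero 3 hx) e w w' hw
    refine ⟨_, hg, Or.inr (Or.inr ?_)⟩
    rw [hp, map_inv₀]

end C

end HB
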