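import Pool.Agent.HB.C.Ext

/-!
# Project HB, part C, module Below: the closed point below a closed point

STATEMENT. `L / K` finite, `S : Surf k K`.  Every closed point `Q` of `sext S L` dominates a closed
point `P` of `S`, and the maximal ideal of its local ring is generated by elements integral over
the local ring at `P`.

PROOF. Let `Q` be the localisation of `(sext S L).chart l'` at the maximal ideal `q`,
`l' ∈ (sext S L).V`, `l' ≠ 0`.  By `mem_V_ext`, `l' = l` (image) with `l ∈ S.V`, `l ≠ 0`; by
`base_ext`, `(sext S L).base l'` is the image of `S.base l`.  So (1) the image of `S.chart l` is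
contained in `(sext S L).chart l'` (an equation of integral dependence over `S.base l` is mapped to
one over the image), and (2) every element of `(sext S L).chart l'` is integral over the image of
`S.base l`, a fortiori over the image of `S.chart l`.  Let `φ : S.chart l →+* (sext S L).chart l'`
be the induced ring homomorphism; it is integral by (2) and `p := q.comap φ` is maximal
(`Ideal.isMaximal_comap_of_isIntegral_of_isMaximal'` or similar).  `P := LocalSubring.ofPrime
(S.chart l) p` is a closed point.
Elements: `a ∈ P` iff `a = x / y`, `x, y ∈ S.chart l`, `y ∉ p` (`LocalSubring.ofPrime`: see its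
definition and API in Mathlib/RingTheory/LocalRing/LocalSubring.lean), and similarly for `Q`.
`DomR.le`: clear.  `DomR.max`: if `a = x / y ∈ mO P` then `x ∈ p` (else `a` is a unit), so
`φ x ∈ q` and the image of `a` is a non-unit of `Q`: if its inverse `y / x` were in `Q`, ... (the
elements of `Q` of the form `x / y` with `x ∈ q`, `y ∉ q` are exactly the non-units of `Q`; prove
this once for both rings).
`GenInt`: `z ∈ mO Q`, `z = x / y` with `x ∈ q`, `y ∉ q`: take `w = x` (integral over `S.chart l`,
hence over `P`: `IntOver`), `b = y⁻¹ ∈ Q`.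
-/

set_option autoImplicit false

namespace HB

namespace C

universe u

private lemma mem_ofPrime {F : Type u} [Field F] (A : Subring F) (P : Ideal A) [P.IsPrime] {a : F} :
    a ∈ (LocalSubring.ofPrime A P).toSubring ↔ ∃ x y : A, y ∉ P ∧ a = (x : F) / (y : F) := by
  constructor
  · intro ha
    obtain ⟨⟨x, s⟩, hs⟩ := IsLocalization.surj P.primeCompl
      (⟨a, ha⟩ : (LocalSubring.ofPrime A P).toSubring)
    refine ⟨x, s.1, s.2, ?_⟩
    have h1 := congrArg (fun w : (LocalSubring.ofPrime A P).toSubring => (w : F)) hs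
    have h2 : (s.1 : F) ≠ 0 := by
      intro h3
      apply s.2
      have : (s.1 : A) = 0 := Subtype.ext h3
      change (s.1 : A) ∈ P
      rw [this]
      exact P.zero_mem
    have h4 : a * (s.1 : F) = (x : F) := h1
    rw [← h4, mul_div_cancel_right₀ _ h2]
  · rintro ⟨x, y, hy, rfl⟩
    have hu := IsLocalization.map_units (M := P.primeCompl)
      (LocalSubring.ofPrime A P).toSubring ⟨y, hy⟩
    obtain ⟨v, hv⟩ := hu.exists_right_inv
    have h1 := congrArg (fun w : (LocalSubring.ofPrime A P).toSubring => (w : F)) hv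
    have h4 : (y : F) * (v : F) = 1 := h1
    have h2 : (y : F) ≠ 0 := by
      intro h3
      rw [h3, zero_mul] at h4
      exact zero_ne_one h4
    have h5 : (x : F) / (y : F) = (x : F) * (v : F) := by
      rw [div_eq_iff h2, mul_assoc, mul_comm (v : F), h4, mul_one]
    rw [h5]
    exact (LocalSubring.ofPrime A P).toSubring.mul_mem (LocalSubring.le_ofPrime A P x.2) v.2

private lemma mem_mO_ofPrime {F : Type u} [Field F] (A : Subring F) (P : Ideal A) [P.IsPrime]
    {a : F} : a ∈ mO (LocalSubring.ofPrime A P).toSubring ↔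
      ∃ x y : A, x ∈ P ∧ y ∉ P ∧ a = (x : F) / (y : F) := by
  constructor
  · rintro ⟨ha, h⟩
    obtain ⟨x, y, hy, e⟩ := (mem_ofPrime A P).1 ha
    refine ⟨x, y, ?_, hy, e⟩
    by_contra hx
    rcases h with h | h
    · have hy0 : (y : F) ≠ 0 := by
        intro h3
        apply hy
        have : y = 0 := Subtype.ext h3
        rw [this]; exact P.zero_mem
      rw [h] at e
      have hx0 : (x : F) = 0 := by
        rw [eq_comm, div_eq_zero_iff] at e
        exact e.resolve_right hy0
      apply hx
      have : x = 0 := Subtype.ext hx0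
      rw [this]; exact P.zero_mem
    · apply h
      exact (mem_ofPrime A P).2 ⟨y, x, hx, by rw [e, inv_div]⟩
  · rintro ⟨x, y, hx, hy, rfl⟩
    refine ⟨(mem_ofPrime A P).2 ⟨x, y, hy, rfl⟩, ?_⟩
    by_cases h0 : (x : F) = 0
    · left; rw [h0, zero_div]
    · right
      intro h
      obtain ⟨x', y', hy', e⟩ := (mem_ofPrime A P).1 h
      have hy0 : (y' : F) ≠ 0 := by
        intro h3
        apply hy'
        have : y' = 0 := Subtype.ext h3
        rw [this]; exact P.zero_mem
      rw [inv_div, div_eq_div_iff h0 hy0] at e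
      have e' : y * y' = x' * x := Subtype.ext e
      have h1 : y * y' ∈ P := by rw [e']; exact P.mul_mem_left _ hx
      rcases (inferInstance : P.IsPrime).mem_or_mem h1 with h2 | h2
      · exact hy h2
      · exact hy' h2

variable {k K : Type u} [Field k] [Field K] [Algebra k K] (S : Surf k K)
  (L : Type u) [Field L] [Algebra k L] [Algebra K L] [IsScalarTower k K L]
  [FiniteDimensional K L]

private lemma intOver_mono {L : Type u} [Field L] [Algebra K L] {A A' : Subring K} (h : A ≤ A')
    {z : L} (hz : IntOver A z) : IntOver A' z := by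
  obtain ⟨P, hP, e⟩ := hz
  refine ⟨P.map (Subring.inclusion h), hP.map _, ?_⟩
  rw [Polynomial.eval₂_map]
  exact e

private lemma base_int (l : K) {z : L} (hz : z ∈ (sext S L).chart (algebraMap K L l)) :
    IntOver (S.base l) z := by
  obtain ⟨P, hP, e⟩ := hz
  have hb := base_ext S L l
  let ψ : S.base l ≃+* (sext S L).base (algebraMap K L l) :=
    ((S.base l).equivMapOfInjective (algebraMap K L) (algebraMap K L).injective).trans
      (RingEquiv.subringCongr hb.symm)
  have hψ : ∀ x : S.base l, ((ψ x : (sext S L).base (algebraMap K L l)) : L)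
      = algebraMap K L (x : K) := fun x => rfl
  refine ⟨P.map ψ.symm.toRingHom, hP.map _, ?_⟩
  rw [Polynomial.eval₂_map]
  have : ((algebraMap K L).comp (S.base l).subtype).comp ψ.symm.toRingHom
      = algebraMap ((sext S L).base (algebraMap K L l)) L := by
    ext x
    have h1 := hψ (ψ.symm x)
    rw [RingEquiv.apply_symm_apply] at h1
    exact h1.symm
  rw [this]
  exact e

private lemma chart_map (l : K) {x : K} (hx : x ∈ S.chart l) :
    algebraMap K L x ∈ (sext S L).chart (algebraMap K L l) := by
  obtain ⟨P, hP, e⟩ := hx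
  have hb := base_ext S L l
  let ψ : S.base l →+* (sext S L).base (algebraMap K L l) :=
    RingHom.codRestrict ((algebraMap K L).comp (S.base l).subtype) _ fun y => by
      rw [hb]
      exact ⟨y.1, y.2, rfl⟩
  refine ⟨P.map ψ, hP.map _, ?_⟩
  rw [Polynomial.eval₂_map]
  have h1 : (algebraMap ((sext S L).base (algebraMap K L l)) L).comp ψ
      = (algebraMap K L).comp (algebraMap (S.base l) K) := by
    ext y; rfl
  rw [h1, ← Polynomial.hom_eval₂]
  have h2 : Polynomial.eval₂ (algebraMap (S.base l) K) x P = 0 := e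
  rw [h2, map_zero]

theorem exists_below (Q : (sext S L).Pt) :
    ∃ P : S.Pt, DomR P.1.toSubring Q.1.toSubring ∧ GenInt P.1.toSubring Q.1.toSubring := by
  obtain ⟨O, l', hl', h0', q, hq, hmax, rfl⟩ := Q
  obtain ⟨l, hl, rfl⟩ := (mem_V_ext S L).1 hl'
  have h0 : l ≠ 0 := by
    rintro rfl
    exact h0' (map_zero _)
  let φ : S.chart l →+* (sext S L).chart (algebraMap K L l) :=
    RingHom.codRestrict ((algebraMap K L).comp (S.chart l).subtype) _
      fun y => chart_map S L l y.2
  have hφ : ∀ x : S.chart l, ((φ x : (sext S L).chart (algebraMap K L l)) : L)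
      = algebraMap K L (x : K) := fun x => rfl
  have hbc : S.base l ≤ S.chart l := fun x hx => by
    change IsIntegral (S.base l) x
    exact isIntegral_algebraMap (x := (⟨x, hx⟩ : S.base l))
  have hint : φ.IsIntegral := by
    intro z
    obtain ⟨P, hP, e⟩ := intOver_mono hbc (base_int S L l z.2)
    refine ⟨P, hP, ?_⟩
    apply Subtype.ext
    have h1 := Polynomial.hom_eval₂ P φ ((sext S L).chart (algebraMap K L l)).subtype z
    have h2 : ((sext S L).chart (algebraMap K L l)).subtype.comp φ
        = (algebraMap K L).comp (S.chart l).subtype := by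
      ext y; rfl
    rw [h2] at h1
    exact h1.trans e
  have hpm := Ideal.isMaximal_comap_of_isIntegral_of_isMaximal' φ hint q
  have hpp : (q.comap φ).IsPrime := hpm.isPrime
  refine ⟨⟨LocalSubring.ofPrime (S.chart l) (q.comap φ), l, hl, h0, q.comap φ, hpp, hpm, rfl⟩,
    ⟨?_, ?_⟩, ?_⟩
  · intro a ha
    obtain ⟨x, y, hy, rfl⟩ := (mem_ofPrime _ _).1 ha
    refine (mem_ofPrime _ _).2 ⟨φ x, φ y, hy, ?_⟩
    rw [map_div₀, hφ, hφ]
  · intro a ha
    obtain ⟨x, y, hx, hy, rfl⟩ := (mem_mO_ofPrime _ _).1 ha
    refine (mem_mO_ofPrime _ _).2 ⟨φ x, φ y, hx, hy, ?_⟩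
    rw [map_div₀, hφ, hφ]
  · intro z hz
    obtain ⟨x, y, hx, hy, rfl⟩ := (mem_mO_ofPrime _ _).1 hz
    have h1 : (1 : (sext S L).chart (algebraMap K L l)) ∉ q := fun h =>
      hq.ne_top ((Ideal.eq_top_iff_one q).2 h)
    refine ⟨(x : L), (mem_mO_ofPrime _ _).2 ⟨x, 1, hx, h1, by simp⟩, ?_, (y : L)⁻¹,
      (mem_ofPrime _ _).2 ⟨1, y, hy, by simp⟩, by rw [div_eq_inv_mul]⟩
    exact intOver_mono (LocalSubring.le_ofPrime _ _) (intOver_mono hbc (base_int S L l x.2))

end C

end HB
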