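import Pool.Agent.HB.C.Kum

/-!
# Project HB, part C, module KumField: existence of the Kummer extension

`p` prime, `f : K` not a `p`-th power, `k` algebraically closed of characteristic 0.

PROOF. `X ^ p - C f` is irreducible over `K` (`X_pow_sub_C_irreducible_of_prime` in Mathlib, file
`Mathlib/FieldTheory/KummerPolynomial.lean`).  Take `L = AdjoinRoot (X ^ p - C f)`, `c = root`;
`Algebra k L` and the scalar tower from the instances of `AdjoinRoot`, finite dimensional by
`AdjoinRoot.powerBasis` (degree `p`, monic).  `Kum.span`: from the power basis, or from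
`AdjoinRoot.mk_surjective` and division with remainder (`Polynomial.modByMonic`, `as_sum_range`).
`Kum.aut`: `AdjoinRoot.liftAlgHom` with root `ζ c` (`(ζ c) ^ p = c ^ p`); a primitive `p`-th root of
unity `ζ : k` exists since `k` is algebraically closed of characteristic 0 (`HasEnoughRootsOfUnity`,
or `IsAlgClosed` and `Polynomial.cyclotomic p k`: `isRoot_cyclotomic_iff`).
-/

set_option autoImplicit false

namespace HB

namespace C

universe u

open Polynomial in
theorem exists_kum (k K : Type u) [Field k] [Field K] [Algebra k K] [IsAlgClosed k] [CharZero k]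
    {p : ℕ} (hp : p.Prime) (f : K) (hf : ∀ g : K, g ^ p ≠ f) :
    ∃ (L : Type u) (_ : Field L) (_ : Algebra k L) (_ : Algebra K L) (_ : IsScalarTower k K L)
      (_ : FiniteDimensional K L) (c : L), Kum k K L p f c := by
  have hirr : Irreducible (X ^ p - C f : K[X]) := X_pow_sub_C_irreducible_of_prime hp hf
  have : Fact (Irreducible (X ^ p - C f : K[X])) := ⟨hirr⟩
  have hroot : (AdjoinRoot.root (X ^ p - C f : K[X])) ^ p =
      algebraMap K (AdjoinRoot (X ^ p - C f : K[X])) f := by
    have h := AdjoinRoot.eval₂_root (X ^ p - C f : K[X])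
    simp only [eval₂_sub, eval₂_X_pow, eval₂_C] at h
    rw [AdjoinRoot.algebraMap_eq]
    exact sub_eq_zero.1 h
  have : NeZero p := ⟨hp.ne_zero⟩
  have : NeZero (p : k) := ⟨Nat.cast_ne_zero.2 hp.ne_zero⟩
  obtain ⟨ζ, hζ⟩ := HasEnoughRootsOfUnity.exists_primitiveRoot k p
  refine ⟨AdjoinRoot (X ^ p - C f : K[X]), inferInstance, inferInstance, inferInstance,
    inferInstance, (AdjoinRoot.powerBasis hirr.ne_zero).finite, AdjoinRoot.root _, ?_⟩
  refine ⟨hroot, ?_, ?_⟩
  · intro z
    obtain ⟨g, hg, e⟩ := (AdjoinRoot.powerBasis hirr.ne_zero).exists_eq_aeval z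
    rw [AdjoinRoot.powerBasis_dim, natDegree_X_pow_sub_C] at hg
    refine ⟨fun i => g.coeff i, ?_⟩
    rw [e, aeval_eq_sum_range' hg, Finset.sum_range]
    simp only [AdjoinRoot.powerBasis_gen, Algebra.smul_def]
  · have hx : (X ^ p - C f : K[X]).eval₂ (Algebra.ofId K (AdjoinRoot (X ^ p - C f : K[X])) :
        K →+* AdjoinRoot (X ^ p - C f : K[X]))
        (algebraMap K (AdjoinRoot (X ^ p - C f : K[X])) (algebraMap k K ζ) *
          AdjoinRoot.root (X ^ p - C f : K[X])) = 0 := by
      simp only [eval₂_sub, eval₂_X_pow, eval₂_C]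
      rw [mul_pow, ← map_pow, ← map_pow, hζ.pow_eq_one, map_one, map_one, one_mul, hroot]
      exact sub_self _
    exact ⟨ζ, AdjoinRoot.liftAlgHom _ (Algebra.ofId K _) _ hx, hζ,
      AdjoinRoot.liftAlgHom_root _ _ _ hx⟩

end C

end HB
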