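import Pool.Agent.HB.C.KumAlg

/-!
# Project HB, part C, module KumRam: the ramified case of the Kummer step, locally

STATEMENT. `L = K(c)`, `c ^ p = f = u g ^ p t`, `u` a unit of `O`, `t, t'` generators of the maximal
ideal of `O`, `t` prime in `O`; `O'` dominates `O` and its maximal ideal is generated by elements
integral over `O`.  Then `δ = c / g` and `t'` generate the maximal ideal of `O'`.

PROOF. `δ ^ p = u t` (image), so `δ ∈ O'` (`pow_mem`) and `δ ∈ mO O'` (`mO_pow`, as `u t ∈ mO O`).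
`t = u⁻¹ δ ^ p` is a multiple of `δ` in `O'`.  Let `w ∈ mO O'` be integral over `O` (enough by
`GenInt`).  By `kum_int`, `w = Σ a_i c ^ i = Σ b_i δ ^ i`, `b_i = a_i g ^ i`,
`b_i ^ p (u t) ^ i = a_i ^ p f ^ i ∈ O`, so `b_i ^ p t ^ i ∈ O` for `i < p`.
CLAIM `b_i ∈ O`.  For `i = 0` by `pow_mem`.  For `0 < i < p`: `(t b_i) ^ p = t ^ (p - i) *
(b_i ^ p t ^ i) ∈ O`, so `t b_i ∈ O` (`pow_mem`), and `(t b_i) ^ p` is `t` times an element of `O`;
as `t` is prime in `O` (`Pri`; induction on the exponent), `t b_i = t d` with `d ∈ O`, so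
`b_i = d ∈ O`.
Then `w = b_0 + δ * (element of O')`, so `b_0 ∈ mO O'`, `b_0 ∈ mO O` (`DomR.mO_iff`), hence
`b_0 = α t + β t'` with `α, β ∈ O`, i.e. `w ∈ δ O' + t' O'`.
-/

set_option autoImplicit false

namespace HB

namespace C

universe u

variable {k K L : Type u} [Field k] [Field K] [Field L] [Algebra k K] [Algebra K L] [Algebra k L]
  [IsScalarTower k K L] [CharZero k]

/-- A prime element divides an element when it divides one of its powers. -/
private lemma pri_pow {O : Subring K} {t : K} (ht : Pri O t) {a : K} (ha : a ∈ O) :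
    ∀ (n : ℕ) (q : K), q ∈ O → a ^ n = t * q → ∃ d ∈ O, a = t * d := by
  intro n
  induction n with
  | zero =>
    intro q hq e
    exfalso
    rw [pow_zero] at e
    rcases ht.2.1.2 with h | h
    · exact ht.1 h
    · apply h
      rw [inv_eq_of_mul_eq_one_right e.symm]
      exact hq
  | succ n ih =>
    intro q hq e
    rw [pow_succ] at e
    rcases ht.2.2 _ (O.pow_mem ha n) a ha q hq e with ⟨d, hd, e'⟩ | h
    · exact ih d hd e'
    · exact h

theorem kum_ram {p : ℕ} (hp : 1 < p) {f : K} {c : L} (h : Kum k K L p f c) {O : Subring K}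
    {O' : Subring L} (hO : LocRing k O) (hO' : LocRing k O') (hd : DomR O O')
    (hg : GenInt O O') {u g t t' : K} (hu : Un O u) (hg0 : g ≠ 0) (hf : f = u * g ^ p * t)
    (hxy : Gen O t t') (ht : Pri O t) :
    Gen O' (c / algebraMap K L g) (algebraMap K L t') := by
  have hp0 : p ≠ 0 := by omega
  have hgL : algebraMap K L g ≠ 0 := (map_ne_zero _).2 hg0
  set δ : L := c / algebraMap K L g with hδ
  have hδp : δ ^ p = algebraMap K L (u * t) := by
    rw [hδ, div_pow, h.pow, hf, map_mul, map_mul, map_pow, map_mul]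
    field_simp
  have hδM : δ ∈ mO O' := by
    apply hO'.mO_pow hp0
    rw [hδp]
    exact hd.max _ (mem_mO_mul ht.2.1 hu.mem)
  have hδO : δ ∈ O' := hδM.1
  refine ⟨hδM, hd.max _ hxy.2.1, ?_⟩
  suffices key : ∀ w ∈ mO O', IntOver O w → ∃ b ∈ O', ∃ d ∈ O', w = b * δ + d * algebraMap K L t' by
    intro z hz
    obtain ⟨w, hw, hwi, b, hb, e⟩ := hg z hz
    obtain ⟨b', hb', d', hd', e'⟩ := key w hw hwi
    exact ⟨b * b', O'.mul_mem hb hb', b * d', O'.mul_mem hb hd', by rw [e, e']; ring⟩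
  intro w hw hwi
  obtain ⟨a, hwa, ha⟩ := kum_int hp0 h hO hwi
  have ht0 : t ≠ 0 := ht.1
  have hu0 : u ≠ 0 := hu.ne
  have htO : t ∈ O := ht.2.1.1
  -- the coefficients
  obtain ⟨b, hb, hwb⟩ : ∃ b : Fin p → K, (∀ i, b i ∈ O) ∧
      w = ∑ i, algebraMap K L (b i) * δ ^ (i : ℕ) := by
    refine ⟨fun i => a i * g ^ (i : ℕ), ?_, ?_⟩
    · intro i
      beta_reduce
      have h1 : (a i * g ^ (i : ℕ)) ^ p * t ^ (i : ℕ) ∈ O := by
        have h2 : (a i * g ^ (i : ℕ)) ^ p * t ^ (i : ℕ) =
            (a i ^ p * f ^ (i : ℕ)) * (u⁻¹) ^ (i : ℕ) := by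
          rw [hf, mul_pow, mul_pow, mul_pow, ← pow_mul, ← pow_mul, mul_comm (i : ℕ) p, inv_pow]
          field_simp
        rw [h2]
        exact O.mul_mem (ha i) (O.pow_mem hu.inv.mem _)
      by_cases hi : (i : ℕ) = 0
      · rw [hi, pow_zero, mul_one, pow_zero, mul_one] at h1
        rw [hi, pow_zero, mul_one]
        exact hO.pow_mem hp0 h1
      · set B : K := a i * g ^ (i : ℕ) with hB
        have hip : (i : ℕ) < p := i.2
        have h3 : (t * B) ^ p = t * (t ^ (p - i - 1) * (B ^ p * t ^ (i : ℕ))) := by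
          have h4 : t ^ p = t * (t ^ (p - i - 1) * t ^ (i : ℕ)) := by
            rw [← pow_add, ← pow_succ']
            congr 1
            omega
          rw [mul_pow, h4]
          ring
        have h5 : t ^ (p - i - 1) * (B ^ p * t ^ (i : ℕ)) ∈ O := O.mul_mem (O.pow_mem htO _) h1
        have h6 : t * B ∈ O := by
          apply hO.pow_mem hp0
          rw [h3]
          exact O.mul_mem htO h5
        obtain ⟨d, hd', e⟩ := pri_pow ht h6 p _ h5 h3
        have : B = d := mul_left_cancel₀ ht0 e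
        rw [this]
        exact hd'
    · rw [hwa]
      refine Finset.sum_congr rfl fun i _ => ?_
      simp only [hδ]
      rw [map_mul, map_pow, div_pow]
      field_simp
  obtain ⟨q, rfl⟩ : ∃ q, p = q + 1 := ⟨p - 1, by omega⟩
  rw [Fin.sum_univ_succ] at hwb
  set s : L := ∑ i : Fin q, algebraMap K L (b i.succ) * δ ^ (i : ℕ) with hs
  have hsO : s ∈ O' := O'.sum_mem fun i _ => O'.mul_mem (hd.le _ (hb _)) (O'.pow_mem hδO _)
  have hwb' : w = algebraMap K L (b 0) + δ * s := by
    rw [hwb, hs, Finset.mul_sum]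
    congr 1
    · simp
    · refine Finset.sum_congr rfl fun i _ => ?_
      rw [Fin.val_succ, pow_succ]
      ring
  have hb0 : b 0 ∈ mO O := by
    rw [← hd.mO_iff (hb 0)]
    have := hO'.sub hw (mul_mem_mO hδM hsO)
    rwa [hwb', add_sub_cancel_right] at this
  obtain ⟨α, hα, β, hβ, e⟩ := hxy.2.2 _ hb0
  refine ⟨s + algebraMap K L α * algebraMap K L u⁻¹ * δ ^ q, ?_, algebraMap K L β, hd.le _ hβ, ?_⟩
  · exact O'.add_mem hsO (O'.mul_mem (O'.mul_mem (hd.le _ hα) (hd.le _ hu.inv.mem))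
      (O'.pow_mem hδO _))
  · have h7 : algebraMap K L t = algebraMap K L u⁻¹ * δ ^ q * δ := by
      rw [mul_assoc, ← pow_succ, hδp, ← map_mul]
      congr 1
      field_simp
    rw [hwb', e, map_add, map_mul, map_mul, h7]
    ring

end C

end HB
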