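import Pool.Agent.HB.C.PtLoc
import Pool.Agent.HB.A.Reg
import Pool.Agent.HB.A.LocA

/-!
# Project HB, part C, module PtPri: regular parameters are prime

STATEMENT. `k` algebraically closed, `P` a closed point of the surface `S` (not necessarily smooth)
with local ring `O`; if `t, t'` generate the maximal ideal then `t` is a prime element of `O`.

PROOF. Let `O = A_p`, `A = S.chart l`, `p` maximal, `B = S.base l`.
(1) `B` is the polynomial ring in two algebraically independent elements (two of `1/l, s/l, t/l`),
so it is integrally closed, and the maximal ideal `p ∩ B` has height `≥ 2` (by PtLoc or the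
Nullstellensatz it is `(a - α, b - β)`, and `0 < (a - α) < p ∩ B` are primes).
(2) `A` is integral over `B` and both are domains, so going down holds
(`Mathlib/RingTheory/IntegralClosure/GoingDown.lean`, instance `Algebra.HasGoingDown`), hence
`p` has height `≥ 2`: `Ideal.exists_ltSeries_of_hasGoingDown`.  So `O` has a prime ideal `q` with
`0 ≠ q ≠ m`, `q < m`.
(3) `O` is Noetherian?  This is needed for Krull's intersection theorem: `A` is a finite `B`-module
(`L` is a finite separable extension of `Frac B = k(s,t)`, char 0, `B` integrally closed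
Noetherian: `IsIntegralClosure.isNoetherianRing`, `IsIntegralClosure.finite`...), so `A` and `O`
are Noetherian.
(4) `O / t O` is a Noetherian local ring with maximal ideal generated by `t'`.  If `t'` is
nilpotent in it, then `m` is minimal over `(t)`, so `height m ≤ 1` by Krull's principal ideal
theorem (`Ideal.height_le_one_of_isPrincipal_of_mem_minimalPrimes`), against (2).  If `t'` is not
nilpotent: every nonzero element of `O / t O` is a unit times a power of `t'`
(`⋂ m ^ n = 0`, Krull), so it is a domain, i.e. `t` is prime.  `t ≠ 0` as otherwise `O` has a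
principal maximal ideal `(t')` and again `height m ≤ 1`.
-/

set_option autoImplicit false

namespace HB

namespace C

universe u

variable {k K : Type u} [Field k] [Field K] [Algebra k K] [IsAlgClosed k] [CharZero k]

open IsLocalRing

theorem pt_pri (S : Surf k K) (P : S.Pt) {t t' : K} (h : Gen P.1.toSubring t t') :
    Pri P.1.toSubring t := by
  obtain ⟨ht, ht', hgen⟩ := h
  have hm : maximalIdeal P.1.toSubring =
      Ideal.span {(⟨t, ht.1⟩ : P.1.toSubring), (⟨t', ht'.1⟩ : P.1.toSubring)} := by
    apply le_antisymm
    · rintro ⟨a, ha⟩ ham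
      obtain ⟨b, hb, c, hc, e⟩ := hgen a ((mem_mO_iff P.1 ha).2 ham)
      rw [Ideal.mem_span_pair]
      exact ⟨⟨b, hb⟩, ⟨c, hc⟩, Subtype.ext e.symm⟩
    · rw [Ideal.span_le]
      rintro x (rfl | hx)
      · exact (mem_mO_iff P.1 ht.1).1 ht
      · rw [Set.mem_singleton_iff] at hx
        subst hx
        exact (mem_mO_iff P.1 ht'.1).1 ht'
  have hp : Prime (⟨t, ht.1⟩ : P.1.toSubring) := prime_of_gen P.1.toSubring P.height _ _ hm
  refine ⟨fun h0 => hp.ne_zero (Subtype.ext h0), ht, fun a ha b hb c hc hab => ?_⟩
  have h1 : (⟨t, ht.1⟩ : P.1.toSubring) ∣ ⟨a, ha⟩ * ⟨b, hb⟩ := ⟨⟨c, hc⟩, Subtype.ext hab⟩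
  rcases hp.dvd_or_dvd h1 with ⟨d, hd⟩ | ⟨d, hd⟩
  · exact Or.inl ⟨d, d.2, congrArg Subtype.val hd⟩
  · exact Or.inr ⟨d, d.2, congrArg Subtype.val hd⟩

end C

end HB
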