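import Pool.Agent.HB.C.KumEt
import Pool.Agent.HB.C.KumRam
import Pool.Agent.HB.C.KumField
import Pool.Agent.HB.C.Below
import Pool.Agent.HB.C.PtPri

/-!
# Project HB, part C, module KumStep: the Kummer step

STATEMENT. `k` algebraically closed of characteristic 0, `S` a surface with function field `K`,
`p` prime, `f : K` nonzero, such that at every closed point `f` has the form `unit * g ^ p` or
`unit * g ^ p * t` with `t` a member of a pair of generators of the maximal ideal.  Then there is a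
finite extension `L = K(c)`, `c ^ p = f`, such that `StepAt` holds for every closed point of
`sext S L` and the point below it.

PROOF. If `f` is not a `p`-th power: `exists_kum`, `exists_below`, `kum_et`, `kum_ram`, `pt_loc`,
`pt_pri`.  If `f = c ^ p` with `c : K`: take `L = K` (`Algebra.id`), `sext S K` has the same closed
points as `S` (use `exists_below` for `Q`: `P` with `DomR P Q`; with `GenInt P Q` and `L = K` one
gets: `w ∈ mO Q` integral over `P` is in `P` by `LocRing.ic`, and in `mO P` (`DomR.mO_iff`), so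
`Gen P x y → Gen Q x y`).  `et` is this; `ram`: impossible, as `f = c ^ p = u g ^ p t` gives
`(c / g) ^ p = u t`, so `d = c / g ∈ mO P` and `t ∣ d ^ p`, `t ∣ d` (`Pri`), `t ^ 2 ∣ u t`,
`t` would be a unit.
-/

set_option autoImplicit false

namespace HB

namespace C

universe u

variable {k K : Type u} [Field k] [Field K] [Algebra k K] [IsAlgClosed k] [CharZero k]

omit [IsAlgClosed k] [CharZero k] in
private theorem ks_dvd {O : Subring K} {t : K} (ht : Pri O t) (n : ℕ) :
    ∀ d ∈ O, ∀ e ∈ O, d ^ (n + 1) = t * e → ∃ d' ∈ O, d = t * d' := by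
  induction n with
  | zero =>
    intro d _ e he h
    rw [zero_add, pow_one] at h
    exact ⟨e, he, h⟩
  | succ n ih =>
    intro d hd e he h
    rw [pow_succ'] at h
    rcases ht.2.2 d hd (d ^ (n + 1)) (O.pow_mem hd _) e he h with h1 | ⟨d', hd', h1⟩
    · exact h1
    · exact ih d hd d' hd' h1

private theorem ks_ram {O : Subring K} (hO : LocRing k O) {p : ℕ} (hp : p.Prime) {c u g t : K}
    (hu : Un O u) (hg : g ≠ 0) (h : c ^ p = u * g ^ p * t) (ht : Pri O t) : False := by
  have hdp : (c / g) ^ p = t * u := by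
    rw [div_pow, h, div_eq_iff (pow_ne_zero _ hg)]
    ring
  have htO : t * u ∈ O := O.mul_mem ht.2.1.1 hu.mem
  have hd : c / g ∈ O := hO.pow_mem hp.ne_zero (by rw [hdp]; exact htO)
  obtain ⟨m, hm⟩ : ∃ m, p = m + 2 := ⟨p - 2, by have := hp.two_le; omega⟩
  obtain ⟨d', hd', h1⟩ := ks_dvd ht (m + 1) (c / g) hd u hu.mem (by rw [← hdp, hm])
  rw [h1, hm, mul_pow] at hdp
  have h2 : u = t * (t ^ m * d' ^ (m + 2)) := by
    apply mul_left_cancel₀ ht.1
    rw [← hdp]
    ring
  apply hu.not_mem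
  rw [h2]
  exact mul_mem_mO ht.2.1 (O.mul_mem (O.pow_mem ht.2.1.1 _) (O.pow_mem hd' _))

private theorem ks_et {O O' : Subring K} (hO : LocRing k O) (hd : DomR O O') (hg : GenInt O O')
    {x y : K} (hxy : Gen O x y) : Gen O' x y := by
  refine ⟨hd.max _ hxy.1, hd.max _ hxy.2.1, ?_⟩
  intro a ha
  obtain ⟨w, hw, hi, b, hb, e⟩ := hg a ha
  have hwO : w ∈ O := hO.ic w hi
  have hwm : w ∈ mO O := (hd.mO_iff hwO).mp hw
  obtain ⟨β, hβ, γ, hγ, e'⟩ := hxy.2.2 w hwm
  refine ⟨b * β, O'.mul_mem hb (hd.le _ hβ), b * γ, O'.mul_mem hb (hd.le _ hγ), ?_⟩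
  rw [e, e']
  ring

theorem kummer_step (S : Surf k K) {p : ℕ} (hp : p.Prime) (f : K) (hf : f ≠ 0) :
    ∃ (L : Type u) (_ : Field L) (_ : Algebra k L) (_ : Algebra K L) (_ : IsScalarTower k K L)
      (_ : FiniteDimensional K L) (c : L), c ^ p = algebraMap K L f ∧
      ∀ Q : (sext S L).Pt, ∃ P : S.Pt, StepAt p P.1.toSubring Q.1.toSubring f c := by
  by_cases hpow : ∀ g : K, g ^ p ≠ f
  · obtain ⟨L, i1, i2, i3, i4, i5, c, hK⟩ := exists_kum k K hp f hpow
    refine ⟨L, i1, i2, i3, i4, i5, c, hK.pow, fun Q => ?_⟩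
    obtain ⟨P, hd, hg⟩ := exists_below S L Q
    have hO := pt_loc S P
    have hO' := pt_loc (sext S L) Q
    exact ⟨P, hd, fun u g hu hg0 hf' x y hxy => kum_et hp.ne_zero hK hO hO' hd hg hu hg0 hf' hxy,
      fun u g t t' hu hg0 hf' hxy =>
        kum_ram hp.one_lt hK hO hO' hd hg hu hg0 hf' hxy (pt_pri S P hxy)⟩
  · push Not at hpow
    obtain ⟨c, hc⟩ := hpow
    refine ⟨K, inferInstance, inferInstance, Algebra.id K, inferInstance, inferInstance, c, hc,
      fun Q => ?_⟩
    obtain ⟨P, hd, hg⟩ := exists_below S K Q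
    have hO := pt_loc S P
    exact ⟨P, hd, fun u g hu hg0 hf' x y hxy => ks_et hO hd hg hxy,
      fun u g t t' hu hg0 hf' hxy =>
        (ks_ram hO hp hu hg0 (hc.trans hf') (pt_pri S P hxy)).elim⟩

end C

end HB
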