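import Pool.Agent.HB.C.PtLoc
import Pool.Agent.HB.A.GlueB
import Pool.Agent.HB.A.BaseB

/-!
# Project HB, part C, module P2: the projective plane

`KP k` = fraction field of `k[X_0, X_1]`, `P2 k` = the plane.

STATEMENT (`P2_pt`): every closed point of the plane is of one of three types, with generators of
the maximal ideal
(1) `s - a, t - b`;  (2) `1/s, t/s - b`;  (3) `1/t, s/t`   (`a, b : k`).

PROOF. Let the point `P` be the localisation of `A = chart l` at the maximal ideal `p`.
`chart l = base l`: `base l = k[1/l, s/l, t/l]` is a polynomial ring in two variables (if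
`l = a + b s + c t` with, say, `c ≠ 0`, it is `k[1/l, s/l]`; `1/l, s/l` are algebraically
independent as `k(1/l, s/l) = k(s,t)`; use `MvPolynomial` integrally closed (UFD) and fraction
field the whole field).
ALTERNATIVE avoiding this: use only `pt_loc` (`O` the local ring at `P`): `1/l, s/l, t/l ∈ O`; not all
of them are in `mO O` (some combination is `1`), so one of them is a unit of `O`; dividing by
it: (i) `s, t ∈ O`, or (ii) `1/s, t/s ∈ O`, or (iii) `1/t, s/t ∈ O`.  In case (i) let `a, b` be the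
residues of `s, t` (`LocRing.res`); in case (ii) `1/s` is a unit (then we are in case (i)) or
`1/s ∈ mO O`, type (2) with `b` the residue of `t/s`; in case (iii) `1/t` unit: case (i); `1/t ∈ mO`
and `s/t` unit: case (ii) with `1/s = (1/t)/(s/t) ∈ mO`; else type (3).
GENERATORS, say in case (i): let `a, b` be the residues, `z ∈ mO O`.  One must write `z = F / G`
with `F, G ∈ k[s,t]`, `G(a,b) ≠ 0`; then `F(a,b) = 0` (as `z ∈ mO O`) and `F ∈ (s - a, t - b)`
(Taylor), `1/G ∈ O`.  To see this: `z ∈ K = Frac k[s,t]`, `z = F / G` with `F, G` coprime in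
`k[s,t]` (UFD); if `G(a,b) ≠ 0` fine.  If `G(a,b) = 0`: `z G = F`, so `F(a,b) = 0`.  Here one needs an
argument: `O` is the localisation of the normal ring `chart l` at a maximal ideal `p` and
`k[s,t]_(a,b) ⊆ O` is dominated by `O`; both are localisations: as `1/l, s/l, t/l ∈ k[s,t]_(a,b) =: R`
(`l` is a unit of `O` in case (i), so `l(a,b) ≠ 0`), `chart l ⊆ R` (`R` is integrally closed and
contains `base l`), and elements of `chart l` outside `p` are units of `O`, so non-zero at `(a,b)`
and hence units of `R` (`R` is local and dominated by `O`).  So `O = R`.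
-/

set_option autoImplicit false

namespace HB

namespace C

universe u

variable (k : Type u) [Field k]

/-- The rational function field in two variables. -/
abbrev KP : Type u := FractionRing (MvPolynomial (Fin 2) k)

/-- The two coordinates of the plane. -/
noncomputable def sP : KP k := algebraMap (MvPolynomial (Fin 2) k) (KP k) (MvPolynomial.X 0)

/-- The two coordinates of the plane. -/
noncomputable def tP : KP k := algebraMap (MvPolynomial (Fin 2) k) (KP k) (MvPolynomial.X 1)

theorem P2_indep : AlgebraicIndependent k ![sP k, tP k] := by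
  have h := (MvPolynomial.algebraicIndependent_X (Fin 2) k).map'
    (f := IsScalarTower.toAlgHom k (MvPolynomial (Fin 2) k) (KP k))
    (IsFractionRing.injective (MvPolynomial (Fin 2) k) (KP k))
  have e : ![sP k, tP k] =
      (IsScalarTower.toAlgHom k (MvPolynomial (Fin 2) k) (KP k)) ∘ MvPolynomial.X := by
    funext i
    fin_cases i <;> rfl
  rw [e]
  exact h

theorem P2_poly_mem (F : IntermediateField k (KP k)) (hs : sP k ∈ F) (ht : tP k ∈ F)
    (f : MvPolynomial (Fin 2) k) : algebraMap (MvPolynomial (Fin 2) k) (KP k) f ∈ F := by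
  induction f using MvPolynomial.induction_on with
  | C a =>
    have : algebraMap (MvPolynomial (Fin 2) k) (KP k) (MvPolynomial.C a) =
        algebraMap k (KP k) a := by
      rw [IsScalarTower.algebraMap_apply k (MvPolynomial (Fin 2) k) (KP k)]
      rfl
    rw [this]
    exact F.algebraMap_mem a
  | add p q hp hq => rw [map_add]; exact F.add_mem hp hq
  | mul_X p i hp =>
    rw [map_mul]
    refine F.mul_mem hp ?_
    fin_cases i
    · exact hs
    · exact ht

theorem P2_mem (F : IntermediateField k (KP k)) (hs : sP k ∈ F) (ht : tP k ∈ F) (z : KP k) :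
    z ∈ F := by
  obtain ⟨x, y, hy, rfl⟩ := IsFractionRing.div_surjective (A := MvPolynomial (Fin 2) k) z
  exact F.div_mem (P2_poly_mem k F hs ht x) (P2_poly_mem k F hs ht y)

/-- `k(s,t)` is the whole field, so it is finite (of degree 1). -/
theorem P2_fin :
    FiniteDimensional (IntermediateField.adjoin k ({sP k, tP k} : Set (KP k))) (KP k) := by
  have hm : ∀ z : KP k, z ∈ IntermediateField.adjoin k ({sP k, tP k} : Set (KP k)) :=
    P2_mem k _ (IntermediateField.subset_adjoin _ _ (by simp))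
      (IntermediateField.subset_adjoin _ _ (by simp))
  refine ⟨⟨{1}, ?_⟩⟩
  rw [Finset.coe_singleton, eq_top_iff]
  intro z _
  rw [Submodule.mem_span_singleton]
  exact ⟨⟨z, hm z⟩, by rw [IntermediateField.smul_def]; simp⟩

/-- The projective plane. -/
noncomputable def P2 : Surf k (KP k) where
  s := sP k
  t := tP k
  indep := P2_indep k
  fin := P2_fin k

theorem P2_s : (P2 k).s = sP k := rfl

theorem P2_t : (P2 k).t = tP k := rfl

theorem sP_ne : sP k ≠ 0 := by
  have := (P2_indep k).ne_zero 0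
  simpa using this

theorem tP_ne : tP k ≠ 0 := by
  have := (P2_indep k).ne_zero 1
  simpa using this

/-- The charts of the plane are polynomial rings. -/
theorem P2_chart {l : KP k} (hl : l ∈ (P2 k).V) (h0 : l ≠ 0) :
    (P2 k).chart l = (P2 k).base l := by
  refine le_antisymm ?_ ((P2 k).base_le_chart l)
  intro x hx
  obtain ⟨F, -, h1, h2⟩ := (P2 k).fin_base hl h0
  have hd : ∀ m ∈ (P2 k).V, m / l ∈ F := fun m hm => h1 ⟨m / l, (P2 k).div_mem_base hm⟩
  have hli : (l : KP k)⁻¹ ∈ F := by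
    have := hd 1 (P2 k).one_mem_V
    rwa [one_div] at this
  have hdd : ∀ m ∈ (P2 k).V, m ∈ F := by
    intro m hm
    have := F.div_mem (hd m hm) hli
    rwa [div_inv_eq_mul, div_mul_cancel₀ _ h0] at this
  have hall : ∀ z : KP k, ∃ a b : (P2 k).base l, (b : KP k) ≠ 0 ∧ z = a / b := fun z =>
    h2 z (P2_mem k F (hdd _ (P2 k).s_mem_V) (hdd _ (P2 k).t_mem_V) z)
  haveI := (P2 k).ufd_base hl h0
  haveI hfr : IsFractionRing ((P2 k).base l) (KP k) := by
    refine IsFractionRing.of_field _ _ fun z => ?_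
    obtain ⟨a, b, hb, e⟩ := hall z
    exact ⟨a, b, e⟩
  obtain ⟨y, hy⟩ := (IsIntegrallyClosed.isIntegral_iff (R := (P2 k).base l) (K := KP k)).1
    ((P2 k).mem_chart.1 hx)
  rw [← hy]
  exact y.2

theorem P2_base_rep {l x0 y0 : KP k}
    (hx0 : x0 ∈ (P2 k).base l) (hy0 : y0 ∈ (P2 k).base l)
    (h : ∀ m ∈ (P2 k).V, ∃ a b c : k, m / l = algebraMap k (KP k) a +
      algebraMap k (KP k) b * x0 + algebraMap k (KP k) c * y0) (x : KP k)
    (hx : x ∈ (P2 k).base l) : ∃ c : k, ∃ u ∈ (P2 k).base l, ∃ v ∈ (P2 k).base l,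
      x = algebraMap k (KP k) c + u * x0 + v * y0 := by
  have hk := (P2 k).algebraMap_mem_base l
  change x ∈ Algebra.adjoin k {x : KP k | ∃ m ∈ (P2 k).V, x = m / l} at hx
  induction hx using Algebra.adjoin_induction with
  | mem x hx =>
    obtain ⟨m, hm, rfl⟩ := hx
    obtain ⟨a, b, c, e⟩ := h m hm
    exact ⟨a, _, hk b, _, hk c, e⟩
  | algebraMap r =>
    exact ⟨r, 0, Subring.zero_mem _, 0, Subring.zero_mem _, by ring⟩
  | add x y _ _ ihx ihy =>
    obtain ⟨c, u, hu, v, hv, e⟩ := ihx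
    obtain ⟨c', u', hu', v', hv', e'⟩ := ihy
    refine ⟨c + c', u + u', Subring.add_mem _ hu hu', v + v', Subring.add_mem _ hv hv', ?_⟩
    rw [e, e', map_add]
    ring
  | mul x y _ _ ihx ihy =>
    obtain ⟨c, u, hu, v, hv, e⟩ := ihx
    obtain ⟨c', u', hu', v', hv', e'⟩ := ihy
    refine ⟨c * c', algebraMap k (KP k) c * u' + (algebraMap k (KP k) c' + u' * x0 + v' * y0) * u,
      ?_, algebraMap k (KP k) c * v' + (algebraMap k (KP k) c' + u' * x0 + v' * y0) * v, ?_, ?_⟩
    · exact Subring.add_mem _ (Subring.mul_mem _ (hk c) hu') (Subring.mul_mem _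
        (Subring.add_mem _ (Subring.add_mem _ (hk c') (Subring.mul_mem _ hu' hx0))
          (Subring.mul_mem _ hv' hy0)) hu)
    · exact Subring.add_mem _ (Subring.mul_mem _ (hk c) hv') (Subring.mul_mem _
        (Subring.add_mem _ (Subring.add_mem _ (hk c') (Subring.mul_mem _ hu' hx0))
          (Subring.mul_mem _ hv' hy0)) hv)
    · rw [e, e', map_mul]
      ring

theorem P2_gen [IsAlgClosed k] (P : (P2 k).Pt) {l x0 y0 : KP k} (hl : l ∈ (P2 k).V) (h0 : l ≠ 0)
    (hc : (P2 k).chart l ≤ P.1.toSubring)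
    (hx0 : x0 ∈ (P2 k).base l) (hy0 : y0 ∈ (P2 k).base l)
    (hx1 : x0 ∈ mO P.1.toSubring) (hy1 : y0 ∈ mO P.1.toSubring)
    (h : ∀ m ∈ (P2 k).V, ∃ a b c : k, m / l = algebraMap k (KP k) a +
      algebraMap k (KP k) b * x0 + algebraMap k (KP k) c * y0) :
    Gen P.1.toSubring x0 y0 := by
  have hO := pt_loc (P2 k) P
  refine ⟨hx1, hy1, fun z hz => ?_⟩
  obtain ⟨x, y, hx, hy, hy0', hyi, rfl⟩ : ∃ x y : KP k, x ∈ (P2 k).base l ∧ y ∈ P.1.toSubring ∧
      y ≠ 0 ∧ y⁻¹ ∈ P.1.toSubring ∧ z = x / y := by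
    obtain ⟨O, l', hl', h0', p, hp, hm, rfl⟩ := P
    obtain ⟨q, hq, e, -⟩ := (P2 k).ofPrime_chart hl' hl h0' h0 p hc
    change z ∈ mO (LocalSubring.ofPrime ((P2 k).chart l') p).toSubring at hz
    have hz1 := hz.1
    rw [← e, Surf.mem_ofPrime] at hz1
    obtain ⟨a, b, hb, e1⟩ := hz1
    refine ⟨a, b, ?_, hc b.2, ?_, ?_, e1⟩
    · have := a.2
      exact (P2_chart k hl h0).le this
    · intro hb0
      apply hb
      have : b = 0 := Subtype.ext hb0
      rw [this]
      exact q.zero_mem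
    · change (b : KP k)⁻¹ ∈ (LocalSubring.ofPrime ((P2 k).chart l') p).toSubring
      rw [← e, Surf.mem_ofPrime]
      exact ⟨1, b, hb, by simp⟩
  have hbO : ∀ w ∈ (P2 k).base l, w ∈ P.1.toSubring := fun w hw =>
    hc ((P2 k).base_le_chart l hw)
  have hxm : x ∈ mO P.1.toSubring := by
    have := mul_mem_mO hz hy
    rwa [div_mul_cancel₀ _ hy0'] at this
  obtain ⟨c, u, hu, v, hv, e⟩ := P2_base_rep k hx0 hy0 h x hx
  have hc0 : c = 0 := by
    apply hO.const_zero
    have : algebraMap k (KP k) c = x - u * x0 - v * y0 := by rw [e]; ring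
    rw [this]
    exact hO.sub (hO.sub hxm (mem_mO_mul hx1 (hbO u hu))) (mem_mO_mul hy1 (hbO v hv))
  refine ⟨y⁻¹ * u, P.1.toSubring.mul_mem hyi (hbO u hu), y⁻¹ * v,
    P.1.toSubring.mul_mem hyi (hbO v hv), ?_⟩
  rw [e, hc0, map_zero]
  field_simp
  ring

theorem P2_int [IsAlgClosed k] (P : (P2 k).Pt) (x : KP k) (hx : IsIntegral P.1.toSubring x) :
    x ∈ P.1.toSubring := (pt_loc (P2 k) P).ic x hx

theorem P2_case1 [IsAlgClosed k] (P : (P2 k).Pt) (hc : (P2 k).chart 1 ≤ P.1.toSubring) :
    ∃ a b : k, Gen P.1.toSubring (sP k - algebraMap k (KP k) a)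
      (tP k - algebraMap k (KP k) b) := by
  have hO := pt_loc (P2 k) P
  have hs : sP k ∈ (P2 k).base 1 := by
    have := (P2 k).div_mem_base (l := 1) (P2 k).s_mem_V
    rwa [div_one] at this
  have ht : tP k ∈ (P2 k).base 1 := by
    have := (P2 k).div_mem_base (l := 1) (P2 k).t_mem_V
    rwa [div_one] at this
  obtain ⟨a, ha⟩ := hO.res _ (hc ((P2 k).base_le_chart 1 hs))
  obtain ⟨b, hb⟩ := hO.res _ (hc ((P2 k).base_le_chart 1 ht))
  refine ⟨a, b, P2_gen k P (P2 k).one_mem_V one_ne_zero hc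
    (Subring.sub_mem _ hs ((P2 k).algebraMap_mem_base 1 a))
    (Subring.sub_mem _ ht ((P2 k).algebraMap_mem_base 1 b)) ha hb ?_⟩
  intro m hm
  obtain ⟨x, y, z, e⟩ := (P2 k).mem_V.1 hm
  refine ⟨x + y * a + z * b, y, z, ?_⟩
  rw [e, P2_s, P2_t]
  simp only [Algebra.smul_def, map_add, map_mul]
  ring

theorem P2_case2 [IsAlgClosed k] (P : (P2 k).Pt) (hc : (P2 k).chart (sP k) ≤ P.1.toSubring) :
    (∃ a b : k, Gen P.1.toSubring (sP k - algebraMap k (KP k) a) (tP k - algebraMap k (KP k) b)) ∨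
    (∃ b : k, Gen P.1.toSubring (sP k)⁻¹ (tP k / sP k - algebraMap k (KP k) b)) := by
  have hO := pt_loc (P2 k) P
  have hs0 := sP_ne k
  have hs : (sP k)⁻¹ ∈ (P2 k).base (sP k) := by
    have := (P2 k).div_mem_base (l := sP k) (P2 k).one_mem_V
    rwa [one_div] at this
  have ht : tP k / sP k ∈ (P2 k).base (sP k) := (P2 k).div_mem_base (l := sP k) (P2 k).t_mem_V
  rcases un_or_mem (hc ((P2 k).base_le_chart _ hs)) with h1 | h1
  · left
    apply P2_case1 k P
    apply (P2 k).chart_le_of_div hs0 _ hO.base (P2_int k P) hc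
    rw [div_one]
    have := h1.inv.mem
    rwa [inv_inv] at this
  · right
    obtain ⟨b, hb⟩ := hO.res _ (hc ((P2 k).base_le_chart _ ht))
    refine ⟨b, P2_gen k P (P2 k).s_mem_V hs0 hc hs
      (Subring.sub_mem _ ht ((P2 k).algebraMap_mem_base _ b)) h1 hb ?_⟩
    intro m hm
    obtain ⟨x, y, z, e⟩ := (P2 k).mem_V.1 hm
    refine ⟨y + z * b, x, z, ?_⟩
    rw [e, P2_s, P2_t]
    simp only [Algebra.smul_def, map_add, map_mul]
    field_simp
    ring

theorem P2_pt [IsAlgClosed k] (P : (P2 k).Pt) :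
    (∃ a b : k, Gen P.1.toSubring (sP k - algebraMap k (KP k) a) (tP k - algebraMap k (KP k) b)) ∨
    (∃ b : k, Gen P.1.toSubring (sP k)⁻¹ (tP k / sP k - algebraMap k (KP k) b)) ∨
    Gen P.1.toSubring (tP k)⁻¹ (sP k / tP k) := by
  have hO := pt_loc (P2 k) P
  have key : (P2 k).chart 1 ≤ P.1.toSubring ∨ (P2 k).chart (sP k) ≤ P.1.toSubring ∨
      (P2 k).chart (tP k) ≤ P.1.toSubring := by
    obtain ⟨O, l', hl', h0', p, hp, hm, rfl⟩ := P
    exact (P2 k).exists_chart_le hl' h0' p
  rcases key with hc | hc | hc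
  · exact Or.inl (P2_case1 k P hc)
  · rcases P2_case2 k P hc with h | h
    · exact Or.inl h
    · exact Or.inr (Or.inl h)
  · have hs0 := sP_ne k
    have ht0 := tP_ne k
    have ht : (tP k)⁻¹ ∈ (P2 k).base (tP k) := by
      have := (P2 k).div_mem_base (l := tP k) (P2 k).one_mem_V
      rwa [one_div] at this
    have hs : sP k / tP k ∈ (P2 k).base (tP k) := (P2 k).div_mem_base (l := tP k) (P2 k).s_mem_V
    rcases un_or_mem (hc ((P2 k).base_le_chart _ ht)) with h1 | h1
    · left
      apply P2_case1 k P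
      apply (P2 k).chart_le_of_div ht0 _ hO.base (P2_int k P) hc
      rw [div_one]
      have := h1.inv.mem
      rwa [inv_inv] at this
    rcases un_or_mem (hc ((P2 k).base_le_chart _ hs)) with h2 | h2
    · have hc' : (P2 k).chart (sP k) ≤ P.1.toSubring := by
        apply (P2 k).chart_le_of_div ht0 _ hO.base (P2_int k P) hc
        have := h2.inv.mem
        rwa [inv_div] at this
      rcases P2_case2 k P hc' with h | h
      · exact Or.inl h
      · exact Or.inr (Or.inl h)
    · right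
      right
      refine P2_gen k P (P2 k).t_mem_V ht0 hc ht hs h1 h2 ?_
      intro m hm
      obtain ⟨x, y, z, e⟩ := (P2 k).mem_V.1 hm
      refine ⟨z, x, y, ?_⟩
      rw [e, P2_s, P2_t]
      simp only [Algebra.smul_def]
      field_simp
      ring

end C

end HB
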