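import Pool.Agent.HB.C.PPLoc
import Pool.Agent.HB.C.BBLoc
import Pool.Agent.HB.C.P2
import Pool.Agent.HB.C.KumStep

/-!
# Project HB, part C, module BB: the surface `B x B`

STATEMENT. There is a stage (`IsStage S x y`): the surface `B x B`, three Kummer steps of degree 2
over the plane.

PROOF. `kummer_step` for `P2 k` and `f = s ^ 2 - 4 t` (`≠ 0`; `s, t` algebraically independent):
`L_1, c_1`; `x_0 = (s + c_1)/2`, `x_1 = (s - c_1)/2`; `pp_loc` at every closed point (`pt_loc` for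
both rings, `P2_pt`).  `kummer_step` for `f = x_0 ^ 6 + 1`: `L_2`, `y_0`; `bb_loc` at every
point: `Gen v_0 w_1` with `CoordB` for `v_0` and `CoordP` for `w_1` (`CoordP.map`).
`kummer_step` for `f = x_1 ^ 6 + 1`: `L_3`, `y_1`; `bb_loc` for `Gen.symm`; `CoordB.map` for the first
coordinate.  `sext (sext (sext P2 L_1) L_2) L_3` has `s = x_0 + x_1`, `t = x_0 x_1` (by
definition its `s`, `t` are the images).  Non-vanishing of `x_0, x_1, x_i ^ 6 + 1`, `s`, `t`,
`s ^ 2 - 4 t`: from algebraic independence of `s, t` over `k` (e.g. `x_0 x_1 = t ≠ 0`; if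
`x_0 ^ 6 + 1 = 0` then `x_0` is algebraic over `k`, so in `k` (algebraically closed), and
`x_0 ^ 2 - s x_0 + t = 0` is a non-trivial relation; use the field `Surf.indep` of the stage in
question).
-/

set_option autoImplicit false

namespace HB

namespace C

universe u

section

variable {k K : Type u} [Field k] [Field K] [Algebra k K]

private lemma bb_ne (S : Surf k K) (q : MvPolynomial (Fin 2) k) (v : Fin 2 → k)
    (hq : MvPolynomial.eval v q ≠ 0) : MvPolynomial.aeval ![S.s, S.t] q ≠ 0 := by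
  intro h
  apply hq
  rw [(algebraicIndependent_iff.1 S.indep) q h, map_zero]

private lemma bb_s (S : Surf k K) : S.s ≠ 0 := by
  have h := bb_ne S (MvPolynomial.X 0) ![1, 0] (by simp)
  simpa using h

private lemma bb_t (S : Surf k K) : S.t ≠ 0 := by
  have h := bb_ne S (MvPolynomial.X 1) ![0, 1] (by simp)
  simpa using h

private lemma bb_disc (S : Surf k K) : S.s ^ 2 - 4 * S.t ≠ 0 := by
  have h := bb_ne S (MvPolynomial.X 0 ^ 2 - 4 * MvPolynomial.X 1) ![1, 0] (by simp)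
  simpa using h

private lemma bb_six (S : Surf k K) (x : Fin 2 → K) (hs : S.s = x 0 + x 1) (ht : S.t = x 0 * x 1)
    (a : Fin 2) : x a ^ 6 + 1 ≠ 0 := by
  intro h
  have h1 : (x 0 ^ 6 + 1) * (x 1 ^ 6 + 1) = 0 := by
    revert a
    rw [Fin.forall_fin_two]
    exact ⟨fun h => by rw [h, zero_mul], fun h => by rw [h, mul_zero]⟩
  have h2 := bb_ne S (MvPolynomial.X 1 ^ 6 + (MvPolynomial.X 0 ^ 6 - 6 * MvPolynomial.X 0 ^ 4 *
    MvPolynomial.X 1 + 9 * MvPolynomial.X 0 ^ 2 * MvPolynomial.X 1 ^ 2 -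
      2 * MvPolynomial.X 1 ^ 3) + 1) ![0, 0] (by simp)
  apply h2
  rw [← h1]
  simp [hs, ht]
  ring

private lemma bb_x (S : Surf k K) (x : Fin 2 → K) (ht : S.t = x 0 * x 1)
    (a : Fin 2) : x a ≠ 0 := by
  intro h
  apply bb_t S
  rw [ht]
  revert a
  rw [Fin.forall_fin_two]
  exact ⟨fun h => by rw [h, zero_mul], fun h => by rw [h, mul_zero]⟩

end

private theorem bb_one (k : Type u) [Field k] [IsAlgClosed k] [CharZero k] :
    ∃ (K : Type u) (_ : Field K) (_ : Algebra k K) (S : Surf k K) (x : Fin 2 → K),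
      S.s = x 0 + x 1 ∧ S.t = x 0 * x 1 ∧
      ∀ Q : S.Pt, ∃ w : Fin 2 → K, Gen Q.1.toSubring (w 0) (w 1) ∧
        ∀ a, CoordP k (x a) (w a) := by
  have hs : (P2 k).s = sP k := rfl
  have ht : (P2 k).t = tP k := rfl
  have hd : sP k ^ 2 - 4 * tP k ≠ 0 := bb_disc (P2 k)
  have hs0 : sP k ≠ 0 := bb_s (P2 k)
  have ht0 : tP k ≠ 0 := bb_t (P2 k)
  obtain ⟨L, _, _, _, _, _, c, hc, h⟩ :=
    kummer_step (P2 k) Nat.prime_two (sP k ^ 2 - 4 * tP k) hd
  have h2 : (2 : L) ≠ 0 := by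
    have h3 := (map_ne_zero (algebraMap k L)).2 (two_ne_zero (α := k))
    rwa [map_ofNat] at h3
  have h4 : (4 : L) ≠ 0 := by
    have h5 : (4 : L) = 2 * 2 := by norm_num
    rw [h5]
    exact mul_ne_zero h2 h2
  refine ⟨L, _, _, sext (P2 k) L, ![(algebraMap (KP k) L (sP k) + c) / 2,
    (algebraMap (KP k) L (sP k) - c) / 2], ?_, ?_, ?_⟩
  · change algebraMap (KP k) L (sP k) = (algebraMap (KP k) L (sP k) + c) / 2 +
      (algebraMap (KP k) L (sP k) - c) / 2
    field_simp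
    ring
  · change algebraMap (KP k) L (tP k) = (algebraMap (KP k) L (sP k) + c) / 2 *
      ((algebraMap (KP k) L (sP k) - c) / 2)
    have h6 : algebraMap (KP k) L (sP k ^ 2 - 4 * tP k) =
        algebraMap (KP k) L (sP k) ^ 2 - 4 * algebraMap (KP k) L (tP k) := by
      rw [map_sub, map_pow, map_mul, map_ofNat]
    rw [h6] at hc
    field_simp
    linear_combination hc
  · intro Q
    obtain ⟨P, hP⟩ := h Q
    refine pp_loc (pt_loc (P2 k) P) (pt_loc (sext (P2 k) L) Q) hd hP hc (P2_pt k P) hs0 ht0 ?_ ?_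
    · change 2 * ((algebraMap (KP k) L (sP k) + c) / 2) = _
      field_simp
    · change 2 * ((algebraMap (KP k) L (sP k) - c) / 2) = _
      field_simp

private theorem bb_two (k : Type u) [Field k] [IsAlgClosed k] [CharZero k] :
    ∃ (K : Type u) (_ : Field K) (_ : Algebra k K) (S : Surf k K) (x : Fin 2 → K) (y : K),
      S.s = x 0 + x 1 ∧ S.t = x 0 * x 1 ∧ y ^ 2 = x 0 ^ 6 + 1 ∧
      ∀ Q : S.Pt, ∃ w : Fin 2 → K, Gen Q.1.toSubring (w 0) (w 1) ∧
        CoordB k Q.1.toSubring (x 0) y (w 0) ∧ CoordP k (x 1) (w 1) := by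
  obtain ⟨K, _, _, S, x, hs, ht, hQ⟩ := bb_one k
  obtain ⟨L, _, _, _, _, _, c, hc, h⟩ :=
    kummer_step S Nat.prime_two (x 0 ^ 6 + 1) (bb_six S x hs ht 0)
  refine ⟨L, _, _, sext S L, fun a => algebraMap K L (x a), c, ?_, ?_, ?_, ?_⟩
  · change algebraMap K L S.s = _
    rw [hs, map_add]
  · change algebraMap K L S.t = _
    rw [ht, map_mul]
  · rw [hc, map_add, map_pow, map_one]
  · intro Q
    obtain ⟨P, hP⟩ := h Q
    obtain ⟨w, hw, hwx⟩ := hQ P
    obtain ⟨v, hv, hv'⟩ := bb_loc (pt_loc S P) (pt_loc (sext S L) Q) (bb_x S x ht 0) hP hc hw (hwx 0)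
    exact ⟨![v, algebraMap K L (w 1)], hv, hv', (hwx 1).map⟩

theorem exists_BB (k : Type u) [Field k] [IsAlgClosed k] [CharZero k] :
    ∃ (K : Type u) (_ : Field K) (_ : Algebra k K) (S : Surf k K) (x y : Fin 2 → K),
      IsStage S x y := by
  obtain ⟨K, _, _, S, x, y, hs, ht, hy, hQ⟩ := bb_two k
  obtain ⟨L, _, _, _, _, _, c, hc, h⟩ :=
    kummer_step S Nat.prime_two (x 1 ^ 6 + 1) (bb_six S x hs ht 1)
  refine ⟨L, _, _, sext S L, fun a => algebraMap K L (x a), ![algebraMap K L y, c], ?_, ?_, ?_, ?_⟩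
  · change algebraMap K L S.s = _
    rw [hs, map_add]
  · change algebraMap K L S.t = _
    rw [ht, map_mul]
  · rw [Fin.forall_fin_two]
    refine ⟨?_, ?_⟩
    · change algebraMap K L y ^ 2 = algebraMap K L (x 0) ^ 6 + 1
      rw [← map_pow, hy, map_add, map_pow, map_one]
    · change c ^ 2 = algebraMap K L (x 1) ^ 6 + 1
      rw [hc, map_add, map_pow, map_one]
  · intro Q
    obtain ⟨P, hP⟩ := h Q
    obtain ⟨w, hw, hw0, hw1⟩ := hQ P
    obtain ⟨v, hv, hv'⟩ :=
      bb_loc (pt_loc S P) (pt_loc (sext S L) Q) (bb_x S x ht 1) hP hc hw.symm hw1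
    refine ⟨![algebraMap K L (w 0), v], hv.symm, ?_⟩
    rw [Fin.forall_fin_two]
    exact ⟨hw0.map hP.dom, hv'⟩

end C

end HB
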