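import Pool.Agent.HB.C.Loc
import Pool.Agent.HB.A.LocA

/-!
# Project HB, part C, module Val: discrete valuation rings of a field containing `k`
-/

set_option autoImplicit false

namespace HB

universe u

/-- `R` is a discrete valuation ring with fraction field `K`, containing `k`. -/
structure DVk (k : Type u) {K : Type u} [Field k] [Field K] [Algebra k K] (R : Subring K) :
    Prop where
  dvr : IsDiscreteValuationRing R
  frac : IsFractionRing R K
  base : ∀ c : k, algebraMap k K c ∈ R

namespace C

variable {k K : Type u} [Field k] [Field K] [Algebra k K] [CharZero k] [IsAlgClosed k]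

/-- The local rings of the prime divisors are discrete valuation rings containing `k`
(`HB/A/LocA.lean`; for `base`: `algebraMap_mem_ofPrime` in `HB/A/GlueA.lean`). -/
theorem pd_dvk {S : Surf k K} (C : S.PD) : DVk k C.1.toSubring := by
  refine ⟨inferInstance, inferInstance, ?_⟩
  intro c
  exact C.algebraMap_mem c

end C

namespace DVk

variable {k K : Type u} [Field k] [Field K] [Algebra k K] {R : Subring K}

/-- From `HB/A/OrdB.lean`. -/
theorem mem_iff (h : DVk k R) {f : K} (hf : f ≠ 0) : f ∈ R ↔ 0 ≤ ordS R f := by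
  have := h.dvr
  have := h.frac
  exact mem_iff_ordS R hf

theorem ord_mul (h : DVk k R) {f g : K} (hf : f ≠ 0) (hg : g ≠ 0) :
    ordS R (f * g) = ordS R f + ordS R g := by
  have := h.dvr
  have := h.frac
  exact ordS_mul R hf hg

theorem ord_pow (h : DVk k R) (f : K) (n : ℕ) : ordS R (f ^ n) = n * ordS R f := by
  have := h.dvr
  have := h.frac
  exact ordS_pow R f n

theorem ord_inv (h : DVk k R) (f : K) : ordS R f⁻¹ = - ordS R f := by
  have := h.dvr
  have := h.frac
  exact ordS_inv R f

theorem ord_add (h : DVk k R) {f g : K} (hf : f ≠ 0) (hg : g ≠ 0) (hfg : f + g ≠ 0) :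
    min (ordS R f) (ordS R g) ≤ ordS R (f + g) := by
  have := h.dvr
  have := h.frac
  exact ordS_add R hf hg hfg

theorem ord_add_eq (h : DVk k R) {f g : K} (hf : f ≠ 0) (hg : g ≠ 0)
    (hlt : ordS R f < ordS R g) : ordS R (f + g) = ordS R f := by
  have := h.dvr
  have := h.frac
  exact ordS_add_eq R hf hg hlt

theorem ord_const (h : DVk k R) (c : k) : ordS R (algebraMap k K c) = 0 := by
  have := h.dvr
  have := h.frac
  by_cases hc : c = 0
  · rw [hc, map_zero]
    exact ordS_zero R
  · refine ordS_unit R (h.base c) ?_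
    rw [← map_inv₀]
    exact h.base c⁻¹

/-- Units of `R` have order 0. -/
theorem ord_un (h : DVk k R) {f : K} (hf : C.Un R f) : ordS R f = 0 := by
  have := h.dvr
  have := h.frac
  exact ordS_unit R hf.2.1 hf.2.2

theorem ord_pos (h : DVk k R) {f : K} (h0 : f ≠ 0) (hf : f ∈ C.mO R) : 0 < ordS R f := by
  have := h.dvr
  have := h.frac
  have h1 : 0 ≤ ordS R f := ordS_nonneg R hf.1
  rcases h1.lt_or_eq with h2 | h2
  · exact h2
  · exfalso
    rcases hf.2 with h3 | h3
    · exact h0 h3
    · exact h3 (inv_mem_of_ordS_eq_zero R hf.1 h0 h2.symm)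

theorem int (h : DVk k R) {f : K} {n : ℕ} (hn : n ≠ 0) (hf : f ^ n ∈ R) : f ∈ R := by
  by_cases h0 : f = 0
  · rw [h0]
    exact zero_mem R
  rw [h.mem_iff (pow_ne_zero n h0), h.ord_pow] at hf
  rw [h.mem_iff h0]
  have hn' : (0 : ℤ) < n := by
    exact_mod_cast Nat.pos_of_ne_zero hn
  exact nonneg_of_mul_nonneg_right hf hn'

end DVk

end HB
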