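import Pool.Agent.HB.C.Coord
import Pool.Agent.HB.C.Val
import Pool.Agent.HB.Geo

/-!
# Project HB, part C, module Coll: collisions of two points of `B`

`O` the local ring at a closed point, `R ⊇ O` a discrete valuation ring, two points `(x,y)`,
`(x',y')` of `B : y² = x⁶ + 1` with standard parameters `w, w'` at `O` (`CoordB`, in `mO O`).

STATEMENT 1 (`iB_col`). If the points have the same reduction at `O` (`Col`) and `w ≠ w'` then
`iB R (x,y) (x',y') = ord_R (w - w')`.
PROOF. First alternative of `Col` (`x, x' ∈ O`, so also `x, x' ∈ R`, and `y, y' ∈ O` by `pow_mem`;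
`CoordB` is not the third alternative: `x⁻¹ = w ∈ mO O` with `x ∈ O` is impossible).
 (a) `y` a unit of `O`, then `y'` is a unit (`y - y' ∈ mO`), so `w' = x' - p'` with the same constant
 `p' = p` (`res_unique`), `w - w' = x - x'`; `(y - y')(y + y') = (x - x') q`, `q ∈ O`, `y + y'` a unit
 of `O` (`≡ 2 y`), so `ordT (y - y') ≥ ord (x - x')` (or `y = y'`), min is `ord (w - w')`.
 (b) `y ∈ mO`: then `w = y`, `w' = y'` (the first alternative of `CoordB` needs a unit);
 `(x - x') q = (y - y')(y + y')`, `q = x⁵ + x⁴x' + ... + x'⁵ ≡ 6 p⁵ ≠ 0` (`p ≠ 0` because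
 `p⁶ + 1 = 0`), so `q` is a unit and `ordT (x - x') ≥ ord (y - y')`.
Second alternative (`1/x, 1/x' ∈ mO O`): `w = 1/x`, `w' = 1/x'`; put `z = y/x³`, `z' = y'/x'³`,
 `z² = 1 + w⁶`, `z, z' ∈ O` units, `z - z' ∈ mO`, `z + z'` a unit, so `ordT (z - z') ≥ ord (w - w')`.
 If `x ∉ R`, `x' ∉ R`: `iB = min (ordT (w - w')) (ordT (z - z')) = ord (w - w')`.
 If `x ∈ R`, `x' ∈ R`: they are units of `R`; `x - x' = - x x' (w - w')`,
 `y - y' = (z - z') x³ + z' (x³ - x'³)`, so the min is again `ord (w - w')`.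
 If exactly one of them, say `x`, is in `R`: `iB = 0`, and `w` is a unit of `R`, `w' ∈ mO R`, so
 `ord (w - w') = 0`.

STATEMENT 2 (`iB_not_col`). If the points do not have the same reduction at `O` then `iB = 0`.
PROOF. `x, x' ∈ O`: `x - x'` or `y - y'` is a unit of `O`, hence of `R`, the other is in `R`, so
 the min is 0.  `x ∈ O`, `1/x' ∈ mO O`: if `x' ∉ R` then `iB = 0` (`x ∈ R`); if `x' ∈ R` it is a unit of
 `R`, `x - x' = x' (x/x' - 1)` is a unit of `R` (`x/x' ∈ mO O`), `y - y' ∈ R`, the min is 0.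
 `1/x, 1/x' ∈ mO O`: `z - z'` is in `O` and not in `mO O`, so a unit of `O` and `R`; if `x, x' ∉ R`:
 `iB = 0`; if both are in `R`: units of `R`, and if `x - x'` and `y - y'` were both in `mO R` then
 `z - z'` too, contradiction; mixed: `iB = 0`.
-/

set_option autoImplicit false
set_option linter.unusedSectionVars false

namespace HB

namespace C

variable {k K : Type} [Field k] [Field K] [Algebra k K] [CharZero k]

private theorem ordT_of_ne {R : Subring K} {a : K} (h : a ≠ 0) :
    ordT R a = ((ordS R a : ℤ) : WithTop ℤ) := by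
  unfold ordT
  rw [if_neg h]

private theorem ordT_mul_le {R : Subring K} (hR : DVk k R) {c a : K} (hc : c ∈ R) :
    ordT R a ≤ ordT R (c * a) := by
  by_cases h0 : c * a = 0
  · have h1 : ordT R (c * a) = ⊤ := by
      unfold ordT
      rw [if_pos h0]
    rw [h1]
    exact le_top
  · have hc0 : c ≠ 0 := left_ne_zero_of_mul h0
    have ha0 : a ≠ 0 := right_ne_zero_of_mul h0
    rw [ordT_of_ne h0, ordT_of_ne ha0, hR.ord_mul hc0 ha0]
    have h1 := (hR.mem_iff hc0).1 hc
    exact_mod_cast (by omega : ordS R a ≤ ordS R c + ordS R a)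

private theorem ordT_add_le {R : Subring K} (hR : DVk k R) (a b : K) :
    min (ordT R a) (ordT R b) ≤ ordT R (a + b) := by
  by_cases h0 : a + b = 0
  · have h1 : ordT R (a + b) = ⊤ := by
      unfold ordT
      rw [if_pos h0]
    rw [h1]
    exact le_top
  · by_cases ha : a = 0
    · subst ha
      rw [zero_add]
      exact min_le_right _ _
    · by_cases hb : b = 0
      · subst hb
        rw [add_zero]
        exact min_le_left _ _
      · rw [ordT_of_ne h0, ordT_of_ne ha, ordT_of_ne hb]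
        have h1 := hR.ord_add ha hb h0
        exact_mod_cast h1

private theorem min_ordT {R : Subring K} (hR : DVk k R) {A B C a b a' b' : K} (ha : a ∈ R)
    (hb : b ∈ R) (ha' : a' ∈ R) (hb' : b' ∈ R) (hA : A = a * C) (hB : B = b * C)
    (hC : C = a' * A + b' * B) : min (ordT R A) (ordT R B) = ordT R C := by
  apply le_antisymm
  · calc min (ordT R A) (ordT R B) ≤ min (ordT R (a' * A)) (ordT R (b' * B)) :=
          min_le_min (ordT_mul_le hR ha') (ordT_mul_le hR hb')
      _ ≤ ordT R (a' * A + b' * B) := ordT_add_le hR _ _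
      _ = ordT R C := by rw [← hC]
  · refine le_min ?_ ?_
    · rw [hA]
      exact ordT_mul_le hR ha
    · rw [hB]
      exact ordT_mul_le hR hb

private theorem ordT_one {R : Subring K} (hR : DVk k R) : ordT R 1 = 0 := by
  rw [ordT_of_ne one_ne_zero, ← map_one (algebraMap k K), hR.ord_const]
  rfl

private theorem min_zero {R : Subring K} (hR : DVk k R) {A B a' b' : K} (ha : A ∈ R)
    (hb : B ∈ R) (ha' : a' ∈ R) (hb' : b' ∈ R) (hC : 1 = a' * A + b' * B) :
    min (ordT R A) (ordT R B) = 0 := by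
  rw [min_ordT hR ha hb ha' hb' (mul_one A).symm (mul_one B).symm hC, ordT_one hR]

private theorem un_le {O R : Subring K} (hOR : O ≤ R) {u : K} (h : Un O u) : Un R u :=
  ⟨h.1, hOR h.2.1, hOR h.2.2⟩

private theorem iB_aff {R : Subring K} {x y x' y' : K} (hx : x ∈ R) (hx' : x' ∈ R) :
    iB R (x, y) (x', y') = min (ordT R (x - x')) (ordT R (y - y')) := by
  unfold iB
  rw [if_pos ⟨hx, hx'⟩]

private theorem iB_inf {R : Subring K} {x y x' y' : K} (hx : x ∉ R) (hx' : x' ∉ R) :
    iB R (x, y) (x', y') =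
      min (ordT R (1 / x - 1 / x')) (ordT R (y / x ^ 3 - y' / x' ^ 3)) := by
  unfold iB
  rw [if_neg (fun h => hx h.1), if_pos ⟨hx, hx'⟩]

private theorem iB_mix {R : Subring K} {x y x' y' : K}
    (h : (x ∈ R ∧ x' ∉ R) ∨ (x ∉ R ∧ x' ∈ R)) : iB R (x, y) (x', y') = 0 := by
  unfold iB
  rcases h with ⟨h1, h2⟩ | ⟨h1, h2⟩
  · rw [if_neg (fun h => h2 h.2), if_neg (fun h => h.1 h1)]
  · rw [if_neg (fun h => h1 h.1), if_neg (fun h => h.2 h2)]

private theorem two_un {O : Subring K} (hO : LocRing k O) : Un O (2 : K) := by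
  have h := hO.const (c := (2 : k)) two_ne_zero
  rwa [map_ofNat] at h

private theorem inv_not_both {O : Subring K} {x : K} (hx : x ≠ 0) (h : x ∈ O)
    (h' : x⁻¹ ∈ mO O) : False := by
  rcases h'.2 with h1 | h1
  · exact inv_ne_zero hx h1
  · rw [inv_inv] at h1
    exact h1 h

/-- a point is affine or at infinity at `O` -/
private theorem aff_or_inf {O : Subring K} (hO : LocRing k O) {x y w : K}
    (hw : CoordB k O x y w) (hm : w ∈ mO O) : x ∈ O ∨ x⁻¹ ∈ mO O := by
  rcases hw with ⟨p, hp, _⟩ | ⟨_, p, hp⟩ | h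
  · left
    have h1 := O.add_mem (hp ▸ hm).1 (hO.base p)
    rwa [sub_add_cancel] at h1
  · left
    have h1 := O.add_mem hp.1 (hO.base p)
    rwa [sub_add_cancel] at h1
  · right
    rw [← h]
    exact hm

private theorem coord_inf {O : Subring K} (hO : LocRing k O) {x y w : K} (hx : x ≠ 0)
    (hw : CoordB k O x y w) (hm : w ∈ mO O) (hi : x⁻¹ ∈ mO O) : w = x⁻¹ := by
  rcases hw with ⟨p, hp, _⟩ | ⟨_, p, hp⟩ | h
  · exfalso
    have h1 := O.add_mem (hp ▸ hm).1 (hO.base p)
    rw [sub_add_cancel] at h1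
    exact inv_not_both hx h1 hi
  · exfalso
    have h1 := O.add_mem hp.1 (hO.base p)
    rw [sub_add_cancel] at h1
    exact inv_not_both hx h1 hi
  · exact h

private theorem y_mem {O : Subring K} (hO : LocRing k O) {x y : K} (h : x ∈ O)
    (hB : y ^ 2 = x ^ 6 + 1) : y ∈ O := by
  apply hO.pow_mem two_ne_zero
  rw [hB]
  exact O.add_mem (O.pow_mem h 6) O.one_mem

private theorem z_sq {x y : K} (hx : x ≠ 0) (hB : y ^ 2 = x ^ 6 + 1) :
    (y / x ^ 3) ^ 2 = 1 + x⁻¹ ^ 6 := by
  have h1 : (y / x ^ 3) ^ 2 = y ^ 2 / x ^ 6 := by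
    rw [div_pow]
    ring
  rw [h1, hB]
  field_simp

private theorem z_un {O : Subring K} (hO : LocRing k O) {x y : K} (hx : x ≠ 0)
    (h : x⁻¹ ∈ mO O) (hB : y ^ 2 = x ^ 6 + 1) : Un O (y / x ^ 3) := by
  apply hO.un_pow two_ne_zero
  rw [z_sq hx hB]
  apply hO.un_add Un.one
  have h1 : x⁻¹ ^ 6 = x⁻¹ * x⁻¹ ^ 5 := by ring
  rw [h1]
  exact mul_mem_mO h (O.pow_mem h.1 5)

private theorem qq_mem {O : Subring K} {a b : K} (ha : a ∈ O) (hb : b ∈ O) :
    a ^ 5 + a ^ 4 * b + a ^ 3 * b ^ 2 + a ^ 2 * b ^ 3 + a * b ^ 4 + b ^ 5 ∈ O := by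
  have h1 := O.pow_mem ha
  have h2 := O.pow_mem hb
  exact O.add_mem (O.add_mem (O.add_mem (O.add_mem (O.add_mem (h1 5) (O.mul_mem (h1 4) hb))
    (O.mul_mem (h1 3) (h2 2))) (O.mul_mem (h1 2) (h2 3))) (O.mul_mem ha (h2 4))) (h2 5)

theorem iB_col {O R : Subring K} (hO : LocRing k O) (hR : DVk k R) (hOR : O ≤ R)
    {x y x' y' w w' : K} (hx : x ≠ 0) (hx' : x' ≠ 0) (hB : y ^ 2 = x ^ 6 + 1)
    (hB' : y' ^ 2 = x' ^ 6 + 1) (hw : CoordB k O x y w) (hw' : CoordB k O x' y' w')
    (hm : w ∈ mO O) (hm' : w' ∈ mO O) (h : Col O x y x' y') (hne : w ≠ w') :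
    iB R (x, y) (x', y') = ((ordS R (w - w') : ℤ) : WithTop ℤ) := by
  have hd : w - w' ≠ 0 := sub_ne_zero.2 hne
  rw [← ordT_of_ne hd]
  rcases h with ⟨hxO, hxO', h1, h2⟩ | ⟨hi, hi', h2⟩
  · -- affine case
    have hyO := y_mem hO hxO hB
    have hyO' := y_mem hO hxO' hB'
    have hq := qq_mem hxO hxO'
    set q : K := x ^ 5 + x ^ 4 * x' + x ^ 3 * x' ^ 2 + x ^ 2 * x' ^ 3 + x * x' ^ 4 + x' ^ 5 with hqd
    have hkey : (x - x') * q = (y - y') * (y + y') := by
      have e1 : (y - y') * (y + y') = y ^ 2 - y' ^ 2 := by ring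
      rw [e1, hB, hB', hqd]
      ring
    rw [iB_aff (hOR hxO) (hOR hxO')]
    have hno : ∀ {a : K}, a ≠ 0 → a ∈ O → ∀ {v : K}, v ∈ mO O → v ≠ a⁻¹ := by
      intro a ha ha' v hv hva
      exact inv_not_both ha ha' (hva ▸ hv)
    rcases hw with ⟨p, hp, hy⟩ | ⟨hwy, p, hp⟩ | hw3
    · rcases hw' with ⟨p', hp', hy'⟩ | ⟨hwy', _⟩ | hw3'
      · -- `y`, `y'` units
        have hpp : p = p' := by
          have e1 : x' - algebraMap k K p ∈ mO O := by
            have e2 := hO.sub (hp ▸ hm) h1
            have e3 : x - algebraMap k K p - (x - x') = x' - algebraMap k K p := by ring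
            rwa [e3] at e2
          exact hO.res_unique e1 (hp' ▸ hm')
        have hww : w - w' = x - x' := by
          rw [hp, hp', hpp]
          ring
        have hs : Un O (y + y') := by
          have e1 : Un O (2 * y + -(y - y')) :=
            hO.un_add ((two_un hO).mul hy) (neg_mem_mO h2)
          have e2 : 2 * y + -(y - y') = y + y' := by ring
          rwa [e2] at e1
        rw [hww]
        refine min_ordT hR (a := 1) (b := q * (y + y')⁻¹) (a' := 1) (b' := 0) R.one_mem
          (hOR (O.mul_mem hq hs.inv.mem)) R.one_mem R.zero_mem (one_mul _).symm ?_ (by ring)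
        have hs0 := hs.ne
        field_simp
        rw [← hkey]
        ring
      · exfalso
        have e1 : Un O y' := hO.un_of_sub hy h2
        exact e1.not_mem (hwy' ▸ hm')
      · exact absurd hw3' (hno hx' hxO' hm')
    · rcases hw' with ⟨p', hp', hy'⟩ | ⟨hwy', _⟩ | hw3'
      · exfalso
        have e1 : y' - y ∈ mO O := by
          have := neg_mem_mO h2
          rwa [neg_sub] at this
        have e2 : Un O y := hO.un_of_sub hy' e1
        exact e2.not_mem (hwy ▸ hm)
      · -- `y`, `y'` non-units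
        have hp0 : p ≠ 0 := by
          intro hp0
          rw [hp0, map_zero, sub_zero] at hp
          have e1 : y ^ 2 ∈ mO O := by
            rw [pow_two]
            exact mul_mem_mO (hwy ▸ hm) hyO
          have e2 : x ^ 6 ∈ mO O := by
            have : x ^ 6 = x * x ^ 5 := by ring
            rw [this]
            exact mul_mem_mO hp (O.pow_mem hxO 5)
          have e3 := hO.sub e1 e2
          rw [hB, add_sub_cancel_left] at e3
          exact Un.one.not_mem e3
        have hxu : Un O x := hO.un_of_res hp hp0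
        have h6 : Un O (6 : K) := by
          have e1 := hO.const (c := (6 : k)) (by norm_num)
          rwa [map_ofNat] at e1
        have hqu : Un O q := by
          have e1 : q = 6 * x ^ 5 + (x - x') * (-(15 * x ^ 4 + 20 * x ^ 3 * (x' - x) +
              15 * x ^ 2 * (x' - x) ^ 2 + 6 * x * (x' - x) ^ 3 + (x' - x) ^ 4)) := by
            rw [hqd]
            ring
          rw [e1]
          apply hO.un_add (h6.mul (hxu.pow 5))
          apply mul_mem_mO h1
          apply O.neg_mem
          have hd' : x' - x ∈ O := O.sub_mem hxO' hxO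
          have n15 : (15 : K) ∈ O := by
            have := hO.base (15 : k)
            rwa [map_ofNat] at this
          have n20 : (20 : K) ∈ O := by
            have := hO.base (20 : k)
            rwa [map_ofNat] at this
          refine O.add_mem (O.add_mem (O.add_mem (O.add_mem ?_ ?_) ?_) ?_) ?_
          · exact O.mul_mem n15 (O.pow_mem hxO 4)
          · exact O.mul_mem (O.mul_mem n20 (O.pow_mem hxO 3)) hd'
          · exact O.mul_mem (O.mul_mem n15 (O.pow_mem hxO 2)) (O.pow_mem hd' 2)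
          · exact O.mul_mem (O.mul_mem h6.mem hxO) (O.pow_mem hd' 3)
          · exact O.pow_mem hd' 4
        rw [hwy, hwy']
        refine min_ordT hR (a := (y + y') * q⁻¹) (b := 1) (a' := 0) (b' := 1)
          (hOR (O.mul_mem (O.add_mem hyO hyO') hqu.inv.mem)) R.one_mem R.zero_mem R.one_mem ?_
          (one_mul _).symm (by ring)
        have hq0 := hqu.ne
        have e2 : x - x' = (x - x') * q * q⁻¹ := by
          rw [mul_assoc, mul_inv_cancel₀ hq0, mul_one]
        rw [e2, hkey]
        ring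
      · exact absurd hw3' (hno hx' hxO' hm')
    · exact absurd hw3 (hno hx hxO hm)
  · -- points at infinity
    have ew := coord_inf hO hx hw hm hi
    have ew' := coord_inf hO hx' hw' hm' hi'
    have hz := z_un hO hx hi hB
    have hz' := z_un hO hx' hi' hB'
    set z : K := y / x ^ 3 with hzd
    set z' : K := y' / x' ^ 3 with hzd'
    have hs : Un O (z + z') := by
      have e1 : Un O (2 * z + -(z - z')) :=
        hO.un_add ((two_un hO).mul hz) (neg_mem_mO h2)
      have e2 : 2 * z + -(z - z') = z + z' := by ring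
      rwa [e2] at e1
    have hq := qq_mem hm.1 hm'.1
    set q : K := w ^ 5 + w ^ 4 * w' + w ^ 3 * w' ^ 2 + w ^ 2 * w' ^ 3 + w * w' ^ 4 + w' ^ 5 with hqd
    have hkey : z - z' = q * (z + z')⁻¹ * (w - w') := by
      have e1 : (z - z') * (z + z') = (w - w') * q := by
        have e3 : (z - z') * (z + z') = z ^ 2 - z' ^ 2 := by ring
        rw [e3, hzd, hzd', z_sq hx hB, z_sq hx' hB', hqd, ew, ew']
        ring
      have e2 : z - z' = (z - z') * (z + z') * (z + z')⁻¹ := by
        rw [mul_assoc, mul_inv_cancel₀ hs.ne, mul_one]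
      rw [e2, e1]
      ring
    have hqR : q * (z + z')⁻¹ ∈ R := hOR (O.mul_mem hq hs.inv.mem)
    by_cases hxR : x ∈ R
    · by_cases hxR' : x' ∈ R
      · -- both in `R`
        rw [iB_aff hxR hxR']
        have hui : x⁻¹ ∈ R := hOR hi.1
        have hui' : x'⁻¹ ∈ R := hOR hi'.1
        have hA : x - x' = -(x * x') * (w - w') := by
          rw [ew, ew']
          field_simp
          ring
        have hy1 : y = z * x ^ 3 := by
          rw [hzd]
          field_simp
        have hy2 : y' = z' * x' ^ 3 := by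
          rw [hzd']
          field_simp
        refine min_ordT hR (a := -(x * x'))
          (b := q * (z + z')⁻¹ * x ^ 3 + z' * (-(x * x') * (x ^ 2 + x * x' + x' ^ 2)))
          (a' := -(x⁻¹ * x'⁻¹)) (b' := 0) (R.neg_mem (R.mul_mem hxR hxR')) ?_
          (R.neg_mem (R.mul_mem hui hui')) R.zero_mem hA ?_ ?_
        · refine R.add_mem (R.mul_mem hqR (R.pow_mem hxR 3)) (R.mul_mem (hOR hz'.mem)
            (R.mul_mem (R.neg_mem (R.mul_mem hxR hxR')) ?_))
          exact R.add_mem (R.add_mem (R.pow_mem hxR 2) (R.mul_mem hxR hxR')) (R.pow_mem hxR' 2)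
        · have e1 : y - y' = (z - z') * x ^ 3 + z' * ((x - x') * (x ^ 2 + x * x' + x' ^ 2)) := by
            rw [hy1, hy2]
            ring
          rw [e1, hkey, hA]
          ring
        · rw [hA]
          field_simp
          ring
      · rw [iB_mix (Or.inl ⟨hxR, hxR'⟩), ordT_of_ne hd]
        have hwu : ordS R w = 0 := by
          apply hR.ord_un
          rw [ew]
          exact ⟨inv_ne_zero hx, hOR hi.1, by rw [inv_inv]; exact hxR⟩
        have hwm : -w' ∈ mO R := by
          apply neg_mem_mO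
          rw [ew']
          exact ⟨hOR hi'.1, Or.inr (by rw [inv_inv]; exact hxR')⟩
        have hw0 : w ≠ 0 := by
          rw [ew]
          exact inv_ne_zero hx
        have hw0' : -w' ≠ 0 := by
          rw [ew']
          exact neg_ne_zero.2 (inv_ne_zero hx')
        have hpos := hR.ord_pos hw0' hwm
        have e1 : ordS R (w - w') = 0 := by
          rw [sub_eq_add_neg, hR.ord_add_eq hw0 hw0' (by rw [hwu]; exact hpos), hwu]
        rw [e1]
        rfl
    · by_cases hxR' : x' ∈ R
      · rw [iB_mix (Or.inr ⟨hxR, hxR'⟩), ordT_of_ne hd]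
        have hwu : ordS R (-w') = 0 := by
          apply hR.ord_un
          rw [ew']
          exact Un.neg ⟨inv_ne_zero hx', hOR hi'.1, by rw [inv_inv]; exact hxR'⟩
        have hwm : w ∈ mO R := by
          rw [ew]
          exact ⟨hOR hi.1, Or.inr (by rw [inv_inv]; exact hxR)⟩
        have hw0 : w ≠ 0 := by
          rw [ew]
          exact inv_ne_zero hx
        have hw0' : -w' ≠ 0 := by
          rw [ew']
          exact neg_ne_zero.2 (inv_ne_zero hx')
        have hpos := hR.ord_pos hw0 hwm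
        have e1 : ordS R (w - w') = 0 := by
          rw [sub_eq_add_neg, add_comm, hR.ord_add_eq hw0' hw0 (by rw [hwu]; exact hpos), hwu]
        rw [e1]
        rfl
      · rw [iB_inf hxR hxR']
        refine min_ordT hR (a := 1) (b := q * (z + z')⁻¹) (a' := 1) (b' := 0) R.one_mem hqR
          R.one_mem R.zero_mem ?_ hkey ?_
        · rw [ew, ew', one_div, one_div, one_mul]
        · rw [ew, ew', one_div, one_div]
          ring

theorem iB_not_col {O R : Subring K} (hO : LocRing k O) (hR : DVk k R) (hOR : O ≤ R)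
    {x y x' y' w w' : K} (hx : x ≠ 0) (hx' : x' ≠ 0) (hB : y ^ 2 = x ^ 6 + 1)
    (hB' : y' ^ 2 = x' ^ 6 + 1) (hw : CoordB k O x y w) (hw' : CoordB k O x' y' w')
    (hm : w ∈ mO O) (hm' : w' ∈ mO O) (h : ¬ Col O x y x' y') :
    iB R (x, y) (x', y') = 0 := by
  have hyR : ∀ {a b : K}, a ∈ R → b ^ 2 = a ^ 6 + 1 → b ∈ R := by
    intro a b ha hb
    apply hR.int two_ne_zero
    rw [hb]
    exact R.add_mem (R.pow_mem ha 6) R.one_mem
  -- a unit as a difference of abscissas
  have hunit : ∀ {a a' : K}, a ∈ O → a' ≠ 0 → a'⁻¹ ∈ mO O → a' ∈ R → Un R (a - a') := by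
    intro a a' ha ha0 hi ha'
    have e1 : Un O (-1 + a * a'⁻¹) := hO.un_add Un.one.neg (mem_mO_mul hi ha)
    have e2 : a - a' = a' * (-1 + a * a'⁻¹) := by
      field_simp
      ring
    rw [e2]
    exact Un.mul ⟨ha0, ha', hOR hi.1⟩ (un_le hOR e1)
  rcases aff_or_inf hO hw hm with hxO | hi
  · rcases aff_or_inf hO hw' hm' with hxO' | hi'
    · have hyO := y_mem hO hxO hB
      have hyO' := y_mem hO hxO' hB'
      rw [iB_aff (hOR hxO) (hOR hxO')]
      have hA : x - x' ∈ O := O.sub_mem hxO hxO'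
      have hBB : y - y' ∈ O := O.sub_mem hyO hyO'
      rcases un_or_mem hA with h1 | h1
      · refine min_zero hR (hOR hA) (hOR hBB) (a' := (x - x')⁻¹) (b' := 0) (hOR h1.inv.mem)
          R.zero_mem ?_
        rw [inv_mul_cancel₀ h1.ne]
        ring
      · rcases un_or_mem hBB with h2 | h2
        · refine min_zero hR (hOR hA) (hOR hBB) (a' := 0) (b' := (y - y')⁻¹) R.zero_mem
            (hOR h2.inv.mem) ?_
          rw [inv_mul_cancel₀ h2.ne]
          ring
        · exact absurd (Or.inl ⟨hxO, hxO', h1, h2⟩) h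
    · by_cases hxR' : x' ∈ R
      · rw [iB_aff (hOR hxO) hxR']
        have hu := hunit hxO hx' hi' hxR'
        refine min_zero hR hu.mem (R.sub_mem (hyR (hOR hxO) hB) (hyR hxR' hB'))
          (a' := (x - x')⁻¹) (b' := 0) hu.inv.mem R.zero_mem ?_
        rw [inv_mul_cancel₀ hu.ne]
        ring
      · exact iB_mix (Or.inl ⟨hOR hxO, hxR'⟩)
  · rcases aff_or_inf hO hw' hm' with hxO' | hi'
    · by_cases hxR : x ∈ R
      · rw [iB_aff hxR (hOR hxO')]
        have hu := (hunit hxO' hx hi hxR).neg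
        rw [neg_sub] at hu
        refine min_zero hR hu.mem (R.sub_mem (hyR hxR hB) (hyR (hOR hxO') hB'))
          (a' := (x - x')⁻¹) (b' := 0) hu.inv.mem R.zero_mem ?_
        rw [inv_mul_cancel₀ hu.ne]
        ring
      · exact iB_mix (Or.inr ⟨hxR, hOR hxO'⟩)
    · have hz := z_un hO hx hi hB
      have hz' := z_un hO hx' hi' hB'
      have hzz : Un O (y / x ^ 3 - y' / x' ^ 3) := by
        rcases un_or_mem (O.sub_mem hz.mem hz'.mem) with h1 | h1
        · exact h1
        · exact absurd (Or.inr ⟨hi, hi', h1⟩) h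
      by_cases hxR : x ∈ R
      · by_cases hxR' : x' ∈ R
        · rw [iB_aff hxR hxR']
          have hui : x⁻¹ ∈ R := hOR hi.1
          have hui' : x'⁻¹ ∈ R := hOR hi'.1
          have hy := hyR hxR hB
          have hy' := hyR hxR' hB'
          have hzR := (un_le hOR hzz).inv.mem
          refine min_zero hR (R.sub_mem hxR hxR') (R.sub_mem hy hy')
            (a' := (y / x ^ 3 - y' / x' ^ 3)⁻¹ *
              (-(y' * (x ^ 2 + x * x' + x' ^ 2) * (x⁻¹ ^ 3 * x'⁻¹ ^ 3))))
            (b' := (y / x ^ 3 - y' / x' ^ 3)⁻¹ * x⁻¹ ^ 3) ?_ ?_ ?_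
          · refine R.mul_mem hzR (R.neg_mem (R.mul_mem (R.mul_mem hy' ?_)
              (R.mul_mem (R.pow_mem hui 3) (R.pow_mem hui' 3))))
            exact R.add_mem (R.add_mem (R.pow_mem hxR 2) (R.mul_mem hxR hxR')) (R.pow_mem hxR' 2)
          · exact R.mul_mem hzR (R.pow_mem hui 3)
          · have e1 : y / x ^ 3 - y' / x' ^ 3 =
                -(y' * (x ^ 2 + x * x' + x' ^ 2) * (x⁻¹ ^ 3 * x'⁻¹ ^ 3)) * (x - x') +
                  x⁻¹ ^ 3 * (y - y') := by
              field_simp
              ring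
            have e2 : 1 = (y / x ^ 3 - y' / x' ^ 3)⁻¹ * (y / x ^ 3 - y' / x' ^ 3) :=
              (inv_mul_cancel₀ hzz.ne).symm
            have e3 : (y / x ^ 3 - y' / x' ^ 3)⁻¹ * (y / x ^ 3 - y' / x' ^ 3) =
                (y / x ^ 3 - y' / x' ^ 3)⁻¹ *
                  (-(y' * (x ^ 2 + x * x' + x' ^ 2) * (x⁻¹ ^ 3 * x'⁻¹ ^ 3)) * (x - x') +
                    x⁻¹ ^ 3 * (y - y')) := by
              rw [← e1]
            refine e2.trans (e3.trans ?_)
            ring
        · exact iB_mix (Or.inl ⟨hxR, hxR'⟩)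
      · by_cases hxR' : x' ∈ R
        · exact iB_mix (Or.inr ⟨hxR, hxR'⟩)
        · rw [iB_inf hxR hxR']
          have hzR := un_le hOR hzz
          refine min_zero hR (A := 1 / x - 1 / x') ?_ hzR.mem (a' := 0)
            (b' := (y / x ^ 3 - y' / x' ^ 3)⁻¹) R.zero_mem hzR.inv.mem ?_
          · rw [one_div, one_div]
            exact hOR (O.sub_mem hi.1 hi'.1)
          · rw [inv_mul_cancel₀ hzz.ne]
            ring

end C

end HB
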