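import Pool.Agent.HB.C.Loc

/-!
# Project HB, part C, module Ext: the surface over a finite extension of the function field

`sext S L` : the same elements `s, t`, in the finite extension `L` of `K`.
-/

set_option autoImplicit false

namespace HB

namespace C

universe u

variable {k K : Type u} [Field k] [Field K] [Algebra k K] (S : Surf k K)
  (L : Type u) [Field L] [Algebra k L] [Algebra K L] [IsScalarTower k K L]
  [FiniteDimensional K L]

/-- `AlgebraicIndependent.map'` or `AlgHom` injectivity: `(IsScalarTower.toAlgHom k K L)` is
injective. -/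
theorem ext_indep : AlgebraicIndependent k ![algebraMap K L S.s, algebraMap K L S.t] := by
  have h := S.indep.map' (f := IsScalarTower.toAlgHom k K L) (algebraMap K L).injective
  have e : (IsScalarTower.toAlgHom k K L : K → L) ∘ ![S.s, S.t] =
      ![algebraMap K L S.s, algebraMap K L S.t] := by
    funext i
    fin_cases i <;> rfl
  rwa [e] at h

/-- `L` is finite over `K`, `K` finite over `F = k(s,t)`, and the image of `F` in `L` is
`k(s,t) ⊆ L` (`IntermediateField.adjoin_map`): a spanning set over `F` of `K` and one over `K` of
`L` give one of `L` (products). -/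
theorem ext_fin : FiniteDimensional
    (IntermediateField.adjoin k ({algebraMap K L S.s, algebraMap K L S.t} : Set L)) L := by
  have hm : ∀ x ∈ IntermediateField.adjoin k ({S.s, S.t} : Set K), algebraMap K L x ∈
      IntermediateField.adjoin k ({algebraMap K L S.s, algebraMap K L S.t} : Set L) := by
    intro x hx
    have h1 : (IsScalarTower.toAlgHom k K L) x ∈
        (IntermediateField.adjoin k ({S.s, S.t} : Set K)).map (IsScalarTower.toAlgHom k K L) :=
      ⟨x, hx, rfl⟩
    rw [IntermediateField.adjoin_map, Set.image_pair] at h1
    exact h1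
  let ψ : IntermediateField.adjoin k ({S.s, S.t} : Set K) →+*
      IntermediateField.adjoin k ({algebraMap K L S.s, algebraMap K L S.t} : Set L) :=
    ((algebraMap K L).comp (algebraMap (IntermediateField.adjoin k ({S.s, S.t} : Set K)) K)).codRestrict
      _ fun x => hm _ x.2
  letI : Algebra (IntermediateField.adjoin k ({S.s, S.t} : Set K))
      (IntermediateField.adjoin k ({algebraMap K L S.s, algebraMap K L S.t} : Set L)) :=
    ψ.toAlgebra
  haveI : IsScalarTower (IntermediateField.adjoin k ({S.s, S.t} : Set K))
      (IntermediateField.adjoin k ({algebraMap K L S.s, algebraMap K L S.t} : Set L)) L :=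
    IsScalarTower.of_algebraMap_eq' rfl
  haveI := S.fin
  haveI : Module.Finite (IntermediateField.adjoin k ({S.s, S.t} : Set K)) L :=
    Module.Finite.trans K L
  exact Module.Finite.of_restrictScalars_finite
    (IntermediateField.adjoin k ({S.s, S.t} : Set K)) _ L

/-- The normalisation of the surface `S` in the finite extension `L` of its function field. -/
noncomputable def sext : Surf k L where
  s := algebraMap K L S.s
  t := algebraMap K L S.t
  indep := ext_indep S L
  fin := ext_fin S L

/-- `V` of the extension is the image of `V`. -/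
theorem mem_V_ext {m : L} : m ∈ (sext S L).V ↔ ∃ m' ∈ S.V, m = algebraMap K L m' := by
  have h : (sext S L).V = S.V.map (IsScalarTower.toAlgHom k K L).toLinearMap := by
    unfold Surf.V
    rw [Submodule.map_span]
    congr 1
    rw [Set.image_insert_eq, Set.image_pair]
    simp [sext]
  rw [h, Submodule.mem_map]
  constructor
  · rintro ⟨m', hm', e⟩
    exact ⟨m', hm', e.symm⟩
  · rintro ⟨m', hm', e⟩
    exact ⟨m', hm', e.symm⟩

/-- The base ring of the chart `l` is mapped onto the base ring of the chart `l` of the extension
(same generators). -/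
theorem base_ext (l : K) : (sext S L).base (algebraMap K L l) = (S.base l).map (algebraMap K L) := by
  have h : Algebra.adjoin k {x : L | ∃ m ∈ (sext S L).V, x = m / algebraMap K L l} =
      (Algebra.adjoin k {x : K | ∃ m ∈ S.V, x = m / l}).map (IsScalarTower.toAlgHom k K L) := by
    rw [AlgHom.map_adjoin]
    congr 1
    ext x
    constructor
    · rintro ⟨m, hm, rfl⟩
      obtain ⟨m', hm', rfl⟩ := (mem_V_ext S L).1 hm
      refine ⟨m' / l, ⟨m', hm', rfl⟩, ?_⟩
      exact map_div₀ (algebraMap K L) m' l
    · rintro ⟨y, ⟨m', hm', rfl⟩, rfl⟩
      refine ⟨algebraMap K L m', (mem_V_ext S L).2 ⟨m', hm', rfl⟩, ?_⟩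
      exact map_div₀ (algebraMap K L) m' l
  unfold Surf.base
  rw [h]
  ext x
  rfl

end C

end HB
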