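import Pool.Agent.HB.C.SmoothGen
import Pool.Agent.HB.C.Ext

/-!
# Project HB, part C: coordinates at a closed point, the stages of the tower (definitions)

`CoordP k x w` : `w` is the standard local parameter of the projective line at the point `x`.
`CoordB k O x y w` : `w` is the standard local parameter of `B : y² = x⁶ + 1` at the point `(x, y)`
reduced modulo the maximal ideal of `O` (used together with `w ∈ mO O`).
`IsStage S x y` : `S` is a surface over `B × B`, unramified.
`Col O x y x' y'` : the points `(x,y)` and `(x',y')` have the same reduction.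
-/

set_option autoImplicit false

namespace HB

namespace C

universe u

variable (k : Type u) {K : Type u} [Field k] [Field K] [Algebra k K]

/-- `w` is `x - p` or `1/x`. -/
def CoordP (x w : K) : Prop := (∃ p : k, w = x - algebraMap k K p) ∨ w = x⁻¹

/-- `w` is `x - p` (if `y` is a unit), or `y` (if `x` is regular), or `1/x`. -/
def CoordB (O : Subring K) (x y w : K) : Prop :=
  (∃ p : k, w = x - algebraMap k K p ∧ Un O y) ∨
  (w = y ∧ ∃ p : k, x - algebraMap k K p ∈ mO O) ∨ w = x⁻¹

variable {k}

/-- The surface `S` with the points `(x 0, y 0)`, `(x 1, y 1)` of `B`: unramified over `B × B`. -/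
structure IsStage (S : Surf k K) (x y : Fin 2 → K) : Prop where
  hs : S.s = x 0 + x 1
  ht : S.t = x 0 * x 1
  curve : ∀ a, y a ^ 2 = x a ^ 6 + 1
  inv : ∀ Q : S.Pt, ∃ w : Fin 2 → K, Gen Q.1.toSubring (w 0) (w 1) ∧
    ∀ a, CoordB k Q.1.toSubring (x a) (y a) (w a)

/-- The points `(x,y)` and `(x',y')` of `B` have the same reduction modulo the maximal ideal. -/
def Col (O : Subring K) (x y x' y' : K) : Prop :=
  (x ∈ O ∧ x' ∈ O ∧ x - x' ∈ mO O ∧ y - y' ∈ mO O) ∨
  (x⁻¹ ∈ mO O ∧ x'⁻¹ ∈ mO O ∧ y / x ^ 3 - y' / x' ^ 3 ∈ mO O)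

lemma IsStage.smooth {S : Surf k K} {x y : Fin 2 → K} (h : IsStage S x y) : S.Smooth := by
  rw [smooth_iff]
  intro P
  obtain ⟨w, hw, _⟩ := h.inv P
  exact ⟨_, _, hw⟩

section

variable {L : Type u} [Field L] [Algebra k L] [Algebra K L] [IsScalarTower k K L]

lemma CoordP.map {x w : K} (h : CoordP k x w) : CoordP k (algebraMap K L x) (algebraMap K L w) := by
  rcases h with ⟨p, hp⟩ | h
  · left
    refine ⟨p, ?_⟩
    rw [hp, map_sub, ← IsScalarTower.algebraMap_apply]
  · right
    rw [h, map_inv₀]

lemma CoordB.map {O : Subring K} {O' : Subring L} (hd : DomR O O') {x y w : K}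
    (h : CoordB k O x y w) :
    CoordB k O' (algebraMap K L x) (algebraMap K L y) (algebraMap K L w) := by
  rcases h with ⟨p, hp, hy⟩ | ⟨h, p, hp⟩ | h
  · left
    refine ⟨p, ?_, hd.un hy⟩
    rw [hp, map_sub, ← IsScalarTower.algebraMap_apply]
  · right; left
    refine ⟨by rw [h], p, ?_⟩
    have := hd.max _ hp
    rwa [map_sub, ← IsScalarTower.algebraMap_apply] at this
  · right; right
    rw [h, map_inv₀]

end

end C

end HB
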