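import Pool.Agent.HB.C.Val

/-!
# Project HB, part C, module EVal: `Y - 1` is a cube up to units on `Y² = X³ + 1`

STATEMENT. `R` a discrete valuation ring of `K` containing `k`, `Y ^ 2 = X ^ 3 + 1`, `X ≠ 0`:
`3 ∣ ord (Y - 1)`.

PROOF. `(Y - 1)(Y + 1) = X ^ 3 ≠ 0`.  If `ord X < 0`: `2 ord Y = ord (X ^ 3 + 1) = 3 ord X`
(`ord_add_eq`; `ord 1 = 0`), so `ord Y = 3 m < 0`, `ord (Y - 1) = ord Y` (`ord_add_eq`).
If `ord X ≥ 0` then `Y ∈ R` (`DVk.int`, `Y ^ 2 ∈ R`), `ord (Y - 1) ≥ 0`, `ord (Y + 1) ≥ 0`, the sum is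
`3 ord X`; and they are not both positive, since `(Y + 1) - (Y - 1) = 2` has order 0
(`ord_const`, `ord_add` applied to `(Y + 1) + (-(Y - 1))`).
-/

set_option autoImplicit false

namespace HB

namespace C

universe u

variable {k K : Type u} [Field k] [Field K] [Algebra k K] [CharZero k]

theorem three_dvd_ord {R : Subring K} (h : DVk k R) {X Y : K} (hE : Y ^ 2 = X ^ 3 + 1)
    (hX : X ≠ 0) : (3 : ℤ) ∣ ordS R (Y - 1) := by
  have hX3 : X ^ 3 ≠ 0 := pow_ne_zero 3 hX
  have hfac : (Y - 1) * (Y + 1) = X ^ 3 := by linear_combination hE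
  have hY1 : Y - 1 ≠ 0 := fun h0 => hX3 (by rw [← hfac, h0, zero_mul])
  have hY2 : Y + 1 ≠ 0 := fun h0 => hX3 (by rw [← hfac, h0, mul_zero])
  have h1 : ordS R (Y - 1) + ordS R (Y + 1) = 3 * ordS R X := by
    rw [← h.ord_mul hY1 hY2, hfac, h.ord_pow]
    norm_num
  have ho1 : ordS R (1 : K) = 0 := by
    have := h.ord_const (1 : k)
    rwa [map_one] at this
  have hom1 : ordS R (-1 : K) = 0 := by
    have := h.ord_const (-1 : k)
    rwa [map_neg, map_one] at this
  have ho2 : ordS R (2 : K) = 0 := by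
    have := h.ord_const (2 : k)
    rwa [map_ofNat] at this
  have : CharZero K := charZero_of_injective_algebraMap (algebraMap k K).injective
  by_cases hc : ordS R X < 0
  · have h2 : ordS R (X ^ 3 + 1) = 3 * ordS R X := by
      rw [h.ord_add_eq hX3 one_ne_zero (by rw [h.ord_pow, ho1]; push_cast; omega), h.ord_pow]
      norm_num
    have h3 : ordS R (Y ^ 2) = 2 * ordS R Y := by
      rw [h.ord_pow]
      norm_num
    rw [← hE, h3] at h2
    have hY0 : Y ≠ 0 := by
      rintro rfl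
      rw [zero_sub, zero_add, hom1, ho1] at h1
      omega
    have h4 : ordS R (Y - 1) = ordS R Y := by
      rw [sub_eq_add_neg]
      exact h.ord_add_eq hY0 (neg_ne_zero.2 one_ne_zero) (by rw [hom1]; omega)
    rw [h4]
    omega
  · push Not at hc
    have hXR : X ∈ R := (h.mem_iff hX).2 hc
    have hYR : Y ∈ R := h.int (n := 2) two_ne_zero (by
      rw [hE]
      exact R.add_mem (R.pow_mem hXR 3) R.one_mem)
    have h5 := (h.mem_iff hY1).1 (R.sub_mem hYR R.one_mem)
    have h6 := (h.mem_iff hY2).1 (R.add_mem hYR R.one_mem)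
    have h7 : ordS R (-(Y - 1)) = ordS R (Y - 1) := by
      rw [neg_eq_neg_one_mul, h.ord_mul (neg_ne_zero.2 one_ne_zero) hY1, hom1, zero_add]
    have h8 : (Y + 1) + (-(Y - 1)) = 2 := by ring
    have h9 := h.ord_add hY2 (neg_ne_zero.2 hY1) (by rw [h8]; exact two_ne_zero)
    rw [h8, ho2, h7] at h9
    rcases min_le_iff.1 h9 with h10 | h10
    · omega
    · omega

end C

end HB
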