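import Pool.Agent.HB.C.Val
import Pool.Agent.HB.B.I6
import Pool.Agent.HB.B.Bridge

/-!
# Project HB, part C, module HFun: the functions whose cube roots are adjoined

`f = h ^ 2`, `h = Ψ_q(p) psi3(s2') psi3(s1) ^ 2`, `q = (x,y)`, `p = (x',y')`; from `v_ePsi` and
`iE_three`: `v h ≡ 2 i(p,q) (mod 3)`.  The conditions of `v_ePsi` follow from the algebraic
independence of `x, x'`: the coordinates of `s1, 2 s1` are algebraic over `k(x)` (tripling formula).
-/

set_option autoImplicit false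

namespace HB

namespace C

section Triple

variable {K : Type} [Field K] [CharZero K]

theorem eX_double {s : EPt K} (hs : s ≠ 0) (hY : eY s ≠ 0) :
    s + s ≠ 0 ∧ eX (s + s) - eX s = - psi3 s / (4 * eY s ^ 2) ∧
      eY (s + s) - eY s =
        - (3 * eX s ^ 2 / (2 * eY s) * (eX (s + s) - eX s) + 2 * eY s) := by
  obtain ⟨h1, h2, h3⟩ := doubleE hs hY
  have h4 := eY_sq hs
  refine ⟨h1, ?_, ?_⟩
  · rw [h2]
    unfold psi3
    field_simp
    linear_combination (-48 * eX s) * h4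
  · rw [h3]
    ring

theorem eX_triple {s : EPt K} (hs : s ≠ 0) (hY : eY s ≠ 0) (h3 : psi3 s ≠ 0) :
    eX ((3 : ℤ) • s) * psi3 s ^ 2 =
      eX s ^ 9 - 96 * eX s ^ 6 + 48 * eX s ^ 3 + 64 := by
  obtain ⟨a1, a2, a3⟩ := eX_double hs hY
  have hne : eX (s + s) ≠ eX s := by
    intro h
    have h5 : - psi3 s / (4 * eY s ^ 2) = 0 := by rw [← a2, h, sub_self]
    rw [div_eq_zero_iff, neg_eq_zero] at h5
    rcases h5 with h5 | h5
    · exact h3 h5
    · exact hY (by simpa using h5)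
  obtain ⟨b1, b2, b3⟩ := addE a1 hs hne
  have e3 : (3 : ℤ) • s = s + s + s := by
    rw [show (3 : ℤ) = 1 + 1 + 1 by norm_num, add_smul, add_smul, one_smul]
  have h4 := eY_sq hs
  have hd : (eY (s + s) - eY s) / (eX (s + s) - eX s) =
      8 * eY s ^ 3 / psi3 s - 3 * eX s ^ 2 / (2 * eY s) := by
    rw [a3, a2]
    field_simp
    ring
  rw [e3, b2, hd]
  have e5 : eX (s + s) = eX s - psi3 s / (4 * eY s ^ 2) := by
    linear_combination a2
  rw [e5]
  have h6 : psi3 s = 3 * eX s * (eX s ^ 3 + 4) := by unfold psi3; ring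
  have key : ((8 * eY s ^ 3 / psi3 s - 3 * eX s ^ 2 / (2 * eY s)) ^ 2 -
      (eX s - psi3 s / (4 * eY s ^ 2)) - eX s) * psi3 s ^ 2 =
      64 * (eY s ^ 2) ^ 3 - 24 * eX s ^ 2 * eY s ^ 2 * psi3 s +
        (9 * eX s ^ 4 + psi3 s - 8 * eX s * eY s ^ 2) * psi3 s ^ 2 / (4 * eY s ^ 2) := by
    field_simp
    ring
  rw [key]
  have h7 : 9 * eX s ^ 4 + psi3 s - 8 * eX s * eY s ^ 2 = 4 * eX s * eY s ^ 2 := by
    unfold psi3
    linear_combination (-12 * eX s) * h4
  rw [h7]
  have h8 : 4 * eX s * eY s ^ 2 * psi3 s ^ 2 / (4 * eY s ^ 2) = eX s * psi3 s ^ 2 := by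
    field_simp
  rw [h8, h6, h4]
  ring

end Triple

section Alg

variable {k K : Type} [Field k] [Field K] [Algebra k K] [CharZero k]

open scoped IntermediateField.algebraAdjoinAdjoin in
theorem transc_of_indep {x x' : K} (hind : AlgebraicIndependent k ![x, x']) :
    Transcendental (IntermediateField.adjoin k ({x} : Set K)) x' := by
  have h1 := hind.transcendental_adjoin (s := {0}) (i := 1) (by simp)
  have e : (![x, x'] : Fin 2 → K) '' {0} = {x} := by simp
  rw [e] at h1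
  have h2 : Transcendental (Algebra.adjoin k ({x} : Set K)) x' := h1
  intro h3
  exact h2 ((IsFractionRing.isAlgebraic_iff (Algebra.adjoin k ({x} : Set K))
    (IntermediateField.adjoin k ({x} : Set K)) K).2 h3)

/-- The elements algebraic over `k(x)`. -/
noncomputable def algx (k : Type) {K : Type} [Field k] [Field K] [Algebra k K] (x : K) :
    IntermediateField (IntermediateField.adjoin k ({x} : Set K)) K :=
  algebraicClosure (IntermediateField.adjoin k ({x} : Set K)) K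

theorem mem_algx {x z : K} :
    z ∈ algx k x ↔ IsAlgebraic (IntermediateField.adjoin k ({x} : Set K)) z :=
  mem_algebraicClosure_iff

theorem self_mem_algx {x : K} : x ∈ algx k x := by
  rw [mem_algx]
  exact isAlgebraic_algebraMap
    (⟨x, IntermediateField.subset_adjoin k _ rfl⟩ : IntermediateField.adjoin k ({x} : Set K))

theorem algx_of_algebraic {x z : K} (h : IsAlgebraic (algx k x) z) : z ∈ algx k x := by
  rw [mem_algx]
  have : Algebra.IsAlgebraic (IntermediateField.adjoin k ({x} : Set K)) (algx k x) :=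
    algebraicClosure.isAlgebraic _ _
  exact h.restrictScalars _

theorem algx_of_pow {x z : K} {n : ℕ} (hn : 0 < n) (h : z ^ n ∈ algx k x) : z ∈ algx k x := by
  rw [mem_algx] at h ⊢
  exact h.of_pow hn

theorem eX_mem_algx [CharZero K] {x : K} {s : EPt K} (hs : s ≠ 0) (hY : eY s ≠ 0)
    (h3 : psi3 s ≠ 0) (ha : eX ((3 : ℤ) • s) ∈ algx k x) : eX s ∈ algx k x := by
  have h := eX_triple hs hY h3
  apply algx_of_algebraic
  let a : algx k x := ⟨_, ha⟩
  let Q : Polynomial (algx k x) := Polynomial.X ^ 9 - 96 * Polynomial.X ^ 6 +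
    48 * Polynomial.X ^ 3 + 64 -
    Polynomial.C a * (3 * Polynomial.X ^ 4 + 12 * Polynomial.X) ^ 2
  refine ⟨Q, ?_, ?_⟩
  · intro h0
    have h1 : Polynomial.eval 0 Q = 64 := by simp [Q]
    rw [h0, Polynomial.eval_zero] at h1
    have h2 : (64 : algx k x) ≠ 0 := by norm_num
    exact h2 h1.symm
  · simp only [Q, map_sub, map_add, map_mul, map_pow, Polynomial.aeval_X, Polynomial.aeval_C,
      map_ofNat]
    have ea : algebraMap (algx k x) K a = eX ((3 : ℤ) • s) := rfl
    rw [ea]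
    unfold psi3 at h
    linear_combination -h

theorem eY_mem_algx {x : K} {s : EPt K} (hs : s ≠ 0) (h : eX s ∈ algx k x) :
    eY s ∈ algx k x := by
  apply algx_of_pow (n := 2) (by norm_num)
  rw [eY_sq hs]
  exact add_mem (pow_mem h 3) (one_mem _)

theorem eX_two_mem_algx [CharZero K] {x : K} {s : EPt K} (hs : s ≠ 0) (hY : eY s ≠ 0)
    (h : eX s ∈ algx k x) : eX ((2 : ℤ) • s) ∈ algx k x := by
  have e2 : (2 : ℤ) • s = s + s := by
    rw [show (2 : ℤ) = 1 + 1 by norm_num, add_smul, one_smul]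
  obtain ⟨_, h2, _⟩ := doubleE hs hY
  rw [e2, h2]
  have hy := eY_mem_algx hs h
  exact sub_mem (pow_mem (div_mem (mul_mem (ofNat_mem _ 3) (pow_mem h 2))
    (mul_mem (ofNat_mem _ 2) hy)) 2) (mul_mem (ofNat_mem _ 2) h)

end Alg

section Main

variable {k K : Type} [Field k] [Field K] [Algebra k K] [CharZero k]

/-- The trivial valuation. -/
def trivDV (k K : Type) [Field k] [Field K] [Algebra k K] : DV k K where
  v := fun _ => 0
  zero := rfl
  mul := fun _ _ => rfl
  add := fun _ _ _ => by simp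
  const := fun _ => rfl

/-- The valuation of a discrete valuation ring. -/
noncomputable def dvOf {M : Type} [Field M] [Algebra k M] {R : Subring M} (h : DVk k R) :
    DV k M where
  v := ordS R
  zero := by
    have := h.dvr
    have := h.frac
    exact ordS_zero R
  mul := fun hx hy => h.ord_mul hx hy
  add := fun hx hy hxy => h.ord_add hx hy hxy
  const := fun c => h.ord_const c

theorem mem_iff_ge {M : Type} [Field M] [Algebra k M] {R : Subring M} (h : DVk k R) (f : M) :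
    f ∈ R ↔ (dvOf h).ge 0 f := by
  by_cases hf : f = 0
  · subst hf
    exact ⟨fun _ => Or.inl rfl, fun _ => R.zero_mem⟩
  · rw [h.mem_iff hf]
    exact ⟨fun h' => Or.inr h', fun h' => h'.resolve_left hf⟩

theorem iB_comap {M : Type} [Field M] [Algebra k M] [Algebra K M] [IsScalarTower k K M]
    (D : DV k M) {x y x' y' : K} (h : y ^ 2 = x ^ 6 + 1) (h' : y' ^ 2 = x' ^ 6 + 1)
    (h1 : (algebraMap K M y) ^ 2 = (algebraMap K M x) ^ 6 + 1)
    (h1' : (algebraMap K M y') ^ 2 = (algebraMap K M x') ^ 6 + 1) :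
    D.iB (.aff _ _ h1) (.aff _ _ h1') = (D.comap (K := K)).iB (.aff x y h) (.aff x' y' h') := by
  have hfin : ∀ {a b : K} (e : b ^ 2 = a ^ 6 + 1)
      (e' : (algebraMap K M b) ^ 2 = (algebraMap K M a) ^ 6 + 1),
      BPt.IsFin D (.aff _ _ e') ↔ BPt.IsFin (D.comap (K := K)) (.aff a b e) := by
    intro a b e e'
    show D.ge 0 (algebraMap K M a) ↔ (D.comap (K := K)).ge 0 a
    unfold DV.ge
    rw [map_eq_zero]
    rfl
  have hmin : ∀ a b : K, D.dmin (algebraMap K M a) (algebraMap K M b) =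
      (D.comap (K := K)).dmin a b := by
    intro a b
    unfold DV.dmin
    by_cases ha : a = 0
    · subst ha
      rw [map_zero, if_pos rfl, if_pos rfl]
      rfl
    · have ha' : algebraMap K M a ≠ 0 := (map_ne_zero _).2 ha
      rw [if_neg ha', if_neg ha]
      by_cases hb : b = 0
      · subst hb
        rw [map_zero, if_pos rfl, if_pos rfl]
        rfl
      · have hb' : algebraMap K M b ≠ 0 := (map_ne_zero _).2 hb
        rw [if_neg hb', if_neg hb]
        rfl
  unfold DV.iB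
  rw [hfin h h1, hfin h' h1']
  simp only [BPt.x, BPt.y, BPt.xh, BPt.yh, ← map_sub, ← map_inv₀, ← map_pow, ← map_div₀, hmin]

theorem pi'_aff [CharZero K] {x y : K} (h : y ^ 2 = x ^ 6 + 1) (hx : x ≠ 0)
    (hn : (EC K).Nonsingular ((x ^ 2)⁻¹) (y / x ^ 3)) :
    BPt.pi' (.aff x y h) = WeierstrassCurve.Affine.Point.some _ _ hn := by
  unfold BPt.pi' BPt.swap
  dsimp only
  rw [dif_neg hx]
  simp only [BPt.pi, mkE]
  congr 1
  rw [inv_pow]

theorem eY_ne_of_three {s : EPt K} [CharZero K] (hs : s ≠ 0) (h : eY ((3 : ℤ) • s) ≠ 0) :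
    eY s ≠ 0 := by
  intro h0
  have h1 : s = -s := ptE_ext hs (neg_ne_zeroE hs) (eX_neg s).symm (by rw [eY_neg, h0, neg_zero])
  have h2 : s + s = 0 := by
    nth_rewrite 2 [h1]
    rw [add_neg_cancel]
  have h3 : (3 : ℤ) • s = s := by
    rw [show (3 : ℤ) = 1 + 1 + 1 by norm_num, add_smul, add_smul, one_smul, h2, zero_add]
  rw [h3] at h
  exact h h0

theorem ne_zero_of_three {s : EPt K} (h : (3 : ℤ) • s ≠ 0) : s ≠ 0 := by
  rintro rfl
  exact h (smul_zero _)

end Main

end C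

open C in
theorem exists_hfun {k K : Type} [Field k] [Field K] [Algebra k K] [CharZero k] [IsAlgClosed k]
    (ζ : k) (_hζ : ζ ^ 2 + ζ + 1 = 0) {x y x' y' : K} (h : y ^ 2 = x ^ 6 + 1)
    (h' : y' ^ 2 = x' ^ 6 + 1) (hind : AlgebraicIndependent k ![x, x'])
    (s1 s1' s2 s2' : EPt K)
    (hs1 : ∃ h : (EC K).Nonsingular (x ^ 2) y,
      (3 : ℤ) • s1 = WeierstrassCurve.Affine.Point.some _ _ h)
    (hs1' : ∃ h : (EC K).Nonsingular ((x ^ 2)⁻¹) (y / x ^ 3),
      (3 : ℤ) • s1' = WeierstrassCurve.Affine.Point.some _ _ h)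
    (_hs2 : ∃ h : (EC K).Nonsingular (x' ^ 2) y',
      (3 : ℤ) • s2 = WeierstrassCurve.Affine.Point.some _ _ h)
    (hs2' : ∃ h : (EC K).Nonsingular ((x' ^ 2)⁻¹) (y' / x' ^ 3),
      (3 : ℤ) • s2' = WeierstrassCurve.Affine.Point.some _ _ h) :
    ∃ f : K, f ≠ 0 ∧ ∀ (M : Type) [Field M] [Algebra k M] [Algebra K M] [IsScalarTower k K M]
      (R : Subring M) (_ : DVk k R), ∃ n : ℤ,
      iB R (algebraMap K M x, algebraMap K M y) (algebraMap K M x', algebraMap K M y') =
        ((ordS R (algebraMap K M f) + 3 * n : ℤ) : WithTop ℤ) := by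
  have hK : CharZero K := charZero_of_injective_algebraMap (algebraMap k K).injective
  obtain ⟨n1, hs1⟩ := hs1
  obtain ⟨n1', hs1'⟩ := hs1'
  obtain ⟨n2', hs2'⟩ := hs2'
  -- transcendence
  have hT := transc_of_indep hind
  have hx'A : x' ∉ algx k x := fun hh => hT (mem_algx.1 hh)
  have hxA : x ∈ algx k x := self_mem_algx
  have hx0 : x ≠ 0 := by
    rintro rfl
    exact (hind.transcendental 0) isAlgebraic_zero
  have hx0' : x' ≠ 0 := by
    rintro rfl
    exact hx'A (zero_mem _)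
  have hy0 : y ≠ 0 := by
    rintro rfl
    apply hind.transcendental 0
    have e : x ^ 6 = algebraMap k K (-1) := by
      rw [map_neg, map_one]; linear_combination -h
    have e2 : IsAlgebraic k (x ^ 6) := by rw [e]; exact isAlgebraic_algebraMap _
    exact e2.of_pow (by norm_num)
  have hy0' : y' ≠ 0 := by
    rintro rfl
    apply hx'A
    apply algx_of_pow (n := 6) (by norm_num)
    have e : x' ^ 6 = -1 := by linear_combination -h'
    rw [e]
    exact neg_mem (one_mem _)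
  have hsqA : x' ^ 2 ∉ algx k x := fun hh => hx'A (algx_of_pow (n := 2) (by norm_num) hh)
  have hsqA' : (x' ^ 2)⁻¹ ∉ algx k x := fun hh => hsqA (by
    have := inv_mem hh
    rwa [inv_inv] at this)
  have hpi'p := pi'_aff h' hx0' n2'
  have hpi'q := pi'_aff h hx0 n1'
  have hpiq : BPt.pi (.aff x y h) = WeierstrassCurve.Affine.Point.some _ _ n1 := rfl
  have ne1 : (3 : ℤ) • s1 ≠ 0 := by
    rw [hs1]; exact WeierstrassCurve.Affine.Point.some_ne_zero _
  have ne1' : (3 : ℤ) • s1' ≠ 0 := by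
    rw [hs1']; exact WeierstrassCurve.Affine.Point.some_ne_zero _
  have ne2' : (3 : ℤ) • s2' ≠ 0 := by
    rw [hs2']; exact WeierstrassCurve.Affine.Point.some_ne_zero _
  have z1 := ne_zero_of_three ne1
  have z1' := ne_zero_of_three ne1'
  have z2' := ne_zero_of_three ne2'
  have Y1 : eY s1 ≠ 0 := eY_ne_of_three z1 (by rw [hs1]; exact hy0)
  have Y1' : eY s1' ≠ 0 := eY_ne_of_three z1' (by
    rw [hs1']; exact div_ne_zero hy0 (pow_ne_zero _ hx0))
  have Y2' : eY s2' ≠ 0 := eY_ne_of_three z2' (by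
    rw [hs2']; exact div_ne_zero hy0' (pow_ne_zero _ hx0'))
  have P1 : psi3 s1 ≠ 0 := ((trivDV k K).iE_three z1 Y1 ne1).1
  have P1' : psi3 s1' ≠ 0 := ((trivDV k K).iE_three z1' Y1' ne1').1
  have P2' : psi3 s2' ≠ 0 := ((trivDV k K).iE_three z2' Y2' ne2').1
  have A1 : eX s1 ∈ algx k x := eX_mem_algx z1 Y1 P1 (by
    rw [hs1]; exact pow_mem hxA 2)
  have A1' : eX s1' ∈ algx k x := eX_mem_algx z1' Y1' P1' (by
    rw [hs1']; exact inv_mem (pow_mem hxA 2))
  have B1 : eX ((2 : ℤ) • s1) ∈ algx k x := eX_two_mem_algx z1 Y1 A1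
  have B1' : eX ((2 : ℤ) • s1') ∈ algx k x := eX_two_mem_algx z1' Y1' A1'
  have c1 : BPt.pi (.aff x' y' h') ≠ s1 := by
    intro e
    apply hsqA
    rw [← e] at A1
    exact A1
  have c2 : BPt.pi (.aff x' y' h') ≠ (2 : ℤ) • s1 := by
    intro e
    apply hsqA
    rw [← e] at B1
    exact B1
  have c3 : BPt.pi (.aff x' y' h') ≠ BPt.pi (.aff x y h) := by
    intro e
    apply hsqA
    have e2 := congrArg eX e
    have e3 : x' ^ 2 = x ^ 2 := e2
    rw [e3]
    exact pow_mem hxA 2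
  have c1' : BPt.pi' (.aff x' y' h') ≠ s1' := by
    intro e
    apply hsqA'
    rw [← e, hpi'p] at A1'
    exact A1'
  have c2' : BPt.pi' (.aff x' y' h') ≠ (2 : ℤ) • s1' := by
    intro e
    apply hsqA'
    rw [← e, hpi'p] at B1'
    exact B1'
  have c3' : BPt.pi' (.aff x' y' h') ≠ BPt.pi' (.aff x y h) := by
    intro e
    apply hsqA'
    rw [hpi'p, hpi'q] at e
    have e2 := congrArg eX e
    have e3 : (x' ^ 2)⁻¹ = (x ^ 2)⁻¹ := e2
    rw [e3]
    exact inv_mem (pow_mem hxA 2)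
  have cx : x' ≠ -x := by
    rintro rfl
    exact hx'A (neg_mem hxA)
  have key : ∀ D : DV k K, ePsi (.aff x' y' h') (.aff x y h) s1 s1' ≠ 0 ∧
      D.v (ePsi (.aff x' y' h') (.aff x y h) s1 s1') =
        2 * D.iB (.aff x' y' h') (.aff x y h) + 3 * D.iInf (.aff x' y' h')
        + 2 * D.iZero (.aff x' y' h')
        - 3 * (D.iE (BPt.pi (.aff x' y' h') - s1) + D.iE (BPt.pi' (.aff x' y' h') - s1'))
        - 6 * (D.iE s1 + D.iE s1') + D.iInf (.aff x y h) := fun D =>
    D.v_ePsi h' h hx0' hx0 cx (by rw [hs1, hpiq]) (by rw [hs1', hpi'q]) z1 z1' c1 c2 c3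
      c1' c2' c3'
  have hPsi := (key (trivDV k K)).1
  have hf0 : (ePsi (.aff x' y' h') (.aff x y h) s1 s1' * psi3 s2' * psi3 s1 ^ 2) ≠ 0 :=
    mul_ne_zero (mul_ne_zero hPsi P2') (pow_ne_zero _ P1)
  refine ⟨(ePsi (.aff x' y' h') (.aff x y h) s1 s1' * psi3 s2' * psi3 s1 ^ 2) ^ 2,
    pow_ne_zero _ hf0, ?_⟩
  intro M _ _ _ _ R hR
  let D : DV k K := (dvOf hR).comap (K := K)
  have h1 : (algebraMap K M y) ^ 2 = (algebraMap K M x) ^ 6 + 1 := by
    rw [← map_pow, h, map_add, map_pow, map_one]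
  have h1' : (algebraMap K M y') ^ 2 = (algebraMap K M x') ^ 6 + 1 := by
    rw [← map_pow, h', map_add, map_pow, map_one]
  have hxx : x ≠ x' := by
    rintro rfl
    exact hx'A hxA
  have e1 : iB R (algebraMap K M x, algebraMap K M y) (algebraMap K M x', algebraMap K M y') =
      ((D.iB (.aff x' y' h') (.aff x y h) : ℤ) : WithTop ℤ) := by
    rw [iB_bridge R (dvOf hR) (fun _ _ => rfl) (mem_iff_ge hR) h1 h1'
      (fun hh => hxx ((algebraMap K M).injective hh.1)), iB_comap (dvOf hR) h h' h1 h1',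
      DV.iB_comm]
  have k1 := (key D).2
  have k2 := (D.iE_three z2' Y2' ne2').2
  have k3 := (D.iE_three z1 Y1 ne1).2
  have k4 : D.iE ((3 : ℤ) • s2') = D.iZero (.aff x' y' h') := by
    rw [hs2', ← hpi'p]
    exact D.iE_pi' h' hx0'
  have k5 : D.iE ((3 : ℤ) • s1) = D.iInf (.aff x y h) := by
    rw [hs1, ← hpiq]
    exact D.iE_pi h
  have k6 : ordS R (algebraMap K M
      ((ePsi (.aff x' y' h') (.aff x y h) s1 s1' * psi3 s2' * psi3 s1 ^ 2) ^ 2)) =
      2 * (D.v (ePsi (.aff x' y' h') (.aff x y h) s1 s1') + D.v (psi3 s2')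
        + 2 * D.v (psi3 s1)) := by
    show D.v _ = _
    rw [D.pow hf0, D.mul (mul_ne_zero hPsi P2') (pow_ne_zero _ P1), D.mul hPsi P2', D.pow P1]
    push_cast
    ring
  refine ⟨-(D.iB (.aff x' y' h') (.aff x y h)) - 2 * (D.iInf (.aff x' y' h')
    + D.iZero (.aff x' y' h') + D.iInf (.aff x y h)
    - (D.iE (BPt.pi (.aff x' y' h') - s1) + D.iE (BPt.pi' (.aff x' y' h') - s1'))
    - 2 * (D.iE s1 + D.iE s1') - 3 * D.iE s2' - 6 * D.iE s1), ?_⟩
  rw [e1, k6]
  congr 1
  linarith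

end HB
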