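import Pool.Agent.HB.C.Ram1

/-!
# Project HB, part C, module Ram2: the second ramified cube root

STATEMENT. `Half S x y ζ`, `f ≠ 0` with `ord_C f ≡ iB_C (α (x_0,y_0),(x_1,y_1)) (mod 3)` for all prime
divisors.  Then there is a finite extension on which `f` is a cube, with a smooth surface.

PROOF. As in Ram1, for the points `(ζ x_0, -y_0)` and `(x_1, y_1)`: at `P`, if they collide, take `w`
from `Half.inv` and `u` from `coordB_alpha`: `Gen O_P (u w_0) w_1` (`Gen.unit_mul`),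
`t = u w_0 - w_1`, `Gen O_P t w_1`, `t ≠ 0` (`pt_pri`), `iB_col` with the parameters `u w_0` and
`w_1`, `ord_form'`, `StepAt.ram`.  If not: parameters from `Half.cb` and `coordB_alpha`,
`iB_not_col`, `ord_form`, and `StepAt.et` for generators given by `Smooth` (`smooth_iff`).
`(-y_0)^2 = (ζ x_0)^6 + 1` as `ζ^3 = 1`.
-/

set_option autoImplicit false

namespace HB

namespace C

variable {k K : Type} [Field k] [Field K] [Algebra k K] [IsAlgClosed k] [CharZero k]

theorem exists_ram2 {S : Surf k K} {x y : Fin 2 → K} {ζ : k} (h : Half S x y ζ)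
    (hζ : ζ ^ 2 + ζ + 1 = 0) {f : K} (hf : f ≠ 0)
    (h3 : ∀ C : S.PD, ∃ n : ℤ, iB C.1.toSubring (algebraMap k K ζ * x 0, - y 0) (x 1, y 1) =
      ((ordS C.1.toSubring f + 3 * n : ℤ) : WithTop ℤ)) :
    ∃ (L : Type) (_ : Field L) (_ : Algebra k L) (_ : Algebra K L) (_ : IsScalarTower k K L)
      (S' : Surf k L) (c : L), c ^ 3 = algebraMap K L f ∧ S'.Smooth ∧
      S'.s = algebraMap K L S.s ∧ S'.t = algebraMap K L S.t ∧
      ∀ Q : S'.Pt, ∃ P : S.Pt, DomR P.1.toSubring Q.1.toSubring := by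
  obtain ⟨L, i1, i2, i3, i4, i5, c, hc, hst⟩ := kummer_step S Nat.prime_three f hf
  refine ⟨L, i1, i2, i3, i4, sext S L, c, hc, ?_, rfl, rfl, fun Q => ?_⟩
  · rw [smooth_iff]
    intro Q
    obtain ⟨P, hP⟩ := hst Q
    have hO := pt_loc S P
    have ht0 : x 0 * x 1 ≠ 0 := by
      have h1 := S.indep.ne_zero 1
      rw [← h.ht]
      exact h1
    have hx0 : x 0 ≠ 0 := left_ne_zero_of_mul ht0
    have hx1 : x 1 ≠ 0 := right_ne_zero_of_mul ht0
    have hζ0 : ζ ≠ 0 := by
      rintro rfl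
      norm_num at hζ
    have hζ3 : ζ ^ 3 = 1 := by linear_combination (ζ - 1) * hζ
    have hx0' : algebraMap k K ζ * x 0 ≠ 0 := mul_ne_zero ((map_ne_zero _).2 hζ0) hx0
    have hB : (- y 0) ^ 2 = (algebraMap k K ζ * x 0) ^ 6 + 1 := by
      have h1 : (algebraMap k K ζ) ^ 6 = 1 := by
        rw [← map_pow, show ζ ^ 6 = (ζ ^ 3) ^ 2 by ring, hζ3, one_pow, map_one]
      rw [mul_pow, h1, neg_sq, one_mul]
      exact h.curve 0
    by_cases hcol : Col P.1.toSubring (algebraMap k K ζ * x 0) (- y 0) (x 1) (y 1)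
    · obtain ⟨w, hw, hcb⟩ := h.inv P hcol
      obtain ⟨u, hu, hcu⟩ := coordB_alpha hO hζ (hcb 0)
      have G1 : Gen P.1.toSubring (u * w 0) (w 1) := hw.unit_mul hu
      have G2 : Gen P.1.toSubring (u * w 0 - w 1) (w 1) := by
        have := Gen.add_mul hO G1 (P.1.toSubring.neg_mem P.1.toSubring.one_mem)
        rwa [neg_one_mul, ← sub_eq_add_neg] at this
      have ht : u * w 0 - w 1 ≠ 0 := (pt_pri S P G2).1
      obtain ⟨u', g, hu', hg, e⟩ := ord_form' h.smooth P hf ht (n := 3) (by norm_num) (by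
        intro C hC
        obtain ⟨n, hn⟩ := h3 C
        rw [iB_col hO (pd_dvk C) hC hx0' hx1 hB (h.curve 1) hcu (hcb 1) G1.1 hw.2.1 hcol
          (sub_ne_zero.1 ht)] at hn
        have h4 : ordS C.1.toSubring (u * w 0 - w 1) = ordS C.1.toSubring f + 3 * n := by
          exact_mod_cast hn
        refine ⟨-n, ?_⟩
        show ordS C.1.toSubring f - ordS C.1.toSubring (u * w 0 - w 1) = ((3 : ℕ) : ℤ) * -n
        rw [h4]
        push_cast
        ring)
      exact ⟨_, _, hP.ram u' g _ _ hu' hg e G2⟩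
    · obtain ⟨w0, hw0, hc0⟩ := h.cb P 0
      obtain ⟨w1, hw1, hc1⟩ := h.cb P 1
      obtain ⟨u, hu, hcu⟩ := coordB_alpha hO hζ hc0
      obtain ⟨u', g, hu', hg, e⟩ := ord_form h.smooth P hf (n := 3) (by norm_num) (by
        intro C hC
        obtain ⟨n, hn⟩ := h3 C
        rw [iB_not_col hO (pd_dvk C) hC hx0' hx1 hB (h.curve 1) hcu hc1
          (mem_mO_mul hw0 hu.mem) hw1 hcol] at hn
        have h4 : (0 : ℤ) = ordS C.1.toSubring f + 3 * n := by
          exact_mod_cast hn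
        refine ⟨-n, ?_⟩
        show ordS C.1.toSubring f = ((3 : ℕ) : ℤ) * -n
        push_cast
        linarith)
      obtain ⟨a, b, hab⟩ := (smooth_iff S).1 h.smooth P
      exact ⟨_, _, hP.et u' g hu' hg e a b hab⟩
  · obtain ⟨P, hP⟩ := hst Q
    exact ⟨P, hP.dom⟩

end C

end HB
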