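import Pool.Agent.HB.C.Tower
import Pool.Agent.HB.C.Ram2
import Pool.Agent.HB.C.HFun

/-!
# Project HB, part C, module Fin: the surface `X` exists

PROOF. `θ` with `θ² = -3`, `ζ = (-1+θ)/2`.  `exists_tower`: `K, S, x, y, U, V, U', V'`.
`thr_gamma`: `Thr` for `(ζ² U, -V)` over `(ζ² X, -Y)` and `(ζ U, -V)` over `(ζ X, -Y)` (the relation
`Psi` only involves `X'^3` and `X'^2 X`).  Points `s` from `thr_smul`.
`exists_hfun` for `(x_0,y_0),(x_1,y_1)` gives `f`, for `(ζ x_0,-y_0),(x_1,y_1)` gives `f'`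
(`x_0, x_1` are algebraically independent: `s, t` are polynomials in them; transcendence degree).
`exists_ram1` with `f` (`M = K`), `exists_ram2` with the image of `f'` in `L_1` (`M = L_1`).
On the last surface: `three01` by `exists_hfun` with `M = L_2` and `f = c³`, so
`ord f = 3 ord c`; `three21` in the same way.  `s_mor`: the coordinates are images of `U`, or of `U`
times a constant.
-/

set_option autoImplicit false

namespace HB

namespace C

theorem thr_gamma {K : Type} [Field K] {θ ζ U V X Y : K} (hζ : ζ ^ 3 = 1)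
    (h : Thr θ U V X Y) : Thr θ (ζ * U) (-V) (ζ * X) (-Y) := by
  obtain ⟨X', Y', ⟨a1, a2, a3, a4⟩, b1, b2, b3, b4⟩ := h
  have hz : ζ ≠ 0 := by
    rintro rfl
    simp at hζ
  refine ⟨ζ * X', -Y', ⟨?_, mul_ne_zero hz a2, ?_, ?_⟩, ?_, mul_ne_zero hz b2, ?_, ?_⟩
  · linear_combination a1 + (-U ^ 3) * hζ
  · linear_combination a3 + (3 * U ^ 2 * X' + U ^ 3) * hζ
  · linear_combination -a4 + (-3 * θ * U ^ 3 * Y' + V * U ^ 3) * hζ
  · linear_combination b1 + (-X' ^ 3) * hζ
  · linear_combination b3 + (3 * X' ^ 2 * X + X' ^ 3) * hζ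
  · linear_combination -b4 + (-3 * θ * X' ^ 3 * Y + Y' * X' ^ 3) * hζ

private theorem fin_indep {k K : Type} [Field k] [Field K] [Algebra k K] (S : Surf k K) {u v : K}
    (hs : S.s ∈ IntermediateField.adjoin k (Set.range ![u, v]))
    (ht : S.t ∈ IntermediateField.adjoin k (Set.range ![u, v])) :
    AlgebraicIndependent k ![u, v] := by
  have hle : IntermediateField.adjoin k ({S.s, S.t} : Set K) ≤
      IntermediateField.adjoin k (Set.range ![u, v]) := by
    rw [IntermediateField.adjoin_le_iff]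
    rintro z (rfl | rfl)
    · exact hs
    · exact ht
  letI : Algebra (IntermediateField.adjoin k ({S.s, S.t} : Set K))
      (IntermediateField.adjoin k (Set.range ![u, v])) :=
    (IntermediateField.inclusion hle).toRingHom.toAlgebra
  haveI : IsScalarTower (IntermediateField.adjoin k ({S.s, S.t} : Set K))
      (IntermediateField.adjoin k (Set.range ![u, v])) K := IsScalarTower.of_algebraMap_eq' rfl
  haveI := S.fin
  haveI : Algebra.IsAlgebraic (IntermediateField.adjoin k ({S.s, S.t} : Set K)) K :=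
    Algebra.IsAlgebraic.of_finite _ _
  haveI : Algebra.IsAlgebraic (IntermediateField.adjoin k (Set.range ![u, v])) K :=
    Algebra.IsAlgebraic.tower_top (K := IntermediateField.adjoin k ({S.s, S.t} : Set K)) _
  haveI : Algebra.IsAlgebraic (Algebra.adjoin k (Set.range ![u, v])) K :=
    IntermediateField.isAlgebraic_adjoin_iff_top.1 inferInstance
  have h := Algebra.IsAlgebraic.isTranscendenceBasis_of_le_trdeg_of_finite k ![u, v]
    S.indep.cardinalMk_le_trdeg
  exact h.1

private theorem thr_map {K L : Type} [Field K] [CharZero K] [Field L] [Algebra K L]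
    {θ U V X Y : K} (h : Thr θ U V X Y) :
    Thr (algebraMap K L θ) (algebraMap K L U) (algebraMap K L V) (algebraMap K L X)
      (algebraMap K L Y) := by
  obtain ⟨X', Y', h1, h2⟩ := h
  exact ⟨_, _, psi_map h1, psi_map h2⟩

private theorem dom_or {K L : Type} [Field K] [Field L] [Algebra K L] {O : Subring K}
    {O' : Subring L} (h : DomR O O') {a : K} (ha : a ∈ O ∨ a⁻¹ ∈ O) :
    algebraMap K L a ∈ O' ∨ (algebraMap K L a)⁻¹ ∈ O' := by
  rcases ha with ha | ha
  · exact Or.inl (h.le _ ha)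
  · right
    rw [← map_inv₀]
    exact h.le _ ha

private theorem mul_or {k K : Type} [Field k] [Field K] [Algebra k K] {O : Subring K}
    (hb : ∀ c : k, algebraMap k K c ∈ O) (c : k) {a : K} (ha : a ∈ O ∨ a⁻¹ ∈ O) :
    algebraMap k K c * a ∈ O ∨ (algebraMap k K c * a)⁻¹ ∈ O := by
  rcases ha with ha | ha
  · exact Or.inl (O.mul_mem (hb c) ha)
  · right
    rw [mul_inv, ← map_inv₀]
    exact O.mul_mem (hb _) ha

theorem exists_geo (k : Type) [Field k] [IsAlgClosed k] [CharZero k] :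
    ∃ (L : Type) (_ : Field L) (_ : Algebra k L) (X : Surf k L), X.Smooth ∧ Nonempty (Geo X) := by
  obtain ⟨θ, hθ⟩ := IsAlgClosed.exists_pow_nat_eq (-3 : k) (n := 2) (by norm_num)
  obtain ⟨ζ, hζdef⟩ : ∃ ζ : k, 2 * ζ = -1 + θ := ⟨(-1 + θ) / 2, by field_simp⟩
  have hζ : ζ ^ 2 + ζ + 1 = 0 := by
    have h4 : (4 : k) * (ζ ^ 2 + ζ + 1) = 0 := by
      linear_combination (2 * ζ - 1 + θ + 2) * hζdef + hθ
    have h40 : (4 : k) ≠ 0 := by norm_num
    exact (mul_eq_zero.1 h4).resolve_left h40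
  have hζ3 : ζ ^ 3 = 1 := by linear_combination (ζ - 1) * hζ
  have hζ0 : ζ ≠ 0 := by
    rintro rfl
    simp at hζ3
  obtain ⟨K, _, _, S, x, y, U, V, U', V', hst, hT, hT', hm, hm'⟩ := exists_tower k hθ
  haveI hcK : CharZero K := charZero_of_injective_algebraMap (algebraMap k K).injective
  have hθK : (algebraMap k K θ) ^ 2 = -3 := by
    rw [← map_pow, hθ, map_neg, map_ofNat]
  have hζK3 : (algebraMap k K ζ) ^ 3 = 1 := by rw [← map_pow, hζ3, map_one]
  have hζK23 : ((algebraMap k K ζ) ^ 2) ^ 3 = 1 := by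
    rw [← pow_mul, mul_comm, pow_mul, hζK3, one_pow]
  have hζK0 : algebraMap k K ζ ≠ 0 := (map_ne_zero _).2 hζ0
  -- independence
  have hx0m : ∀ u v : K, u ∈ IntermediateField.adjoin k (Set.range ![u, v]) := fun u v =>
    IntermediateField.subset_adjoin k _ ⟨0, rfl⟩
  have hx1m : ∀ u v : K, v ∈ IntermediateField.adjoin k (Set.range ![u, v]) := fun u v =>
    IntermediateField.subset_adjoin k _ ⟨1, rfl⟩
  have hind : AlgebraicIndependent k ![x 0, x 1] := by
    refine fin_indep S ?_ ?_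
    · rw [hst.hs]
      exact add_mem (hx0m _ _) (hx1m _ _)
    · rw [hst.ht]
      exact mul_mem (hx0m _ _) (hx1m _ _)
  have hind' : AlgebraicIndependent k ![algebraMap k K ζ * x 0, x 1] := by
    have h0 : x 0 ∈ IntermediateField.adjoin k (Set.range ![algebraMap k K ζ * x 0, x 1]) := by
      have h1 := mul_mem (IntermediateField.algebraMap_mem
        (IntermediateField.adjoin k (Set.range ![algebraMap k K ζ * x 0, x 1])) ζ⁻¹)
        (hx0m (algebraMap k K ζ * x 0) (x 1))
      rwa [map_inv₀, inv_mul_cancel_left₀ hζK0] at h1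
    refine fin_indep S ?_ ?_
    · rw [hst.hs]
      exact add_mem h0 (hx1m _ _)
    · rw [hst.ht]
      exact mul_mem h0 (hx1m _ _)
  -- twisted division points
  have hTa : Thr (algebraMap k K θ) ((algebraMap k K ζ) ^ 2 * U 0) (-V 0)
      ((algebraMap k K ζ * x 0) ^ 2) (-y 0) := by
    rw [mul_pow]
    exact thr_gamma hζK23 (hT 0)
  have hTa' : Thr (algebraMap k K θ) (algebraMap k K ζ * U' 0) (-V' 0)
      (((algebraMap k K ζ * x 0) ^ 2)⁻¹) (-y 0 / (algebraMap k K ζ * x 0) ^ 3) := by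
    have e1 : ((algebraMap k K ζ * x 0) ^ 2)⁻¹ = algebraMap k K ζ * (x 0 ^ 2)⁻¹ := by
      rw [mul_pow, mul_inv]
      congr 1
      refine inv_eq_of_mul_eq_one_right ?_
      rw [← pow_succ]
      exact hζK3
    have e2 : -y 0 / (algebraMap k K ζ * x 0) ^ 3 = -(y 0 / x 0 ^ 3) := by
      rw [mul_pow, hζK3, one_mul, neg_div]
    rw [e1, e2]
    exact thr_gamma hζK3 (hT' 0)
  have hcur0 : (-y 0) ^ 2 = (algebraMap k K ζ * x 0) ^ 6 + 1 := by
    have h6 : (algebraMap k K ζ) ^ 6 = 1 := by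
      rw [show 6 = 3 * 2 by norm_num, pow_mul, hζK3, one_pow]
    rw [neg_sq, hst.curve 0, mul_pow, h6, one_mul]
  -- the functions
  obtain ⟨a1, a2, a3⟩ := thr_smul hθK (hT 0)
  obtain ⟨a1', a2', a3'⟩ := thr_smul hθK (hT' 0)
  obtain ⟨b1, b2, b3⟩ := thr_smul hθK (hT 1)
  obtain ⟨b1', b2', b3'⟩ := thr_smul hθK (hT' 1)
  obtain ⟨c1, c2, c3⟩ := thr_smul hθK hTa
  obtain ⟨c1', c2', c3'⟩ := thr_smul hθK hTa'
  obtain ⟨f, hf0, hf⟩ := exists_hfun ζ hζ (hst.curve 0) (hst.curve 1) hind _ _ _ _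
    ⟨a2, a3⟩ ⟨a2', a3'⟩ ⟨b2, b3⟩ ⟨b2', b3'⟩
  obtain ⟨f', hf0', hf'⟩ := exists_hfun ζ hζ hcur0 (hst.curve 1) hind' _ _ _ _
    ⟨c2, c3⟩ ⟨c2', c3'⟩ ⟨b2, b3⟩ ⟨b2', b3'⟩
  -- the first cube root
  obtain ⟨L1, _, _, _, _, S1, r1, hr1, hhalf, hdom1⟩ := exists_ram1 hst hζ hf0 (by
    intro C
    have h := hf K C.1.toSubring (pd_dvk C)
    simpa only [Algebra.algebraMap_self_apply] using h)
  -- the second cube root
  have hf1 : algebraMap K L1 f' ≠ 0 := (map_ne_zero _).2 hf0'
  obtain ⟨L2, _, _, _, _, S2, r2, hr2, hsm, hs2, ht2, hdom2⟩ := exists_ram2 hhalf hζ hf1 (by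
    intro C
    have h := hf' L1 C.1.toSubring (pd_dvk C)
    rw [map_mul, map_neg, ← IsScalarTower.algebraMap_apply] at h
    exact h)
  letI : Algebra K L2 := ((algebraMap L1 L2).comp (algebraMap K L1)).toAlgebra
  haveI : IsScalarTower K L1 L2 := IsScalarTower.of_algebraMap_eq' rfl
  haveI : IsScalarTower k K L2 := by
    refine IsScalarTower.of_algebraMap_eq' ?_
    rw [IsScalarTower.algebraMap_eq K L1 L2, RingHom.comp_assoc, ← IsScalarTower.algebraMap_eq k K L1,
      ← IsScalarTower.algebraMap_eq k L1 L2]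
  haveI hcL : CharZero L2 := charZero_of_injective_algebraMap (algebraMap k L2).injective
  have eK : ∀ z : K, algebraMap K L2 z = algebraMap L1 L2 (algebraMap K L1 z) := fun z => rfl
  have ek : ∀ z : k, algebraMap K L2 (algebraMap k K z) = algebraMap k L2 z := fun z =>
    (IsScalarTower.algebraMap_apply k K L2 z).symm
  have hθL : (algebraMap k L2 θ) ^ 2 = -3 := by
    rw [← map_pow, hθ, map_neg, map_ofNat]
  have hdom : ∀ (P : S2.Pt) (z : K), (∀ Q : S.Pt, z ∈ Q.1.toSubring ∨ z⁻¹ ∈ Q.1.toSubring) →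
      algebraMap K L2 z ∈ P.1.toSubring ∨ (algebraMap K L2 z)⁻¹ ∈ P.1.toSubring := by
    intro P z hz
    obtain ⟨P1, h1⟩ := hdom2 P
    obtain ⟨P0, h0⟩ := hdom1 P1
    rw [eK]
    exact dom_or h1 (dom_or h0 (hz P0))
  let xx : Fin 3 → L2 := ![algebraMap K L2 (x 0), algebraMap K L2 (x 1),
    algebraMap k L2 ζ * algebraMap K L2 (x 0)]
  let yy : Fin 3 → L2 := ![algebraMap K L2 (y 0), algebraMap K L2 (y 1), -algebraMap K L2 (y 0)]
  let UU : Fin 3 → L2 := ![algebraMap K L2 (U 0), algebraMap K L2 (U 1),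
    algebraMap k L2 (ζ ^ 2) * algebraMap K L2 (U 0)]
  let VV : Fin 3 → L2 := ![algebraMap K L2 (V 0), algebraMap K L2 (V 1),
    algebraMap K L2 (-V 0)]
  let UU' : Fin 3 → L2 := ![algebraMap K L2 (U' 0), algebraMap K L2 (U' 1),
    algebraMap k L2 ζ * algebraMap K L2 (U' 0)]
  let VV' : Fin 3 → L2 := ![algebraMap K L2 (V' 0), algebraMap K L2 (V' 1),
    algebraMap K L2 (-V' 0)]
  have hTT : ∀ a, Thr (algebraMap k L2 θ) (UU a) (VV a) (xx a ^ 2) (yy a) := by
    intro a
    fin_cases a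
    · have h := thr_map (L := L2) (hT 0)
      rw [ek, map_pow] at h
      exact h
    · have h := thr_map (L := L2) (hT 1)
      rw [ek, map_pow] at h
      exact h
    · have h := thr_map (L := L2) hTa
      rw [ek, map_pow, map_mul, map_mul, ek, map_neg _ (y 0), map_pow, ek, ← map_pow] at h
      exact h
  have hTT' : ∀ a, Thr (algebraMap k L2 θ) (UU' a) (VV' a) ((xx a ^ 2)⁻¹) (yy a / xx a ^ 3) := by
    intro a
    fin_cases a
    · have h := thr_map (L := L2) (hT' 0)
      rw [ek, map_inv₀, map_div₀, map_pow, map_pow] at h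
      exact h
    · have h := thr_map (L := L2) (hT' 1)
      rw [ek, map_inv₀, map_div₀, map_pow, map_pow] at h
      exact h
    · have h := thr_map (L := L2) hTa'
      rw [ek, map_inv₀, map_div₀, map_pow, map_pow, map_mul, map_mul, ek, map_neg _ (y 0)] at h
      exact h
  choose m1 m2 m3 using fun a => thr_smul hθL (hTT a)
  choose n1 n2 n3 using fun a => thr_smul hθL (hTT' a)
  have hUU : ∀ (P : S2.Pt) (a : Fin 3), UU a ∈ P.1.toSubring ∨ (UU a)⁻¹ ∈ P.1.toSubring := by
    intro P a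
    fin_cases a
    · exact hdom P (U 0) (hm 0)
    · exact hdom P (U 1) (hm 1)
    · exact mul_or (pt_loc S2 P).base _ (hdom P (U 0) (hm 0))
  have hUU' : ∀ (P : S2.Pt) (a : Fin 3), UU' a ∈ P.1.toSubring ∨ (UU' a)⁻¹ ∈ P.1.toSubring := by
    intro P a
    fin_cases a
    · exact hdom P (U' 0) (hm' 0)
    · exact hdom P (U' 1) (hm' 1)
    · exact mul_or (pt_loc S2 P).base _ (hdom P (U' 0) (hm' 0))
  refine ⟨L2, inferInstance, inferInstance, S2, hsm, ⟨?_⟩⟩
  exact
    { ζ := ζ
      hζ := hζ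
      x := xx
      y := yy
      curve := by
        intro a
        fin_cases a
        · show (algebraMap K L2 (y 0)) ^ 2 = (algebraMap K L2 (x 0)) ^ 6 + 1
          rw [← map_pow, hst.curve 0, map_add, map_pow, map_one]
        · show (algebraMap K L2 (y 1)) ^ 2 = (algebraMap K L2 (x 1)) ^ 6 + 1
          rw [← map_pow, hst.curve 1, map_add, map_pow, map_one]
        · show (-algebraMap K L2 (y 0)) ^ 2 = (algebraMap k L2 ζ * algebraMap K L2 (x 0)) ^ 6 + 1
          rw [← map_neg, ← ek, ← map_mul, ← map_pow, hcur0, map_add, map_pow, map_one]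
      x2 := rfl
      y2 := rfl
      hs := by
        rw [hs2, hhalf.hs, map_add]
        rfl
      ht := by
        rw [ht2, hhalf.ht, map_mul]
        rfl
      s := fun a => WeierstrassCurve.Affine.Point.some _ _ (m1 a)
      s' := fun a => WeierstrassCurve.Affine.Point.some _ _ (n1 a)
      s_eq := fun a => ⟨m2 a, m3 a⟩
      s'_eq := fun a => ⟨n2 a, n3 a⟩
      s_mor := by
        intro a P u v h hh
        rcases hh with hh | hh
        · have h1 : UU a = u := (WeierstrassCurve.Affine.Point.some.inj hh).1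
          rw [← h1]
          exact hUU P a
        · have h1 : UU' a = u := (WeierstrassCurve.Affine.Point.some.inj hh).1
          rw [← h1]
          exact hUU' P a
      three01 := by
        intro C
        obtain ⟨n, hn⟩ := hf L2 C.1.toSubring (pd_dvk C)
        refine ⟨ordS C.1.toSubring (algebraMap L1 L2 r1) + n, ?_⟩
        have e1 : algebraMap K L2 f = algebraMap L1 L2 r1 ^ 3 := by
          rw [eK, ← hr1, map_pow]
        rw [e1, (pd_dvk C).ord_pow] at hn
        refine hn.trans ?_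
        congr 1
        push_cast
        ring
      three21 := by
        intro C
        obtain ⟨n, hn⟩ := hf' L2 C.1.toSubring (pd_dvk C)
        refine ⟨ordS C.1.toSubring r2 + n, ?_⟩
        have e1 : algebraMap K L2 f' = r2 ^ 3 := by
          rw [eK, ← hr2]
        rw [e1, (pd_dvk C).ord_pow, map_mul, ek, map_neg] at hn
        refine hn.trans ?_
        congr 1
        push_cast
        ring }

end C

end HB
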