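import Pool.Agent.HB.C.Loc

/-!
# Project HB, part C: Kummer extensions, definitions

`Kum k K L p f c` : `L = K(c)` with `c ^ p = f`, and the automorphism `c ↦ ζ c` exists.
`LocForm p O f` : at the local ring `O` the element `f` is `unit * g ^ p` or `unit * g ^ p * t`
with `t` a part of a system of two generators of the maximal ideal.
`StepAt O O' p f c` : what the Kummer step gives for the local ring `O'` above `O`.
-/

set_option autoImplicit false

namespace HB

namespace C

universe u

/-- `L = K(c)`, `c ^ p = f`, with the automorphism `c ↦ ζ c`. -/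
structure Kum (k K L : Type u) [Field k] [Field K] [Field L] [Algebra k K] [Algebra K L]
    (p : ℕ) (f : K) (c : L) : Prop where
  pow : c ^ p = algebraMap K L f
  span : ∀ z : L, ∃ a : Fin p → K, z = ∑ i, algebraMap K L (a i) * c ^ (i : ℕ)
  aut : ∃ (ζ : k) (σ : L →ₐ[K] L), IsPrimitiveRoot ζ p ∧
    σ c = algebraMap K L (algebraMap k K ζ) * c

section

variable {K : Type u} [Field K]

/-- `f` is a unit times a `p`-th power. -/
def EtForm (p : ℕ) (O : Subring K) (f : K) : Prop := ∃ u g, Un O u ∧ g ≠ 0 ∧ f = u * g ^ p

/-- `f` is a unit times a `p`-th power times a regular parameter. -/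
def RamForm (p : ℕ) (O : Subring K) (f : K) : Prop :=
  ∃ u g t t', Un O u ∧ g ≠ 0 ∧ Gen O t t' ∧ f = u * g ^ p * t

/-- The local form of `f` which is needed for the Kummer step. -/
def LocForm (p : ℕ) (O : Subring K) (f : K) : Prop := EtForm p O f ∨ RamForm p O f

variable {L : Type u} [Field L] [Algebra K L]

/-- What the Kummer step `c ^ p = f` gives for the local ring `O'` above the local ring `O`. -/
structure StepAt (p : ℕ) (O : Subring K) (O' : Subring L) (f : K) (c : L) : Prop where
  dom : DomR O O'
  et : ∀ u g, Un O u → g ≠ 0 → f = u * g ^ p → ∀ x y, Gen O x y →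
    Gen O' (algebraMap K L x) (algebraMap K L y)
  ram : ∀ u g t t', Un O u → g ≠ 0 → f = u * g ^ p * t → Gen O t t' →
    Gen O' (c / algebraMap K L g) (algebraMap K L t')

end

end C

end HB
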