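import Pool.Agent.HB.C.Kum

/-!
# Project HB, part C, module KumAlg: integral elements of a Kummer extension

STATEMENT. `L = K(c)`, `c ^ p = f ≠ 0`, `O` a local ring of `K` containing `k`, integrally closed.
If `z : L` is integral over `O` then `z = Σ a_i c ^ i` with `a_i ^ p * f ^ i ∈ O` for all `i`.

PROOF. Write `z = Σ a_i c ^ i` (`Kum.span`) and let `ζ, σ` be as in `Kum.aut` (with `σ c = ζ c`).
`σ ^ j` (iterate) is a `K`-algebra endomorphism with `(σ ^ j) c = ζ ^ j c`, so
`(σ ^ j) z = Σ_i a_i ζ ^ (i j) c ^ i`, and `(σ ^ j) z` is integral over `O` (the same polynomial;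
it has coefficients in `K`).  Hence, for fixed `m < p`,
`Σ_{j < p} ζ ^ (- m j) (σ ^ j) z = p a_m c ^ m`
(orthogonality: `IsPrimitiveRoot.geom_sum_eq_zero`, `Σ_{j<p} (ζ^(i-m))^j = p` or `0`; use
`ζ ^ (p - m)` in place of `ζ ^ (-m)` to stay with natural exponents).  The left-hand side is
integral over `O` because `ζ` and `p⁻¹` are in `k ⊆ O` (elements of `O` are integral, and integral
elements are closed under sums and products: `IsIntegral.add`, `IsIntegral.mul`, or
`RingHom.IsIntegralElem.add`, `RingHom.IsIntegralElem.mul`, ...).  So `a_m c ^ m` is integral over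
`O`, hence so is its `p`-th power, which is the image of `a_m ^ p * f ^ m : K`.  As `K → L` is
injective this element of `K` is integral over `O` (the same polynomial), so it is in `O` by
`LocRing.ic`.
-/

set_option autoImplicit false

namespace HB

namespace C

universe u

variable {k K L : Type u} [Field k] [Field K] [Field L] [Algebra k K] [Algebra K L] [CharZero k]

private lemma int_const {O : Subring K} (hO : LocRing k O) (d : k) :
    IntOver (L := L) O (algebraMap K L (algebraMap k K d)) := by
  have : algebraMap K L (algebraMap k K d)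
      = ((algebraMap K L).comp O.subtype) ⟨algebraMap k K d, hO.base d⟩ := rfl
  unfold IntOver
  rw [this]
  exact RingHom.isIntegralElem_map _

private lemma int_hom {O : Subring K} (τ : L →ₐ[K] L) {z : L} (hz : IntOver O z) :
    IntOver O (τ z) := by
  obtain ⟨P, hP, e⟩ := hz
  refine ⟨P, hP, ?_⟩
  have h1 := congrArg (τ : L →+* L) e
  rw [map_zero, Polynomial.hom_eval₂] at h1
  have h2 : (τ : L →+* L).comp ((algebraMap K L).comp O.subtype)
      = (algebraMap K L).comp O.subtype := by
    ext x
    simp
  rw [h2] at h1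
  exact h1

private lemma int_mul {O : Subring K} {x y : L} (hx : IntOver O x) (hy : IntOver O y) :
    IntOver O (x * y) := RingHom.IsIntegralElem.mul _ hx hy

private lemma int_add {O : Subring K} {x y : L} (hx : IntOver O x) (hy : IntOver O y) :
    IntOver O (x + y) := RingHom.IsIntegralElem.add _ hx hy

private lemma int_zero {O : Subring K} : IntOver (L := L) O 0 := RingHom.isIntegralElem_zero _

private lemma int_one {O : Subring K} : IntOver (L := L) O 1 := RingHom.isIntegralElem_one _

private lemma int_sum {O : Subring K} {ι : Type*} (s : Finset ι) (g : ι → L)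
    (hg : ∀ i ∈ s, IntOver O (g i)) : IntOver O (∑ i ∈ s, g i) := by
  classical
  induction s using Finset.induction_on with
  | empty => rw [Finset.sum_empty]; exact int_zero
  | insert a s ha ih =>
    rw [Finset.sum_insert ha]
    exact int_add (hg a (Finset.mem_insert_self a s))
      (ih fun i hi => hg i (Finset.mem_insert_of_mem hi))

private lemma int_pow {O : Subring K} {x : L} (hx : IntOver O x) (n : ℕ) :
    IntOver O (x ^ n) := by
  induction n with
  | zero => rw [pow_zero]; exact int_one
  | succ n ih => rw [pow_succ]; exact int_mul ih hx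

private lemma int_down {O : Subring K} (hO : LocRing k O) {y : K}
    (hy : IntOver O (algebraMap K L y)) : y ∈ O := by
  apply hO.ic
  obtain ⟨P, hP, e⟩ := hy
  refine ⟨P, hP, ?_⟩
  apply (algebraMap K L).injective
  rw [Polynomial.hom_eval₂, map_zero]
  exact e

private lemma pow_aut {p : ℕ} {c : L} {ζ : k} {σ : L →ₐ[K] L}
    (hσ : σ c = algebraMap K L (algebraMap k K ζ) * c) (j : ℕ) :
    (σ ^ j) c = algebraMap K L (algebraMap k K ζ) ^ j * c := by
  induction j with
  | zero => simp
  | succ j ih =>
    rw [pow_succ, AlgHom.mul_apply, hσ, map_mul, ih, AlgHom.commutes]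
    ring

theorem kum_int {p : ℕ} (hp : p ≠ 0) {f : K} {c : L} (h : Kum k K L p f c) {O : Subring K}
    (hO : LocRing k O) {z : L} (hz : IntOver O z) :
    ∃ a : Fin p → K, z = ∑ i, algebraMap K L (a i) * c ^ (i : ℕ) ∧
      ∀ i, a i ^ p * f ^ (i : ℕ) ∈ O := by
  obtain ⟨a, ha⟩ := h.span z
  obtain ⟨ζ, σ, hζ, hσ⟩ := h.aut
  refine ⟨a, ha, fun m => ?_⟩
  set Z : L := algebraMap K L (algebraMap k K ζ) with hZ
  have hZp : IsPrimitiveRoot Z p :=
    (hζ.map_of_injective (algebraMap k K).injective).map_of_injective (algebraMap K L).injective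
  have hm : (m : ℕ) < p := m.2
  -- the projection
  have key : ∑ j ∈ Finset.range p, Z ^ (j * (p - (m : ℕ))) * (σ ^ j) z
      = (p : L) * (algebraMap K L (a m) * c ^ (m : ℕ)) := by
    have h1 : ∀ j ∈ Finset.range p, Z ^ (j * (p - (m : ℕ))) * (σ ^ j) z
        = ∑ i : Fin p, (algebraMap K L (a i) * c ^ (i : ℕ)) * (Z ^ (p - (m : ℕ) + (i : ℕ))) ^ j := by
      intro j _
      rw [ha, map_sum, Finset.mul_sum]
      refine Finset.sum_congr rfl fun i _ => ?_
      rw [map_mul, map_pow, AlgHom.commutes, pow_aut (p := p) hσ, ← hZ]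
      ring
    rw [Finset.sum_congr rfl h1, Finset.sum_comm]
    have h2 : ∀ i : Fin p, ∑ j ∈ Finset.range p,
        (algebraMap K L (a i) * c ^ (i : ℕ)) * (Z ^ (p - (m : ℕ) + (i : ℕ))) ^ j
        = if i = m then (p : L) * (algebraMap K L (a m) * c ^ (m : ℕ)) else 0 := by
      intro i
      rw [← Finset.mul_sum]
      by_cases him : i = m
      · subst him
        rw [if_pos rfl]
        have h3 : p - (i : ℕ) + (i : ℕ) = p := by omega
        rw [h3, hZp.pow_eq_one]
        simp
        ring
      · rw [if_neg him]
        have h4 : Z ^ (p - (m : ℕ) + (i : ℕ)) ≠ 1 := by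
          intro h5
          have h6 := (hZp.pow_eq_one_iff_dvd _).1 h5
          have hi : (i : ℕ) < p := i.2
          have h7 : (i : ℕ) ≠ (m : ℕ) := fun h => him (Fin.ext h)
          obtain ⟨q, hq⟩ := h6
          have h8 : q < 2 := by
            by_contra h9
            have : p * 2 ≤ p * q := Nat.mul_le_mul_left p (by omega)
            omega
          interval_cases q
          · omega
          · omega
        have h5 := geom_sum_mul (Z ^ (p - (m : ℕ) + (i : ℕ))) p
        rw [← pow_mul, mul_comm _ p, pow_mul, hZp.pow_eq_one, one_pow, sub_self] at h5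
        rcases mul_eq_zero.1 h5 with h6 | h6
        · rw [h6, mul_zero]
        · exact absurd (sub_eq_zero.1 h6) h4
    rw [Finset.sum_congr rfl fun i _ => h2 i]
    simp
  have hint : IntOver O ((p : L) * (algebraMap K L (a m) * c ^ (m : ℕ))) := by
    rw [← key]
    refine int_sum _ _ fun j _ => int_mul ?_ (int_hom _ hz)
    exact int_pow (int_const hO ζ) _
  have hp' : (p : k) ≠ 0 := by exact_mod_cast hp
  have hint2 : IntOver O (algebraMap K L (a m) * c ^ (m : ℕ)) := by
    have h1 := int_mul (int_const (L := L) hO ((p : k)⁻¹)) hint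
    have h2 : algebraMap K L (algebraMap k K (p : k)⁻¹)
        * ((p : L) * (algebraMap K L (a m) * c ^ (m : ℕ)))
        = algebraMap K L (a m) * c ^ (m : ℕ) := by
      have h3 : (p : L) = algebraMap K L (algebraMap k K (p : k)) := by simp
      rw [h3, ← mul_assoc, ← map_mul, ← map_mul, inv_mul_cancel₀ hp', map_one, map_one, one_mul]
    rwa [h2] at h1
  have hint3 := int_pow hint2 p
  apply int_down (L := L) hO
  have h4 : algebraMap K L (a m ^ p * f ^ (m : ℕ)) = (algebraMap K L (a m) * c ^ (m : ℕ)) ^ p := by
    rw [map_mul, map_pow, map_pow, ← h.pow]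
    ring
  rw [h4]
  exact hint3

end C

end HB
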