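import Pool.Agent.HB.C.KumAlg

/-!
# Project HB, part C, module KumEt: the unramified case of the Kummer step, locally

STATEMENT. `L = K(c)`, `c ^ p = f = u g ^ p`, `u` a unit of `O`; `O'` dominates `O` and its
maximal ideal is generated by elements integral over `O`; both have residue field `k` and are
integrally closed.  If `x, y` generate the maximal ideal of `O` then they generate the maximal
ideal of `O'`.

PROOF. Let `I = {b x + c' y | b, c' ∈ O'}` (an ideal of `O'`, contained in `mO O'`; it contains the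
image of `mO O` by `Gen`).  By `GenInt` it is enough to show `w ∈ I` for `w ∈ mO O'` integral
over `O`.  Put `ε = c / g`, `ε ^ p = u` (image), so `ε ∈ O'` by `LocRing.pow_mem`.
By `kum_int`, `w = Σ a_i c ^ i = Σ b_i ε ^ i` with `b_i = a_i g ^ i` and
`b_i ^ p u ^ i = a_i ^ p f ^ i ∈ O`, so `b_i ^ p ∈ O` (`u` unit) and `b_i ∈ O` (`pow_mem`).
Let `β_i : k` be the residue of `b_i` (`LocRing.res`), `e : k` the residue of `ε` in `O'`.
(1) `e ≠ 0` as `ε` is a unit of `O'` (`ε ^ p = u` is a unit, `un_pow`), and `u - e ^ p ∈ mO O`: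
`u - e ^ p = ε ^ p - e ^ p ∈ mO O'` (as `ε - e` divides it), then `DomR.mO_iff`.
(2) `ε - e ∈ I`: `(ε - e) * (Σ_{j<p} ε ^ j e ^ (p-1-j)) = ε ^ p - e ^ p = u - e ^ p ∈ I`
(`Commute.geom_sum₂_mul` / `mul_geom_sum₂`...) and the second factor is a unit of `O'`, because it is
`≡ p e ^ (p-1) ≠ 0` modulo `mO O'` (char 0; `un_of_res`).
(3) `w - Σ β_i e ^ i = Σ (b_i - β_i) ε ^ i + Σ β_i (ε ^ i - e ^ i) ∈ I`.
(4) `r := Σ β_i e ^ i : k` is in `mO O'` (difference of `w` and an element of `I`), so `r = 0` by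
`const_zero`; hence `w ∈ I`.
(Only the tower `k → K → L` with `IsScalarTower` is used.)
-/

set_option autoImplicit false

namespace HB

namespace C

universe u

variable {k K L : Type u} [Field k] [Field K] [Field L] [Algebra k K] [Algebra K L] [Algebra k L]
  [IsScalarTower k K L] [CharZero k]

/-- Congruence of powers modulo the non-units. -/
private lemma pow_sub_mem {O' : Subring L} {a : L} {b : L} (ha : a ∈ O')
    (hb : b ∈ O') (h : a - b ∈ mO O') (n : ℕ) : a ^ n - b ^ n ∈ mO O' := by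
  obtain ⟨c, hc, e⟩ : ∃ c ∈ O', a ^ n - b ^ n = (a - b) * c := by
    refine ⟨∑ i ∈ Finset.range n, a ^ i * b ^ (n - 1 - i), ?_, ?_⟩
    · exact O'.sum_mem fun i _ => O'.mul_mem (O'.pow_mem ha _) (O'.pow_mem hb _)
    · rw [mul_comm, (Commute.all a b).geom_sum₂_mul]
  rw [e]
  exact mul_mem_mO h hc

theorem kum_et {p : ℕ} (hp : p ≠ 0) {f : K} {c : L} (h : Kum k K L p f c) {O : Subring K}
    {O' : Subring L} (hO : LocRing k O) (hO' : LocRing k O') (hd : DomR O O')
    (hg : GenInt O O') {u g : K} (hu : Un O u) (hg0 : g ≠ 0) (hf : f = u * g ^ p) {x y : K}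
    (hxy : Gen O x y) : Gen O' (algebraMap K L x) (algebraMap K L y) := by
  -- the ideal `I`
  let I : Set L := {z | ∃ b ∈ O', ∃ d ∈ O', z = b * algebraMap K L x + d * algebraMap K L y}
  have Iadd : ∀ a ∈ I, ∀ b ∈ I, a + b ∈ I := by
    rintro a ⟨b1, hb1, d1, hd1, e1⟩ b ⟨b2, hb2, d2, hd2, e2⟩
    exact ⟨b1 + b2, O'.add_mem hb1 hb2, d1 + d2, O'.add_mem hd1 hd2, by rw [e1, e2]; ring⟩
  have Imul : ∀ a ∈ O', ∀ b ∈ I, a * b ∈ I := by
    rintro a ha b ⟨b2, hb2, d2, hd2, e2⟩
    exact ⟨a * b2, O'.mul_mem ha hb2, a * d2, O'.mul_mem ha hd2, by rw [e2]; ring⟩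
  have IleM : ∀ a ∈ I, a ∈ mO O' := by
    rintro a ⟨b2, hb2, d2, hd2, e2⟩
    rw [e2]
    exact hO'.add _ (mem_mO_mul (hd.max _ hxy.1) hb2) _ (mem_mO_mul (hd.max _ hxy.2.1) hd2)
  have IO : ∀ a ∈ mO O, algebraMap K L a ∈ I := by
    intro a ha
    obtain ⟨b, hb, d, hd', e⟩ := hxy.2.2 a ha
    exact ⟨algebraMap K L b, hd.le _ hb, algebraMap K L d, hd.le _ hd', by
      rw [e, map_add, map_mul, map_mul]⟩
  have I0 : (0 : L) ∈ I := ⟨0, O'.zero_mem, 0, O'.zero_mem, by ring⟩
  have Isum : ∀ (n : ℕ) (F : Fin n → L), (∀ i, F i ∈ I) → ∑ i, F i ∈ I := by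
    intro n F hF
    exact Finset.sum_induction F (· ∈ I) (fun a b ha hb => Iadd a ha b hb) I0 fun i _ => hF i
  have hconst : ∀ a : k, algebraMap K L (algebraMap k K a) = algebraMap k L a := fun a =>
    (IsScalarTower.algebraMap_apply k K L a).symm
  refine ⟨hd.max _ hxy.1, hd.max _ hxy.2.1, ?_⟩
  suffices key : ∀ w ∈ mO O', IntOver O w → w ∈ I by
    intro z hz
    obtain ⟨w, hw, hwi, b, hb, e⟩ := hg z hz
    have := Imul b hb w (key w hw hwi)
    rw [← e] at this
    exact this
  intro w hw hwi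
  have hgL : algebraMap K L g ≠ 0 := (map_ne_zero _).2 hg0
  set ε : L := c / algebraMap K L g with hε
  have hεp : ε ^ p = algebraMap K L u := by
    rw [hε, div_pow, h.pow, hf, map_mul, map_pow]
    field_simp
  have hεO : ε ∈ O' := hO'.pow_mem hp (by rw [hεp]; exact hd.le _ hu.mem)
  have hεu : Un O' ε := hO'.un_pow hp (by rw [hεp]; exact hd.un hu)
  obtain ⟨a, hwa, ha⟩ := kum_int hp h hO hwi
  -- the coefficients `b_i`
  let b : Fin p → K := fun i => a i * g ^ (i : ℕ)
  have hb : ∀ i, b i ∈ O := by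
    intro i
    apply hO.pow_mem hp
    have h1 : b i ^ p = (a i ^ p * f ^ (i : ℕ)) * (u⁻¹) ^ (i : ℕ) := by
      have hu0 : u ≠ 0 := hu.ne
      simp only [b, hf]
      rw [mul_pow, mul_pow, ← pow_mul, ← pow_mul, mul_comm (i : ℕ) p, inv_pow]
      field_simp
    rw [h1]
    exact O.mul_mem (ha i) (O.pow_mem hu.inv.mem _)
  have hwb : w = ∑ i, algebraMap K L (b i) * ε ^ (i : ℕ) := by
    rw [hwa]
    refine Finset.sum_congr rfl fun i _ => ?_
    simp only [b, hε]
    rw [map_mul, map_pow, div_pow]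
    field_simp
  choose β hβ using fun i => hO.res (b i) (hb i)
  obtain ⟨e, he⟩ := hO'.res ε hεO
  have he0 : e ≠ 0 := by
    rintro rfl
    rw [map_zero, sub_zero] at he
    exact hεu.not_mem he
  -- (1)
  have h1 : u - algebraMap k K e ^ p ∈ mO O := by
    rw [← hd.mO_iff (O.sub_mem hu.mem (O.pow_mem (hO.base e) p)), map_sub, map_pow, hconst,
      ← hεp]
    exact pow_sub_mem hεO (hO'.base e) he p
  -- (2)
  have h2 : ε - algebraMap k L e ∈ I := by
    set S : L := ∑ i ∈ Finset.range p, ε ^ i * (algebraMap k L e) ^ (p - 1 - i) with hS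
    have hS1 : S * (ε - algebraMap k L e) = ε ^ p - (algebraMap k L e) ^ p :=
      (Commute.all _ _).geom_sum₂_mul p
    have hSu : Un O' S := by
      have h3 : S - algebraMap k L ((p : k) * e ^ (p - 1)) ∈ mO O' := by
        have h4 : S - algebraMap k L ((p : k) * e ^ (p - 1)) =
            ∑ i ∈ Finset.range p, (ε ^ i - (algebraMap k L e) ^ i) *
              (algebraMap k L e) ^ (p - 1 - i) := by
          have h5 : ∑ i ∈ Finset.range p, (ε ^ i - (algebraMap k L e) ^ i) *
              (algebraMap k L e) ^ (p - 1 - i) = S - ∑ i ∈ Finset.range p,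
                (algebraMap k L e) ^ i * (algebraMap k L e) ^ (p - 1 - i) := by
            rw [hS, ← Finset.sum_sub_distrib]
            exact Finset.sum_congr rfl fun i _ => by ring
          rw [h5]
          congr 1
          have h6 : ∀ i ∈ Finset.range p, (algebraMap k L e) ^ i *
              (algebraMap k L e) ^ (p - 1 - i) = (algebraMap k L e) ^ (p - 1) := by
            intro i hi
            rw [← pow_add]
            congr 1
            have := Finset.mem_range.1 hi
            omega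
          rw [Finset.sum_congr rfl h6, Finset.sum_const, Finset.card_range, nsmul_eq_mul,
            map_mul, map_pow, map_natCast]
        rw [h4]
        exact hO'.sum _ _ fun i _ => mul_mem_mO (pow_sub_mem hεO (hO'.base e) he i)
          (O'.pow_mem (hO'.base e) _)
      exact hO'.un_of_res h3 (mul_ne_zero (Nat.cast_ne_zero.2 hp) (pow_ne_zero _ he0))
    have h7 : S * (ε - algebraMap k L e) ∈ I := by
      rw [hS1, hεp, ← hconst, ← map_pow, ← map_sub]
      exact IO _ h1
    have h8 := Imul S⁻¹ hSu.inv.mem _ h7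
    rwa [← mul_assoc, inv_mul_cancel₀ hSu.ne, one_mul] at h8
  have h2' : ∀ n : ℕ, ε ^ n - (algebraMap k L e) ^ n ∈ I := by
    intro n
    rw [← (Commute.all ε (algebraMap k L e)).geom_sum₂_mul n]
    exact Imul _ (O'.sum_mem fun i _ => O'.mul_mem (O'.pow_mem hεO _)
      (O'.pow_mem (hO'.base e) _)) _ h2
  -- (3)
  have h3 : w - algebraMap k L (∑ i, β i * e ^ (i : ℕ)) ∈ I := by
    have h4 : w - algebraMap k L (∑ i, β i * e ^ (i : ℕ)) =
        ∑ i : Fin p, (ε ^ (i : ℕ) * algebraMap K L (b i - algebraMap k K (β i)) +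
          algebraMap k L (β i) * (ε ^ (i : ℕ) - (algebraMap k L e) ^ (i : ℕ))) := by
      rw [hwb, map_sum, ← Finset.sum_sub_distrib]
      refine Finset.sum_congr rfl fun i _ => ?_
      rw [map_sub, hconst, map_mul (algebraMap k L), map_pow (algebraMap k L)]
      ring
    rw [h4]
    refine Isum _ _ fun i => Iadd _ (Imul _ (O'.pow_mem hεO _) _ (IO _ (hβ i))) _
      (Imul _ (hO'.base _) _ (h2' _))
  -- (4)
  have h4 : (∑ i, β i * e ^ (i : ℕ)) = 0 := by
    apply hO'.const_zero
    have := hO'.sub hw (IleM _ h3)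
    rwa [sub_sub_cancel] at this
  rw [h4, map_zero, sub_zero] at h3
  exact h3

end C

end HB
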