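import Pool.Agent.HB.Surf

/-!
# Project HB, part C (existence of the surface `X`): local subrings of a field, elementary API

`mO O` : the non-units of the subring `O` of a field, `Un O u` : `u` is a unit of `O`,
`Gen O x y` : the non-units of `O` are the ideal generated by `x` and `y`,
`LocRing k O` : `O` is a local ring containing `k`, with residue field `k`, integrally closed,
`DomR O O'` : `O'` dominates `O`, `GenInt O O'` : the maximal ideal of `O'` is generated by elements
which are integral over `O`.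
-/

set_option autoImplicit false

namespace HB

namespace C

universe u

section Defs

variable {K : Type u} [Field K]

/-- The non-units of a subring of a field. -/
def mO (O : Subring K) : Set K := {a | a ∈ O ∧ (a = 0 ∨ a⁻¹ ∉ O)}

/-- The units of a subring of a field. -/
def Un (O : Subring K) (u : K) : Prop := u ≠ 0 ∧ u ∈ O ∧ u⁻¹ ∈ O

/-- `x` and `y` generate the maximal ideal of `O`. -/
def Gen (O : Subring K) (x y : K) : Prop :=
  x ∈ mO O ∧ y ∈ mO O ∧ ∀ a ∈ mO O, ∃ b ∈ O, ∃ c ∈ O, a = b * x + c * y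

/-- `t` is a prime element of `O`. -/
def Pri (O : Subring K) (t : K) : Prop :=
  t ≠ 0 ∧ t ∈ mO O ∧ ∀ a ∈ O, ∀ b ∈ O, ∀ c ∈ O, a * b = t * c →
    (∃ d ∈ O, a = t * d) ∨ ∃ d ∈ O, b = t * d

/-- `O` is a local ring containing `k`, with residue field `k`, and integrally closed. -/
structure LocRing (k : Type u) [Field k] [Algebra k K] (O : Subring K) : Prop where
  base : ∀ c : k, algebraMap k K c ∈ O
  add : ∀ a ∈ mO O, ∀ b ∈ mO O, a + b ∈ mO O
  res : ∀ a ∈ O, ∃ c : k, a - algebraMap k K c ∈ mO O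
  ic : ∀ a : K, O.subtype.IsIntegralElem a → a ∈ O

variable {O : Subring K}

lemma mO_le {a : K} (h : a ∈ mO O) : a ∈ O := h.1

lemma zero_mem_mO : (0 : K) ∈ mO O := ⟨O.zero_mem, Or.inl rfl⟩

lemma Un.mem {u : K} (h : Un O u) : u ∈ O := h.2.1

lemma Un.ne {u : K} (h : Un O u) : u ≠ 0 := h.1

lemma Un.inv {u : K} (h : Un O u) : Un O u⁻¹ :=
  ⟨inv_ne_zero h.1, h.2.2, by rw [inv_inv]; exact h.2.1⟩

lemma Un.mul {u v : K} (h : Un O u) (h' : Un O v) : Un O (u * v) :=
  ⟨mul_ne_zero h.1 h'.1, O.mul_mem h.2.1 h'.2.1, by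
    rw [mul_inv]; exact O.mul_mem h.2.2 h'.2.2⟩

lemma Un.one : Un O (1 : K) := ⟨one_ne_zero, O.one_mem, by rw [inv_one]; exact O.one_mem⟩

lemma Un.pow {u : K} (h : Un O u) (n : ℕ) : Un O (u ^ n) := by
  induction n with
  | zero => rw [pow_zero]; exact Un.one
  | succ n ih => rw [pow_succ]; exact ih.mul h

lemma Un.neg {u : K} (h : Un O u) : Un O (-u) :=
  ⟨neg_ne_zero.2 h.1, O.neg_mem h.2.1, by rw [inv_neg]; exact O.neg_mem h.2.2⟩

lemma Un.div {u v : K} (h : Un O u) (h' : Un O v) : Un O (u / v) := by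
  rw [div_eq_mul_inv]; exact h.mul h'.inv

lemma not_un_iff {a : K} (ha : a ∈ O) : ¬ Un O a ↔ a ∈ mO O := by
  constructor
  · intro h
    refine ⟨ha, ?_⟩
    by_cases h0 : a = 0
    · exact Or.inl h0
    · exact Or.inr fun h' => h ⟨h0, ha, h'⟩
  · rintro ⟨_, h | h⟩ ⟨h1, _, h3⟩
    · exact h1 h
    · exact h h3

lemma un_or_mem {a : K} (ha : a ∈ O) : Un O a ∨ a ∈ mO O := by
  by_cases h : Un O a
  · exact Or.inl h
  · exact Or.inr ((not_un_iff ha).1 h)

lemma Un.not_mem {a : K} (h : Un O a) : a ∉ mO O := fun h' => (not_un_iff h.mem).2 h' h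

lemma mul_mem_mO {a b : K} (ha : a ∈ mO O) (hb : b ∈ O) : a * b ∈ mO O := by
  refine ⟨O.mul_mem ha.1 hb, ?_⟩
  rcases ha.2 with h | h
  · left; rw [h, zero_mul]
  · by_cases hb0 : b = 0
    · left; rw [hb0, mul_zero]
    · right
      intro h'
      apply h
      have : a⁻¹ = (a * b)⁻¹ * b := by
        rw [mul_inv]; field_simp
      rw [this]
      exact O.mul_mem h' hb

lemma mem_mO_mul {a b : K} (ha : a ∈ mO O) (hb : b ∈ O) : b * a ∈ mO O := by
  rw [mul_comm]; exact mul_mem_mO ha hb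

lemma neg_mem_mO {a : K} (ha : a ∈ mO O) : -a ∈ mO O := by
  have := mul_mem_mO ha (O.neg_mem O.one_mem)
  rwa [mul_neg_one] at this

end Defs

section Loc

variable {k K : Type u} [Field k] [Field K] [Algebra k K] {O : Subring K}

lemma LocRing.sub (h : LocRing k O) {a b : K} (ha : a ∈ mO O) (hb : b ∈ mO O) : a - b ∈ mO O := by
  rw [sub_eq_add_neg]; exact h.add a ha _ (neg_mem_mO hb)

lemma LocRing.sum (h : LocRing k O) {ι : Type*} (s : Finset ι) (f : ι → K)
    (hf : ∀ i ∈ s, f i ∈ mO O) : ∑ i ∈ s, f i ∈ mO O := by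
  classical
  induction s using Finset.induction_on with
  | empty => rw [Finset.sum_empty]; exact zero_mem_mO
  | insert a s ha ih =>
    rw [Finset.sum_insert ha]
    exact h.add _ (hf a (Finset.mem_insert_self a s)) _
      (ih fun i hi => hf i (Finset.mem_insert_of_mem hi))

/-- A unit plus a non-unit is a unit. -/
lemma LocRing.un_add (h : LocRing k O) {u a : K} (hu : Un O u) (ha : a ∈ mO O) :
    Un O (u + a) := by
  rcases un_or_mem (O.add_mem hu.mem ha.1) with h1 | h1
  · exact h1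
  · exfalso
    apply hu.not_mem
    have := h.sub h1 ha
    rwa [add_sub_cancel_right] at this

lemma LocRing.un_of_sub (h : LocRing k O) {u v : K} (hu : Un O u) (ha : u - v ∈ mO O) :
    Un O v := by
  have := h.un_add hu (neg_mem_mO ha)
  rwa [neg_sub, add_sub_cancel] at this

lemma LocRing.const (h : LocRing k O) {c : k} (hc : c ≠ 0) : Un O (algebraMap k K c) :=
  ⟨(map_ne_zero _).2 hc, h.base c, by rw [← map_inv₀]; exact h.base _⟩

lemma LocRing.const_zero (h : LocRing k O) {c : k} (hc : algebraMap k K c ∈ mO O) : c = 0 := by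
  by_contra h0
  exact (h.const h0).not_mem hc

lemma LocRing.res_unique (h : LocRing k O) {a : K} {c d : k} (hc : a - algebraMap k K c ∈ mO O)
    (hd : a - algebraMap k K d ∈ mO O) : c = d := by
  have h1 : algebraMap k K (d - c) ∈ mO O := by
    have := h.sub hc hd
    rw [map_sub]
    convert this using 1
    ring
  have := h.const_zero h1
  exact (sub_eq_zero.1 this).symm

/-- An element with a nonzero residue is a unit. -/
lemma LocRing.un_of_res (h : LocRing k O) {a : K} {c : k} (hc : a - algebraMap k K c ∈ mO O)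
    (h0 : c ≠ 0) : Un O a := by
  have := h.un_add (h.const h0) hc
  rwa [add_sub_cancel] at this

/-- An element with a power in `O` is in `O`. -/
lemma LocRing.pow_mem (h : LocRing k O) {a : K} {n : ℕ} (hn : n ≠ 0) (ha : a ^ n ∈ O) :
    a ∈ O := by
  apply h.ic
  refine ⟨Polynomial.X ^ n - Polynomial.C (⟨a ^ n, ha⟩ : O), ?_, ?_⟩
  · exact Polynomial.monic_X_pow_sub_C _ hn
  · simp

/-- An element with a power which is a unit is a unit. -/
lemma LocRing.un_pow (h : LocRing k O) {a : K} {n : ℕ} (hn : n ≠ 0) (ha : Un O (a ^ n)) :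
    Un O a := by
  refine ⟨?_, h.pow_mem hn ha.mem, h.pow_mem hn ?_⟩
  · rintro rfl
    exact ha.ne (zero_pow hn)
  · rw [inv_pow]; exact ha.inv.mem

/-- An element with a power which is a non-unit is a non-unit. -/
lemma LocRing.mO_pow (h : LocRing k O) {a : K} {n : ℕ} (hn : n ≠ 0) (ha : a ^ n ∈ mO O) :
    a ∈ mO O := by
  rcases un_or_mem (h.pow_mem hn ha.1) with h1 | h1
  · exact absurd ha (h1.pow n).not_mem
  · exact h1

lemma Gen.symm {x y : K} (h : Gen O x y) : Gen O y x := by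
  refine ⟨h.2.1, h.1, fun a ha => ?_⟩
  obtain ⟨b, hb, c, hc, e⟩ := h.2.2 a ha
  exact ⟨c, hc, b, hb, by rw [e]; ring⟩

/-- Change of generators. -/
lemma Gen.of (_h : ∀ a ∈ mO O, ∀ b ∈ mO O, a + b ∈ mO O) {x y x' y' : K} (g : Gen O x y)
    (hx' : x' ∈ mO O) (hy' : y' ∈ mO O)
    (hx : ∃ b ∈ O, ∃ c ∈ O, x = b * x' + c * y') (hy : ∃ b ∈ O, ∃ c ∈ O, y = b * x' + c * y') :
    Gen O x' y' := by
  refine ⟨hx', hy', fun a ha => ?_⟩
  obtain ⟨b, hb, c, hc, e⟩ := g.2.2 a ha
  obtain ⟨b1, hb1, c1, hc1, e1⟩ := hx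
  obtain ⟨b2, hb2, c2, hc2, e2⟩ := hy
  refine ⟨b * b1 + c * b2, O.add_mem (O.mul_mem hb hb1) (O.mul_mem hc hb2),
    b * c1 + c * c2, O.add_mem (O.mul_mem hb hc1) (O.mul_mem hc hc2), ?_⟩
  rw [e, e1, e2]; ring

/-- Multiplying a generator by a unit. -/
lemma Gen.unit_mul {x y u : K} (g : Gen O x y) (hu : Un O u) : Gen O (u * x) y := by
  refine ⟨mem_mO_mul g.1 hu.mem, g.2.1, fun a ha => ?_⟩
  obtain ⟨b, hb, c, hc, e⟩ := g.2.2 a ha
  refine ⟨b * u⁻¹, O.mul_mem hb hu.inv.mem, c, hc, ?_⟩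
  rw [e]
  have := hu.ne
  field_simp

/-- Replacing a generator `x` by `x + b y`. -/
lemma Gen.add_mul (h : LocRing k O) {x y b : K} (g : Gen O x y) (hb : b ∈ O) :
    Gen O (x + b * y) y := by
  refine g.of h.add (h.add _ g.1 _ (mem_mO_mul g.2.1 hb)) g.2.1
    ⟨1, O.one_mem, -b, O.neg_mem hb, by ring⟩ ⟨0, O.zero_mem, 1, O.one_mem, by ring⟩

end Loc

section Dominate

variable {K L : Type u} [Field K] [Field L] [Algebra K L]

/-- `O'` dominates `O`. -/
structure DomR (O : Subring K) (O' : Subring L) : Prop where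
  le : ∀ a ∈ O, algebraMap K L a ∈ O'
  max : ∀ a ∈ mO O, algebraMap K L a ∈ mO O'

/-- `z` is integral over the subring `O` of `K`. -/
def IntOver (O : Subring K) (z : L) : Prop := ((algebraMap K L).comp O.subtype).IsIntegralElem z

/-- The maximal ideal of `O'` is generated by elements integral over `O`. -/
def GenInt (O : Subring K) (O' : Subring L) : Prop :=
  ∀ z ∈ mO O', ∃ w ∈ mO O', IntOver O w ∧ ∃ b ∈ O', z = b * w

variable {O : Subring K} {O' : Subring L}

lemma DomR.un (h : DomR O O') {u : K} (hu : Un O u) : Un O' (algebraMap K L u) :=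
  ⟨(map_ne_zero _).2 hu.ne, h.le _ hu.mem, by rw [← map_inv₀]; exact h.le _ hu.inv.mem⟩

lemma DomR.mO_iff (h : DomR O O') {a : K} (ha : a ∈ O) :
    algebraMap K L a ∈ mO O' ↔ a ∈ mO O := by
  constructor
  · intro h'
    rcases un_or_mem ha with h1 | h1
    · exact absurd h' (h.un h1).not_mem
    · exact h1
  · exact h.max a

lemma DomR.intOver (h : DomR O O') {k : Type u} [Field k] [Algebra k L] (h' : LocRing k O') {z : L}
    (hz : IntOver O z) : z ∈ O' := by
  apply h'.ic
  obtain ⟨P, hP, e⟩ := hz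
  let φ : O →+* O' := RingHom.codRestrict ((algebraMap K L).comp O.subtype) O'
    fun x => h.le _ x.2
  refine ⟨P.map φ, hP.map φ, ?_⟩
  rw [Polynomial.eval₂_map]
  have : (O'.subtype).comp φ = (algebraMap K L).comp O.subtype := by
    ext x; rfl
  rw [this]
  exact e

end Dominate

end C

end HB
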