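import Pool.Agent.HB.C.SmoothGen
import Pool.Agent.HB.A.FacA
import Pool.Agent.HB.A.FacB

/-!
# Project HB, part C, module OrdForm: local forms from divisors (from part A)

STATEMENT. `S` smooth, `P` a closed point, `f ≠ 0`, `n > 0`.
(1) If `n ∣ ord_C f` for all prime divisors `C` through `P` then `f = u g ^ n`, `u` a unit at `P`.
(2) If `ord_C f ≡ ord_C t (mod n)` for all `C` through `P`, `t ≠ 0`, then `f = u g ^ n t`.
-/

set_option autoImplicit false

namespace HB

namespace C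

universe u

variable {k K : Type u} [Field k] [Field K] [Algebra k K] [IsAlgClosed k] [CharZero k]

theorem ord_form {S : Surf k K} (hS : S.Smooth) (P : S.Pt) {f : K} (hf : f ≠ 0) {n : ℕ}
    (_hn : 0 < n) (h : ∀ C : S.PD, Surf.On P C → (n : ℤ) ∣ C.ord f) :
    EtForm n P.1.toSubring f := by
  obtain ⟨D, _, hD⟩ := Surf.exists_isDiv (S := S) hf
  let E : S.Div := Finsupp.mapRange (fun a : ℤ => a / (n : ℤ)) (by simp) D
  obtain ⟨g, hg0, hg⟩ := Surf.exists_isEq hS E P
  have hgn : g ^ n ≠ 0 := pow_ne_zero _ hg0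
  have hu0 : f / g ^ n ≠ 0 := div_ne_zero hf hgn
  have key : ∀ C : S.PD, Surf.On P C → C.ord (f / g ^ n) = 0 := by
    intro C hC
    have h1 : C.ord (f / g ^ n) = C.ord f - n * C.ord g := by
      show ordS C.1.toSubring (f / g ^ n) = _
      rw [ordS_div C.1.toSubring hf hgn, ordS_pow C.1.toSubring]
      rfl
    have h2 : C.ord g = C.ord f / n := by
      rw [hg C hC]
      show E C = _
      rw [Finsupp.mapRange_apply, hD C]
    rw [h1, h2, Int.mul_ediv_cancel' (h C hC), sub_self]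
  have hu := (Surf.Pt.unit_iff hS P hu0).2 key
  refine ⟨f / g ^ n, g, ⟨hu0, hu.1, hu.2⟩, hg0, ?_⟩
  field_simp

theorem ord_form' {S : Surf k K} (hS : S.Smooth) (P : S.Pt) {f t : K} (hf : f ≠ 0) (ht : t ≠ 0)
    {n : ℕ} (hn : 0 < n)
    (h : ∀ C : S.PD, Surf.On P C → (n : ℤ) ∣ C.ord f - C.ord t) :
    ∃ u g, Un P.1.toSubring u ∧ g ≠ 0 ∧ f = u * g ^ n * t := by
  obtain ⟨u, g, hu, hg, e⟩ := ord_form hS P (div_ne_zero hf ht) hn (fun C hC => by
    have h1 : C.ord (f / t) = C.ord f - C.ord t := ordS_div C.1.toSubring hf ht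
    rw [h1]
    exact h C hC)
  refine ⟨u, g, hu, hg, ?_⟩
  rw [← e]
  field_simp

end C

end HB
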