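import Pool.Agent.HB.C.Coord

/-!
# Project HB, part C, module PPLoc: from the plane to `P^1 x P^1`, locally

STATEMENT. Kummer step `c ^ 2 = s ^ 2 - 4 t`; `2 x_0 = s + c`, `2 x_1 = s - c`
(so `x_0 + x_1 = s`, `x_0 x_1 = t`).  If the local ring `O` is of one of the three types of
`P2_pt` then the maximal ideal of `O'` is generated by `w_0, w_1` with `w_i = x_i - p_i` or
`1 / x_i`.

PROOF (all elements of `K` are mapped to `L`; write `f = s ^ 2 - 4 t`).
(1) `Gen O (s - a) (t - b)`.  `s, t ∈ O`.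
 (1a) `a ^ 2 = 4 b`: `f = (s - a)(s + a) - 4 (t - b)`, so `Gen O f (s - a)` (`Gen.of`,
 `t - b = ((s-a)(s+a) - f)/4`), and `h.ram` with `u = g = 1`, `t := f`, `t' := s - a` gives
 `Gen O' c (s - a)`.  With `p = a/2`: `2 (x_0 - p) = (s - a) + c`, `2 (x_1 - p) = (s - a) - c`;
 `Gen.of`.
 (1b) `a ^ 2 ≠ 4 b`: `f` is a unit of `O` (residue `a ^ 2 - 4 b`), `h.et` with `u = f`, `g = 1`:
 `Gen O' (s - a) (t - b)`.  `x_i ∈ O'` by `LocRing.ic` (`x_i ^ 2 - s x_i + t = 0`); let `p_i` be
 their residues; `p_0 + p_1 = a`, `p_0 p_1 = b` (`res_unique`); `s - a = (x_0 - p_0) + (x_1 - p_1)`,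
 `t - b = (x_0 - p_0) x_1 + p_0 (x_1 - p_1)`; `Gen.of`.
(2) `Gen O (1/s) (t/s - b)`: `f = s ^ 2 (1 - 4 (t/s)(1/s))`, the second factor is a unit; `h.et` with
 `g = s`: `Gen O' (1/s) (t/s - b)`.  `X_i = x_i / s ∈ O'` (`X ^ 2 - X + (t/s)(1/s) = 0`),
 `X_0 + X_1 = 1`, `X_0 X_1 = (t/s)(1/s) ∈ mO O'`: one of `X_0, X_1` is in `mO O'` and the other is a
 unit.  If `X_1 ∈ mO`: `w_0 = 1/x_0 = (1/s)/X_0`, `x_1 = (t/s)/X_0 ∈ O'` with residue `b` (as
 `X_0 ≡ 1`), `w_1 = x_1 - b`; `1/s = X_0 w_0`, `t/s - b = X_0 w_1 - b X_1`,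
 `X_1 = x_1 X_0 w_0`; `Gen.of`.  The other case is symmetric (`w_0 = x_0 - b`, `w_1 = 1/x_1`).
(3) `Gen O (1/t) (s/t)`: `f = t ^ 2 τ`, `τ = (s/t)^2 - 4 (1/t)`, `Gen O τ (s/t)`
 (`1/t = ((s/t)^2 - τ)/4`), `h.ram` with `u = 1`, `g = t`: `Gen O' (c/t) (s/t)`.
 `w_0 = 1/x_0 = x_1/t = (s/t - c/t)/2`, `w_1 = 1/x_1 = (s/t + c/t)/2`; `Gen.of`.
-/

set_option autoImplicit false

namespace HB

namespace C

universe u

variable {k K L : Type u} [Field k] [Field K] [Field L] [Algebra k K] [Algebra K L] [Algebra k L]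
  [IsScalarTower k K L] [CharZero k]

omit [CharZero k] in
/-- a monic quadratic equation gives integrality -/
private lemma ppLoc_quad {O' : Subring L} (hO' : LocRing k O') {z S T : L} (hS : S ∈ O')
    (hT : T ∈ O') (h : z ^ 2 - S * z + T = 0) : z ∈ O' := by
  apply hO'.ic
  refine ⟨Polynomial.X ^ 2 - Polynomial.C (⟨S, hS⟩ : O') * Polynomial.X +
    Polynomial.C (⟨T, hT⟩ : O'), ?_, ?_⟩
  · monicity!
  · simp only [Polynomial.eval₂_add, Polynomial.eval₂_sub, Polynomial.eval₂_mul,
      Polynomial.eval₂_pow, Polynomial.eval₂_X, Polynomial.eval₂_C]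
    exact h

omit [CharZero k] in
/-- case (2), one order of the roots -/
private lemma ppLoc_two {O' : Subring L} (hO' : LocRing k O') {S T y z : L} {b : k}
    (hg : Gen O' S⁻¹ (T / S - algebraMap k L b)) (hS : S ≠ 0) (hy : y + z = S) (hyz : y * z = T)
    (hz : z / S ∈ mO O') : Gen O' y⁻¹ (z - algebraMap k L b) := by
  have hb := hO'.base b
  have hTS : T / S ∈ O' := by
    have := O'.add_mem hg.2.1.1 hb
    rwa [sub_add_cancel] at this
  have e1 : y / S = 1 + -(z / S) := by
    field_simp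
    rw [← hy]
    ring
  have hyS : Un O' (y / S) := by
    rw [e1]
    exact hO'.un_add Un.one (neg_mem_mO hz)
  have hy0 : y ≠ 0 := by
    intro h
    apply hyS.ne
    rw [h, zero_div]
  have e2 : y⁻¹ = S⁻¹ * (y / S)⁻¹ := by
    field_simp
  have e3 : z = (T / S) * (y / S)⁻¹ := by
    rw [← hyz]
    field_simp
  have hzO : z ∈ O' := by
    rw [e3]
    exact O'.mul_mem hTS hyS.inv.mem
  have e4 : z - algebraMap k L b =
      ((T / S - algebraMap k L b) + (z / S) * algebraMap k L b) * (y / S)⁻¹ := by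
    have e5 : (T / S - algebraMap k L b) + (z / S) * algebraMap k L b =
        (y / S) * (z - algebraMap k L b) := by
      rw [← hyz, e1]
      have e6 : y * z / S = (1 + -(z / S)) * z := by
        rw [← e1]
        ring
      rw [e6]
      ring
    rw [e5]
    have := hyS.ne
    field_simp
  refine hg.of hO'.add ?_ ?_ ?_ ?_
  · rw [e2]
    exact mul_mem_mO hg.1 hyS.inv.mem
  · rw [e4]
    exact mul_mem_mO (hO'.add _ hg.2.1 _ (mul_mem_mO hz hb)) hyS.inv.mem
  · exact ⟨y / S, hyS.mem, 0, O'.zero_mem, by field_simp; ring⟩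
  · refine ⟨-(algebraMap k L b * z * (y / S)), O'.neg_mem (O'.mul_mem (O'.mul_mem hb hzO) hyS.mem),
      y / S, hyS.mem, ?_⟩
    have e7 : z / S = z * (y / S) * y⁻¹ := by
      field_simp
    have e8 : y / S * (z - algebraMap k L b) = T / S - algebraMap k L b +
        z / S * algebraMap k L b := by
      rw [e4]
      have := hyS.ne
      field_simp
    rw [e8, e7]
    ring

theorem pp_loc {O : Subring K} {O' : Subring L} (hO : LocRing k O) (hO' : LocRing k O')
    {s t : K} {c : L} (hf : s ^ 2 - 4 * t ≠ 0) (h : StepAt 2 O O' (s ^ 2 - 4 * t) c)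
    (hc : c ^ 2 = algebraMap K L (s ^ 2 - 4 * t))
    (hP : (∃ a b : k, Gen O (s - algebraMap k K a) (t - algebraMap k K b)) ∨
      (∃ b : k, Gen O s⁻¹ (t / s - algebraMap k K b)) ∨ Gen O t⁻¹ (s / t))
    (hs0 : s ≠ 0) (ht0 : t ≠ 0) {x : Fin 2 → L} (h0 : 2 * x 0 = algebraMap K L s + c)
    (h1 : 2 * x 1 = algebraMap K L s - c) :
    ∃ w : Fin 2 → L, Gen O' (w 0) (w 1) ∧ ∀ a, CoordP k (x a) (w a) := by
  have hcK : CharZero K := charZero_of_injective_algebraMap (algebraMap k K).injective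
  have hcL : CharZero L := charZero_of_injective_algebraMap (algebraMap k L).injective
  have h2L : (2 : L) ≠ 0 := two_ne_zero
  have h2K : (2 : K) ≠ 0 := two_ne_zero
  have hhK : (1 / 4 : K) ∈ O := by
    have := hO.base (1 / 4)
    rwa [map_div₀, map_one, map_ofNat] at this
  have hhL : (1 / 2 : L) ∈ O' := by
    have := hO'.base (1 / 2)
    rwa [map_div₀, map_one, map_ofNat] at this
  have h4K : (4 : K) ∈ O := by
    have := hO.base 4
    rwa [map_ofNat] at this
  have hkK : ∀ a : k, algebraMap k L a = algebraMap K L (algebraMap k K a) :=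
    fun a => IsScalarTower.algebraMap_apply k K L a
  set S := algebraMap K L s with hS
  set T := algebraMap K L t with hT
  have hS0 : S ≠ 0 := (map_ne_zero _).2 hs0
  have hT0 : T ≠ 0 := (map_ne_zero _).2 ht0
  have hc' : c ^ 2 = S ^ 2 - 4 * T := by
    rw [hc, map_sub, map_pow, map_mul, map_ofNat]
  have hsum : x 0 + x 1 = S := by
    apply mul_left_cancel₀ h2L
    rw [mul_add, h0, h1]
    ring
  have hprod : x 0 * x 1 = T := by
    have h4 : (4 : L) ≠ 0 := by norm_num
    apply mul_left_cancel₀ h4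
    have : 4 * (x 0 * x 1) = (2 * x 0) * (2 * x 1) := by ring
    rw [this, h0, h1]
    have e : (S + c) * (S - c) = S ^ 2 - c ^ 2 := by ring
    rw [e, hc']
    ring
  rcases hP with ⟨a, b, hg⟩ | ⟨b, hg⟩ | hg
  · -- case (1)
    have hsO : s ∈ O := by
      have := O.add_mem hg.1.1 (hO.base a)
      rwa [sub_add_cancel] at this
    have htO : t ∈ O := by
      have := O.add_mem hg.2.1.1 (hO.base b)
      rwa [sub_add_cancel] at this
    have hfr : s ^ 2 - 4 * t - algebraMap k K (a ^ 2 - 4 * b) ∈ mO O := by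
      have e : s ^ 2 - 4 * t - algebraMap k K (a ^ 2 - 4 * b) =
          (s - algebraMap k K a) * (s + algebraMap k K a) - (t - algebraMap k K b) * 4 := by
        rw [map_sub, map_pow, map_mul, map_ofNat]
        ring
      rw [e]
      exact hO.sub (mul_mem_mO hg.1 (O.add_mem hsO (hO.base a))) (mul_mem_mO hg.2.1 h4K)
    by_cases hab : a ^ 2 - 4 * b = 0
    · -- (1a)
      have hfm : s ^ 2 - 4 * t ∈ mO O := by
        rwa [hab, map_zero, sub_zero] at hfr
      have hgf : Gen O (s ^ 2 - 4 * t) (s - algebraMap k K a) := by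
        refine hg.of hO.add hfm hg.1 ⟨0, O.zero_mem, 1, O.one_mem, by ring⟩
          ⟨-(1 / 4), O.neg_mem hhK, (s + algebraMap k K a) * (1 / 4),
            O.mul_mem (O.add_mem hsO (hO.base a)) hhK, ?_⟩
        have e : algebraMap k K a ^ 2 = 4 * algebraMap k K b := by
          rw [← map_pow, sub_eq_zero.1 hab, map_mul, map_ofNat]
        have e2 : (s + algebraMap k K a) * (1 / 4) * (s - algebraMap k K a) =
            (1 / 4) * (s ^ 2 - algebraMap k K a ^ 2) := by ring
        rw [e2, e]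
        ring
      have hg' := h.ram 1 1 _ _ Un.one one_ne_zero (by ring) hgf
      rw [map_one, div_one, map_sub, ← hkK a] at hg'
      have hp2 : 2 * algebraMap k L (a / 2) = algebraMap k L a := by
        rw [map_div₀, map_ofNat]
        field_simp
      have e0 : x 0 - algebraMap k L (a / 2) = ((S - algebraMap k L a) + c) * (1 / 2) := by
        apply mul_left_cancel₀ h2L
        rw [mul_sub, h0, hp2]
        ring
      have e1 : x 1 - algebraMap k L (a / 2) = ((S - algebraMap k L a) - c) * (1 / 2) := by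
        apply mul_left_cancel₀ h2L
        rw [mul_sub, h1, hp2]
        ring
      refine ⟨fun i => x i - algebraMap k L (a / 2), ?_, fun i => Or.inl ⟨a / 2, rfl⟩⟩
      refine hg'.of hO'.add ?_ ?_ ⟨1, O'.one_mem, -1, O'.neg_mem O'.one_mem, ?_⟩
        ⟨1, O'.one_mem, 1, O'.one_mem, ?_⟩
      · change x 0 - _ ∈ mO O'
        rw [e0]
        exact mul_mem_mO (hO'.add _ hg'.2.1 _ hg'.1) hhL
      · change x 1 - _ ∈ mO O'
        rw [e1]
        exact mul_mem_mO (hO'.sub hg'.2.1 hg'.1) hhL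
      · change c = 1 * (x 0 - _) + -1 * (x 1 - _)
        rw [e0, e1]
        ring
      · change S - algebraMap k L a = 1 * (x 0 - _) + 1 * (x 1 - _)
        rw [e0, e1]
        ring
    · -- (1b)
      have hfu : Un O (s ^ 2 - 4 * t) := hO.un_of_res hfr hab
      have hg' := h.et _ 1 hfu one_ne_zero (by ring) _ _ hg
      rw [map_sub, map_sub, ← hkK a, ← hkK b] at hg'
      have hSO : S ∈ O' := h.dom.le _ hsO
      have hTO : T ∈ O' := h.dom.le _ htO
      have hx0 : x 0 ∈ O' := ppLoc_quad hO' hSO hTO (by rw [← hsum, ← hprod]; ring)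
      have hx1 : x 1 ∈ O' := ppLoc_quad hO' hSO hTO (by rw [← hsum, ← hprod]; ring)
      obtain ⟨p0, hp0⟩ := hO'.res _ hx0
      obtain ⟨p1, hp1⟩ := hO'.res _ hx1
      have ha : a = p0 + p1 := by
        apply hO'.res_unique (a := S) hg'.1
        have := hO'.add _ hp0 _ hp1
        rw [map_add]
        have e : S - (algebraMap k L p0 + algebraMap k L p1) =
            x 0 - algebraMap k L p0 + (x 1 - algebraMap k L p1) := by
          rw [← hsum]
          ring
        rwa [e]
      have hb : b = p0 * p1 := by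
        apply hO'.res_unique (a := T) hg'.2.1
        have := hO'.add _ (mul_mem_mO hp0 hx1) _ (mem_mO_mul hp1 (hO'.base p0))
        rw [map_mul]
        have e : T - algebraMap k L p0 * algebraMap k L p1 =
            (x 0 - algebraMap k L p0) * x 1 +
              algebraMap k L p0 * (x 1 - algebraMap k L p1) := by
          rw [← hprod]
          ring
        rwa [e]
      refine ⟨fun i => x i - algebraMap k L (![p0, p1] i), ?_, fun i => Or.inl ⟨![p0, p1] i, rfl⟩⟩
      refine hg'.of hO'.add hp0 hp1 ⟨1, O'.one_mem, 1, O'.one_mem, ?_⟩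
        ⟨x 1, hx1, algebraMap k L p0, hO'.base p0, ?_⟩
      · change S - algebraMap k L a = 1 * (x 0 - algebraMap k L p0) + 1 * (x 1 - algebraMap k L p1)
        rw [ha, ← hsum, map_add]
        ring
      · change T - algebraMap k L b = x 1 * (x 0 - algebraMap k L p0) +
          algebraMap k L p0 * (x 1 - algebraMap k L p1)
        rw [hb, ← hprod, map_mul]
        ring
  · -- case (2)
    have htsO : t / s ∈ O := by
      have := O.add_mem hg.2.1.1 (hO.base b)
      rwa [sub_add_cancel] at this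
    have hu : Un O (1 + -(4 * (t / s) * s⁻¹)) :=
      hO.un_add Un.one (neg_mem_mO (mem_mO_mul hg.1 (O.mul_mem h4K htsO)))
    have hg' := h.et _ s hu hs0 (by field_simp; ring) _ _ hg
    rw [map_sub, map_inv₀, map_div₀, ← hkK b, ← hS, ← hT] at hg'
    have hTS : T / S ∈ O' := by
      have := h.dom.le _ htsO
      rwa [map_div₀] at this
    have hX : ∀ i, x i / S ∈ O' := by
      intro i
      apply ppLoc_quad hO' O'.one_mem (O'.mul_mem hTS hg'.1.1)
      have e : x i ^ 2 - S * x i + T = 0 := by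
        rw [← hsum, ← hprod]
        fin_cases i
        · change x 0 ^ 2 - (x 0 + x 1) * x 0 + x 0 * x 1 = 0
          ring
        · change x 1 ^ 2 - (x 0 + x 1) * x 1 + x 0 * x 1 = 0
          ring
      have e2 : (x i / S) ^ 2 - 1 * (x i / S) + T / S * S⁻¹ = (x i ^ 2 - S * x i + T) / S ^ 2 := by
        field_simp
      rw [e2, e, zero_div]
    have hXX : (x 0 / S) * (x 1 / S) ∈ mO O' := by
      have e : (x 0 / S) * (x 1 / S) = (T / S) * S⁻¹ := by
        rw [← hprod]
        field_simp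
      rw [e]
      exact mem_mO_mul hg'.1 hTS
    rcases un_or_mem (hX 1) with h3 | h3
    · rcases un_or_mem (hX 0) with h4 | h4
      · exact absurd hXX (h4.mul h3).not_mem
      · have hgen := ppLoc_two hO' hg' hS0 (y := x 1) (z := x 0) (by rw [add_comm]; exact hsum)
          (by rw [mul_comm]; exact hprod) h4
        refine ⟨![x 0 - algebraMap k L b, (x 1)⁻¹], hgen.symm, fun i => ?_⟩
        fin_cases i
        · exact Or.inl ⟨b, rfl⟩
        · exact Or.inr rfl
    · have hgen := ppLoc_two hO' hg' hS0 (y := x 0) (z := x 1) hsum hprod h3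
      refine ⟨![(x 0)⁻¹, x 1 - algebraMap k L b], hgen, fun i => ?_⟩
      fin_cases i
      · exact Or.inr rfl
      · exact Or.inl ⟨b, rfl⟩
  · -- case (3)
    have hstO := hg.2.1.1
    have hτ : (s / t) ^ 2 - 4 * t⁻¹ ∈ mO O := by
      rw [pow_two]
      exact hO.sub (mul_mem_mO hg.2.1 hstO) (mem_mO_mul hg.1 h4K)
    have hgτ : Gen O ((s / t) ^ 2 - 4 * t⁻¹) (s / t) := by
      refine hg.of hO.add hτ hg.2.1 ⟨-(1 / 4), O.neg_mem hhK, (s / t) * (1 / 4),
        O.mul_mem hstO hhK, by ring⟩ ⟨0, O.zero_mem, 1, O.one_mem, by ring⟩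
    have hg' := h.ram 1 t _ _ Un.one ht0 (by field_simp) hgτ
    rw [map_div₀, ← hS, ← hT] at hg'
    have hx0 : x 0 ≠ 0 := by
      intro h5
      rw [h5, zero_mul] at hprod
      exact hT0 hprod.symm
    have hx1 : x 1 ≠ 0 := by
      intro h5
      rw [h5, mul_zero] at hprod
      exact hT0 hprod.symm
    have e0 : (x 0)⁻¹ = (S / T - c / T) * (1 / 2) := by
      have : (x 0)⁻¹ = x 1 / T := by
        rw [← hprod]
        field_simp
      rw [this]
      apply mul_left_cancel₀ h2L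
      have e : 2 * (x 1 / T) = (2 * x 1) / T := by ring
      rw [e, h1]
      ring
    have e1 : (x 1)⁻¹ = (S / T + c / T) * (1 / 2) := by
      have : (x 1)⁻¹ = x 0 / T := by
        rw [← hprod]
        field_simp
      rw [this]
      apply mul_left_cancel₀ h2L
      have e : 2 * (x 0 / T) = (2 * x 0) / T := by ring
      rw [e, h0]
      ring
    refine ⟨fun i => (x i)⁻¹, ?_, fun i => Or.inr rfl⟩
    refine hg'.of hO'.add ?_ ?_ ⟨-1, O'.neg_mem O'.one_mem, 1, O'.one_mem, ?_⟩
      ⟨1, O'.one_mem, 1, O'.one_mem, ?_⟩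
    · change (x 0)⁻¹ ∈ mO O'
      rw [e0]
      exact mul_mem_mO (hO'.sub hg'.2.1 hg'.1) hhL
    · change (x 1)⁻¹ ∈ mO O'
      rw [e1]
      exact mul_mem_mO (hO'.add _ hg'.2.1 _ hg'.1) hhL
    · change c / T = -1 * (x 0)⁻¹ + 1 * (x 1)⁻¹
      rw [e0, e1]
      ring
    · change S / T = 1 * (x 0)⁻¹ + 1 * (x 1)⁻¹
      rw [e0, e1]
      ring

end C

end HB
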