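import Pool.Agent.HB.C.Loc

/-!
# Project HB, part C, module Psi: the isogeny of degree 3 of `Y² = X³ + 1`

`Psi θ X' Y' X Y` (`θ ^ 2 = -3`): `(X', Y')` is a point of `Y² = X³ + 1`, `X' ≠ 0`, and
`X = - (X'^3 + 4) / (3 X'^2)`, `Y = Y' (X'^3 - 8) / (3 θ X'^3)`, i.e. `(X,Y)` is the image of `(X',Y')`
under `± [θ]`.

STATEMENTS.
(1) `psi_curve`: `(X,Y)` is a point of the curve.
    `(u+4)^3 - 27 u^2 = (u+1)(u-8)^2` with `u = X'^3`.
(2) `psi_of`: if `Y ^ 2 = X ^ 3 + 1`, `X ≠ 0`, `c ^ 3 = Y - 1`, `w = X / c`, then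
    `Psi θ (-2/(w-c)) (θ (w+c)/(w-c)) X Y`.  (`c ≠ 0` since `Y = 1` implies `X = 0`;
    `w ^ 3 = Y + 1` since `w^3 c^3 = X^3 = (Y-1)(Y+1)`; `w ^ 3 - c ^ 3 = 2`, so `w ≠ c`;
    `(w-c)^3 + 3 (w+c)^2 (w-c) = 4 (w^3 - c^3) = 8`;  `2/(w-c) - (w-c)^2 = 3 w c`;
    `2 Y = w^3 + c^3`, `(w+c)(1 + (w-c)^3)/(3 (w-c)) = (w^3+c^3)/2` using `1 = (w^3-c^3)/2`.)
(3) `psi_map`: `Psi` is preserved by field homomorphisms.
(4) `psi_mor`: local statement: if `X ∈ O` or `1/X ∈ O` then `X' = -2/(w-c)` satisfies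
    `X' ∈ O` or `1/X' ∈ O`.
    PROOF of (4).  If `X ∈ O`: `Y ∈ O` (`pow_mem`), `c ∈ O`, `w ∈ O` (`w^3 = Y + 1`), `1/X' =
    -(w-c)/2 ∈ O`.  If `X ∉ O`: `1/X ∈ mO O`; then `(1/Y)^2 = (1/X)^3/(1 + (1/X)^3) ∈ mO O`, so
    `η = 1/Y ∈ mO O`; `1/c ∈ mO O` since `(1/c)^3 = 1/(Y-1) = η/(1-η)`; `ω = w/c` satisfies
    `ω^3 = (Y+1)/(Y-1) = (1+η)/(1-η)`, a unit, so `ω` is a unit; `ω^3 - 1 = 2/c^3`.
    Let `ω_0 : k` be the residue of `ω`, `ω_0^3 = 1`.  If `ω_0 = 1`: `ω^2 + ω + 1` is a unit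
    (residue 3), `X' = -2/(c (ω-1)) = - c^2 (ω^2+ω+1)`, so `1/X' = - (1/c)^2 (ω^2+ω+1)⁻¹ ∈ O`.
    If `ω_0 ≠ 1`: `ω - 1` is a unit, `X' = -2 (1/c) (ω-1)⁻¹ ∈ O`.
-/
set_option autoImplicit false

namespace HB

namespace C

universe u

/-- `(X', Y')` is mapped to `(X, Y)` by the isogeny of degree 3. -/
def Psi {K : Type u} [Field K] (θ X' Y' X Y : K) : Prop :=
  Y' ^ 2 = X' ^ 3 + 1 ∧ X' ≠ 0 ∧ 3 * X' ^ 2 * X = -(X' ^ 3 + 4) ∧
    3 * θ * X' ^ 3 * Y = Y' * (X' ^ 3 - 8)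

variable {k K : Type u} [Field k] [Field K] [Algebra k K] [CharZero k]

theorem psi_curve {θ : k} (hθ : θ ^ 2 = -3) {X' Y' X Y : K}
    (h : Psi (algebraMap k K θ) X' Y' X Y) : Y ^ 2 = X ^ 3 + 1 := by
  have : CharZero K := charZero_of_injective_algebraMap (algebraMap k K).injective
  obtain ⟨h1, h2, h3, h4⟩ := h
  have hθ' : (algebraMap k K θ) ^ 2 = -3 := by
    rw [← map_pow, hθ, map_neg, map_ofNat]
  set t := algebraMap k K θ with ht
  have hne : (-27 : K) * X' ^ 6 ≠ 0 := mul_ne_zero (by norm_num) (pow_ne_zero _ h2)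
  apply mul_left_cancel₀ hne
  have e1 : (-27 : K) * X' ^ 6 * Y ^ 2 = Y' ^ 2 * (X' ^ 3 - 8) ^ 2 := by
    have := congrArg (fun z => z ^ 2) h4
    linear_combination this - 9 * X' ^ 6 * Y ^ 2 * hθ'
  have e2 : (27 : K) * X' ^ 6 * X ^ 3 = -(X' ^ 3 + 4) ^ 3 := by
    have := congrArg (fun z => z ^ 3) h3
    linear_combination this
  rw [e1, h1]
  linear_combination e2

private lemma aux {K : Type u} [Field K] [CharZero K] {X Y c : K} (hE : Y ^ 2 = X ^ 3 + 1)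
    (hX : X ≠ 0) (hc : c ^ 3 = Y - 1) : c ≠ 0 ∧ (X / c) ^ 3 = Y + 1 ∧ X / c - c ≠ 0 := by
  have hc0 : c ≠ 0 := by
    rintro rfl
    have hY : Y = 1 := by
      have : (0 : K) = Y - 1 := by rw [← hc]; ring
      exact (sub_eq_zero.1 this.symm)
    rw [hY] at hE
    have : X ^ 3 = 0 := by linear_combination -hE
    exact hX (pow_eq_zero_iff (by norm_num) |>.1 this)
  have hw : (X / c) ^ 3 = Y + 1 := by
    rw [div_pow, div_eq_iff (pow_ne_zero _ hc0), hc]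
    linear_combination -hE
  refine ⟨hc0, hw, ?_⟩
  intro h0
  have : X / c = c := sub_eq_zero.1 h0
  rw [this, hc] at hw
  have h2 : (2 : K) = 0 := by linear_combination -hw
  exact two_ne_zero h2

theorem psi_of {θ : k} (hθ : θ ^ 2 = -3) {X Y c : K} (hE : Y ^ 2 = X ^ 3 + 1) (hX : X ≠ 0)
    (hc : c ^ 3 = Y - 1) :
    Psi (algebraMap k K θ) (-2 / (X / c - c)) (algebraMap k K θ * (X / c + c) / (X / c - c))
      X Y := by
  have : CharZero K := charZero_of_injective_algebraMap (algebraMap k K).injective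
  obtain ⟨hc0, hw, hd⟩ := aux hE hX hc
  have hθ' : (algebraMap k K θ) ^ 2 = -3 := by
    rw [← map_pow, hθ, map_neg, map_ofNat]
  set t := algebraMap k K θ with ht
  have hXw : X = (X / c) * c := by field_simp
  set w := X / c with hwdef
  clear_value w
  have h2 : w ^ 3 - c ^ 3 = 2 := by rw [hw, hc]; ring
  have hY : 2 * Y = w ^ 3 + c ^ 3 := by rw [hw, hc]; ring
  refine ⟨?_, ?_, ?_, ?_⟩
  · rw [div_pow, div_pow, mul_pow, hθ']
    rw [div_add_one (pow_ne_zero _ hd), div_eq_div_iff (pow_ne_zero _ hd) (pow_ne_zero _ hd)]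
    linear_combination (-4 : K) * (w - c) ^ 2 * h2
  · exact div_ne_zero (by norm_num) hd
  · rw [hXw, div_pow, div_pow]
    rw [div_add' _ _ _ (pow_ne_zero _ hd), ← neg_div, mul_div_assoc', div_mul_eq_mul_div,
      div_eq_div_iff (pow_ne_zero _ hd) (pow_ne_zero _ hd)]
    linear_combination (4 : K) * (w - c) ^ 2 * h2
  · rw [div_pow, div_sub' (pow_ne_zero _ hd), mul_div_assoc', div_mul_eq_mul_div,
      div_mul_div_comm, div_eq_div_iff (pow_ne_zero _ hd)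
      (mul_ne_zero hd (pow_ne_zero _ hd))]
    have h3 : 3 * Y * (w - c) = (w + c) * (1 + (w - c) ^ 3) := by
      have : (2 : K) * (3 * Y * (w - c)) = 2 * ((w + c) * (1 + (w - c) ^ 3)) := by
        linear_combination 3 * (w - c) * hY + (w + c) * h2
      exact mul_left_cancel₀ two_ne_zero this
    linear_combination (-8 : K) * t * (w - c) ^ 3 * h3

theorem psi_map {L : Type u} [Field L] [Algebra K L] {θ X' Y' X Y : K}
    (h : Psi θ X' Y' X Y) :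
    Psi (algebraMap K L θ) (algebraMap K L X') (algebraMap K L Y') (algebraMap K L X)
      (algebraMap K L Y) := by
  obtain ⟨h1, h2, h3, h4⟩ := h
  refine ⟨?_, (map_ne_zero _).2 h2, ?_, ?_⟩
  · have := congrArg (algebraMap K L) h1
    simpa using this
  · have := congrArg (algebraMap K L) h3
    simpa only [map_mul, map_pow, map_neg, map_add, map_ofNat] using this
  · have := congrArg (algebraMap K L) h4
    simpa only [map_mul, map_pow, map_sub, map_ofNat] using this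

theorem psi_mor {O : Subring K} (hO : LocRing k O) {X Y c : K} (hE : Y ^ 2 = X ^ 3 + 1)
    (hX : X ≠ 0) (hc : c ^ 3 = Y - 1) (hm : X ∈ O ∨ X⁻¹ ∈ O) :
    (-2 / (X / c - c)) ∈ O ∨ (-2 / (X / c - c))⁻¹ ∈ O := by
  have : CharZero K := charZero_of_injective_algebraMap (algebraMap k K).injective
  obtain ⟨hc0, hw, hd⟩ := aux hE hX hc
  have hn : ∀ (n : K) (m : k), algebraMap k K m = n → n ∈ O := by
    intro n m h; rw [← h]; exact hO.base m
  have hhalf : (2 : K)⁻¹ ∈ O := hn _ (2⁻¹) (by rw [map_inv₀, map_ofNat])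
  have hX3 : X ∈ O → (-2 / (X / c - c))⁻¹ ∈ O := by
    intro hXO
    have hY : Y ∈ O := by
      apply hO.pow_mem (n := 2) (by norm_num)
      rw [hE]
      exact O.add_mem (O.pow_mem hXO 3) O.one_mem
    have hcO : c ∈ O := by
      apply hO.pow_mem (n := 3) (by norm_num)
      rw [hc]
      exact O.sub_mem hY O.one_mem
    have hwO : X / c ∈ O := by
      apply hO.pow_mem (n := 3) (by norm_num)
      rw [hw]
      exact O.add_mem hY O.one_mem
    have : (-2 / (X / c - c))⁻¹ = -((X / c - c) * 2⁻¹) := by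
      rw [inv_div]; field_simp
    rw [this]
    exact O.neg_mem (O.mul_mem (O.sub_mem hwO hcO) hhalf)
  by_cases hXO : X ∈ O
  · exact Or.inr (hX3 hXO)
  have hXi : X⁻¹ ∈ O := hm.resolve_left hXO
  have hXm : X⁻¹ ∈ mO O := ⟨hXi, Or.inr (by rw [inv_inv]; exact hXO)⟩
  -- η = 1 / Y
  have h1u : ∀ a ∈ mO O, Un O (1 + a) := fun a ha => hO.un_add Un.one ha
  have hY0 : Y ≠ 0 := by
    rintro rfl
    apply hXO
    apply hO.pow_mem (n := 3) (by norm_num)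
    have : X ^ 3 = -1 := by linear_combination -hE
    rw [this]
    exact O.neg_mem O.one_mem
  have hX3m : (X⁻¹) ^ 3 ∈ mO O := by
    rw [pow_succ]
    exact mem_mO_mul hXm (O.pow_mem hXi 2)
  have hη2 : (Y⁻¹) ^ 2 = (X⁻¹) ^ 3 * (1 + (X⁻¹) ^ 3)⁻¹ := by
    have h3 : (1 + (X⁻¹) ^ 3) ≠ 0 := (h1u _ hX3m).ne
    have hX3 : X ^ 3 ≠ 0 := pow_ne_zero _ hX
    rw [eq_mul_inv_iff_mul_eq₀ h3, inv_pow, inv_pow, hE]
    have h4 : X ^ 3 + 1 ≠ 0 := by rw [← hE]; exact pow_ne_zero _ hY0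
    field_simp
  have hη : Y⁻¹ ∈ mO O := by
    apply hO.mO_pow (n := 2) (by norm_num)
    rw [hη2]
    exact mul_mem_mO hX3m (h1u _ hX3m).inv.mem
  have hηm : Un O (1 - Y⁻¹) := by
    rw [sub_eq_add_neg]; exact h1u _ (neg_mem_mO hη)
  have hηp : Un O (1 + Y⁻¹) := h1u _ hη
  have hY1 : Y - 1 ≠ 0 := by rw [← hc]; exact pow_ne_zero _ hc0
  have hci3 : (c⁻¹) ^ 3 = Y⁻¹ * (1 - Y⁻¹)⁻¹ := by
    rw [eq_mul_inv_iff_mul_eq₀ hηm.ne, inv_pow, hc]
    field_simp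
  have hci : c⁻¹ ∈ mO O := by
    apply hO.mO_pow (n := 3) (by norm_num)
    rw [hci3]
    exact mul_mem_mO hη hηm.inv.mem
  set ω := X / c * c⁻¹ with hω
  have hω3 : ω ^ 3 = (1 + Y⁻¹) * (1 - Y⁻¹)⁻¹ := by
    rw [hω, mul_pow, hw, eq_mul_inv_iff_mul_eq₀ hηm.ne, inv_pow, hc]
    field_simp
  have hωu : Un O ω := by
    apply hO.un_pow (n := 3) (by norm_num)
    rw [hω3]
    exact hηp.mul hηm.inv
  have hω1 : ω - 1 ≠ 0 := by
    intro h0
    apply hd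
    have h1 : ω = 1 := sub_eq_zero.1 h0
    have : X / c = ω * c := by rw [hω]; field_simp
    rw [this, h1, one_mul, sub_self]
  have hwc : X / c - c = c * (ω - 1) := by
    rw [hω]; field_simp
  have hω31 : (ω - 1) * (ω ^ 2 + ω + 1) = 2 * (c⁻¹) ^ 3 := by
    have e1 : ω ^ 3 - 1 = 2 * (c⁻¹) ^ 3 := by
      rw [hω3, hci3]
      have := hηm.ne
      field_simp
      ring
    linear_combination e1
  obtain ⟨z, hz⟩ := hO.res ω hωu.mem
  have hinv2 : -2 / (X / c - c) = -2 * (c⁻¹ * (ω - 1)⁻¹) := by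
    rw [hwc, div_eq_mul_inv, mul_inv]
  by_cases hz1 : z = 1
  · right
    subst hz1
    rw [map_one] at hz
    have hu : Un O (ω ^ 2 + ω + 1) := by
      apply hO.un_of_res (c := 3) _ (by norm_num)
      have : ω ^ 2 + ω + 1 - algebraMap k K 3 = (ω + 2) * (ω - 1) := by
        rw [map_ofNat]; ring
      rw [this]
      exact mem_mO_mul hz (O.add_mem hωu.mem (hn _ 2 (by rw [map_ofNat])))
    have : (-2 / (X / c - c))⁻¹ = -((c⁻¹) ^ 2 * (ω ^ 2 + ω + 1)⁻¹) := by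
      rw [hinv2]
      have hu0 := hu.ne
      have e1 : (ω - 1) = 2 * (c⁻¹) ^ 3 * (ω ^ 2 + ω + 1)⁻¹ := by
        rw [eq_mul_inv_iff_mul_eq₀ hu0]; exact hω31
      rw [mul_inv, mul_inv, inv_inv, inv_inv, e1]
      field_simp
    rw [this]
    exact O.neg_mem (O.mul_mem (O.pow_mem hci.1 2) hu.inv.mem)
  · left
    have hu : Un O (ω - 1) := by
      apply hO.un_of_res (c := z - 1) _ (sub_ne_zero.2 hz1)
      have : ω - 1 - algebraMap k K (z - 1) = ω - algebraMap k K z := by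
        rw [map_sub, map_one]; ring
      rw [this]
      exact hz
    rw [hinv2]
    exact O.mul_mem (O.neg_mem (hn _ 2 (by rw [map_ofNat]))) (O.mul_mem hci.1 hu.inv.mem)

end C

end HB
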