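import Pool.Agent.HB.C.Loc
import Pool.Agent.HB.A.BaseB
import Pool.Agent.HB.A.GlueA

/-!
# Project HB, part C, module PtLoc: the local rings of the closed points

STATEMENT. `k` algebraically closed, `S` a surface (not necessarily smooth): the local ring `O` of a
closed point contains `k`, has residue field `k` and is integrally closed.

PROOF. `O = LocalSubring.ofPrime A p`, `A = S.chart l`, `p` maximal; elements of `O`: `x / y`,
`x, y ∈ A`, `y ∉ p`; non-units: those with `x ∈ p`.
`base`: `k ⊆ S.base l ⊆ A`.  `add`: `LocalSubring` (`IsLocalRing.nonunits_add`).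
`ic`: `A` is integrally closed in the field `L` (`integralClosure_idem`, or transitivity of
integrality): if `a : K` is a root of a monic polynomial over `O`, multiply by a common denominator
`y ∉ p` of the coefficients: `y a` is integral over `A`, so in `A` (this is the standard proof that
localisations of integrally closed domains are integrally closed; with Mathlib:
`IsIntegrallyClosed` of `A` with fraction field `Frac A ⊆ K` is awkward if `Frac A ≠ K`, so better
do it directly: `a ^ n + c_{n-1} a ^ (n-1) + ... = 0`, `y c_i ∈ A`, then `(y a) ^ n +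
y c_{n-1} (y a) ^ (n-1) + ... + y ^ n c_0 = 0`; Mathlib: `IsLocalization.exists_multiple_integral...`,
`Polynomial.scaleRoots`).
`res`: for `x ∈ A` there is `c : k` with `x - c ∈ p`: the field `A / p` is integral over
`S.base l / (p ∩ S.base l)`, which is a field (integrality) and a finitely generated `k`-algebra
(generators `1/l, s/l, t/l`: `S.base l = k[m / l : m ∈ V] = k[1/l, s/l, t/l]`), hence equal to `k`
(Zariski's lemma: `finite_of_finite_type_of_isJacobsonRing`, and `IsAlgClosed`); so `A / p` is
algebraic over `k`, hence equal to `k` (`IsAlgClosed.algebraMap_bijective_of_isIntegral`).  For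
`x / y ∈ O` take the quotient of the two constants.
-/

set_option autoImplicit false

namespace HB

namespace C

universe u

variable {k K : Type u} [Field k] [Field K] [Algebra k K] [IsAlgClosed k]

open IsLocalRing

/-- the set `mO` is the maximal ideal -/
theorem mem_mO_iff {K : Type u} [Field K] (O : LocalSubring K) {a : K} (ha : a ∈ O.toSubring) :
    a ∈ mO O.toSubring ↔ (⟨a, ha⟩ : O.toSubring) ∈ maximalIdeal O.toSubring := by
  rw [mem_maximalIdeal, mem_nonunits_iff, ← not_un_iff ha, not_iff_not]
  constructor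
  · rintro ⟨h1, h2, h3⟩
    refine IsUnit.of_mul_eq_one ⟨a⁻¹, h3⟩ (Subtype.ext ?_)
    show a * a⁻¹ = 1
    exact mul_inv_cancel₀ h1
  · rintro ⟨u, hu⟩
    have h1 : a * ((u⁻¹ : O.toSubringˣ) : O.toSubring).1 = 1 := by
      have h2 : ((u : O.toSubring) : K) = a := congrArg Subtype.val hu
      rw [← h2]
      exact congrArg Subtype.val u.mul_inv
    have h0 : a ≠ 0 := by
      rintro rfl
      rw [zero_mul] at h1
      exact zero_ne_one h1
    refine ⟨h0, ha, ?_⟩
    rw [inv_eq_of_mul_eq_one_right h1]
    exact Subtype.property _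

/-- the residue fields of the charts are `k` -/
theorem chart_res' (S : Surf k K) {l : K} (hl : l ∈ S.V) (h0 : l ≠ 0)
    (M : Ideal (S.chart l)) [M.IsMaximal] (x : S.chart l) :
    ∃ c : k, x - algebraMap k (S.chart l) c ∈ M := by
  have hint : Algebra.IsIntegral (S.base l) (S.chart l) := by
    refine ⟨fun y => ?_⟩
    have h2 : IsIntegral (S.base l) (y : K) := S.mem_chart.1 y.2
    exact (isIntegral_algebraMap_iff (B := K) Subtype.val_injective).1 h2
  set q : Ideal (S.base l) := M.comap (algebraMap (S.base l) (S.chart l)) with hq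
  have hqm : q.IsMaximal := Ideal.isMaximal_comap_of_isIntegral_of_isMaximal M
  have hft : Algebra.FiniteType k (S.base l) := S.ft_base hl h0
  let _ : Field (S.base l ⧸ q) := Ideal.Quotient.field q
  have : Algebra.FiniteType k (S.base l ⧸ q) :=
    Algebra.FiniteType.of_surjective (Ideal.Quotient.mkₐ k q) (Ideal.Quotient.mkₐ_surjective k q)
  have : Module.Finite k (S.base l ⧸ q) := finite_of_finite_type_of_isJacobsonRing k _
  have h1 : (algebraMap k (S.base l ⧸ q)).IsIntegral := fun y => Algebra.IsIntegral.isIntegral y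
  have h2 : (Ideal.quotientMap M (algebraMap (S.base l) (S.chart l)) hq.le).IsIntegral := by
    intro y
    obtain ⟨y, rfl⟩ := Ideal.Quotient.mk_surjective y
    obtain ⟨P, hP, hPy⟩ := hint.isIntegral y
    refine ⟨P.map (Ideal.Quotient.mk q), hP.map _, ?_⟩
    rw [Polynomial.eval₂_map]
    have h3 : (Ideal.quotientMap M (algebraMap (S.base l) (S.chart l)) hq.le).comp
        (Ideal.Quotient.mk q) = (Ideal.Quotient.mk M).comp (algebraMap (S.base l) (S.chart l)) := by
      ext z
      rfl
    rw [h3, ← Polynomial.hom_eval₂, hPy, map_zero]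
  have h3 : (algebraMap k (S.chart l ⧸ M)).IsIntegral := by
    have h4 := h1.trans _ _ h2
    have h5 : (Ideal.quotientMap M (algebraMap (S.base l) (S.chart l)) hq.le).comp
        (algebraMap k (S.base l ⧸ q)) = algebraMap k (S.chart l ⧸ M) := by
      ext z
      rfl
    rwa [h5] at h4
  have h4 : Algebra.IsIntegral k (S.chart l ⧸ M) := ⟨h3⟩
  obtain ⟨c, hc⟩ := (IsAlgClosed.algebraMap_bijective_of_isIntegral (k := k)
    (K := S.chart l ⧸ M)).2 (Ideal.Quotient.mk M x)
  refine ⟨c, ?_⟩
  rw [← Ideal.Quotient.eq_zero_iff_mem, map_sub, sub_eq_zero, ← hc]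
  rfl

theorem pt_loc (S : Surf k K) (P : S.Pt) : LocRing k P.1.toSubring := by
  refine ⟨P.algebraMap_mem, ?_, ?_, ?_⟩
  · intro a ha b hb
    rw [mem_mO_iff P.1 (P.1.toSubring.add_mem ha.1 hb.1)]
    exact Ideal.add_mem _ ((mem_mO_iff P.1 ha.1).1 ha) ((mem_mO_iff P.1 hb.1).1 hb)
  · intro a ha
    obtain ⟨O, l, hl, h0, p, hp, hpm, rfl⟩ := P
    have h1 : Function.Surjective (IsLocalization.AtPrime.equivQuotMaximalIdeal p
      (LocalSubring.ofPrime (S.chart l) p).toSubring) := RingEquiv.surjective _
    obtain ⟨x, hx⟩ := h1 (Ideal.Quotient.mk _ ⟨a, ha⟩)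
    obtain ⟨x, rfl⟩ := Ideal.Quotient.mk_surjective x
    rw [IsLocalization.AtPrime.equivQuotMaximalIdeal_apply_mk, Ideal.Quotient.eq] at hx
    obtain ⟨c, hc⟩ := chart_res' S hl h0 p x
    refine ⟨c, ?_⟩
    have hcO : algebraMap k K c ∈ (LocalSubring.ofPrime (S.chart l) p).toSubring :=
      S.algebraMap_mem_ofPrime l p c
    rw [mem_mO_iff (LocalSubring.ofPrime (S.chart l) p) (Subring.sub_mem _ ha hcO)]
    have h2 : algebraMap (S.chart l) (LocalSubring.ofPrime (S.chart l) p).toSubring
        (x - algebraMap k (S.chart l) c) ∈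
        maximalIdeal (LocalSubring.ofPrime (S.chart l) p).toSubring :=
      (IsLocalization.AtPrime.to_map_mem_maximal_iff _ p _).2 hc
    have h3 := Ideal.sub_mem _ h2 hx
    convert h3 using 1
    apply Subtype.ext
    show a - algebraMap k K c = ((x : K) - algebraMap k K c) - ((x : K) - a)
    ring
  · intro a ha
    obtain ⟨O, l, hl, h0, p, hp, hpm, rfl⟩ := P
    exact S.ofPrime_int l p ha

end C

end HB
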