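import Pool.Agent.HB.C.StageEt
import Pool.Agent.HB.C.Coll
import Pool.Agent.HB.C.Alpha

/-!
# Project HB, part C, module Ram1: the first ramified cube root

`Half S x y ζ` : what is left of a stage after the first ramified step: `S` smooth, standard
parameters for both points everywhere, and they generate the maximal ideal at the closed points
where `α (x_0,y_0)` and `(x_1,y_1)` collide.

STATEMENT. `S` a stage, `f ≠ 0` with `ord_C f ≡ iB_C ((x_0,y_0),(x_1,y_1)) (mod 3)` for all prime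
divisors.  Then there is a finite extension on which `f` is a cube, with `Half`.

PROOF. `kummer_step` with `p = 3`.  Let `Q` be a closed point above, `P` the point with `StepAt`,
`w` from `IsStage.inv` at `P`.  (For `P` and `C` through `P`: `Surf.On P C` is
`P.1.toSubring ≤ C.1.toSubring`; `pd_dvk C`.)
(a) `Col` at `P` for `(x_0,y_0), (x_1,y_1)`: `t = w_0 - w_1`, `Gen O_P t w_1` (`Gen.add_mul` with
`b = -1`), `t ≠ 0` by `pt_pri` (`Pri` contains `t ≠ 0`); by `iB_col`, `ord_C f ≡ ord_C t (mod 3)` for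
all `C` through `P`, so `ord_form'` gives `f = u g^3 t` and `StepAt.ram` gives `Gen O_Q`.
(b) not `Col`: by `iB_not_col`, `3 ∣ ord_C f` for all `C` through `P`; `ord_form`, `StepAt.et`:
`Gen O_Q (w_0) (w_1)` (images).
So `sext S L` is smooth (`smooth_iff`); `cb` from `CoordB.map` and `DomR.max`; `inv`: if
`α (x_0,y_0)` and `(x_1,y_1)` collide at `Q` they collide at `P` (`col_dom`, with `IsStage`-type
facts: `x a` or its inverse in `O_P` from `CoordB`), so `(x_0,y_0)` and `(x_1,y_1)` do not collide at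
`P` (`col_excl`), i.e. case (b).  `x a ≠ 0`: `x_0 x_1 = t ≠ 0` by `Surf.indep`.
-/

set_option autoImplicit false

namespace HB

namespace C

variable {k K : Type} [Field k] [Field K] [Algebra k K]

/-- See the header. -/
structure Half (S : Surf k K) (x y : Fin 2 → K) (ζ : k) : Prop where
  hs : S.s = x 0 + x 1
  ht : S.t = x 0 * x 1
  curve : ∀ a, y a ^ 2 = x a ^ 6 + 1
  smooth : S.Smooth
  cb : ∀ (Q : S.Pt) (a : Fin 2), ∃ w ∈ mO Q.1.toSubring, CoordB k Q.1.toSubring (x a) (y a) w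
  inv : ∀ Q : S.Pt, Col Q.1.toSubring (algebraMap k K ζ * x 0) (- y 0) (x 1) (y 1) →
    ∃ w : Fin 2 → K, Gen Q.1.toSubring (w 0) (w 1) ∧
      ∀ a, CoordB k Q.1.toSubring (x a) (y a) (w a)

private theorem r1_t (S : Surf k K) : S.t ≠ 0 := by
  intro h
  have h1 := (algebraicIndependent_iff.1 S.indep) (MvPolynomial.X 1) (by simpa using h)
  exact MvPolynomial.X_ne_zero 1 h1

private theorem r1_x {S : Surf k K} {x y : Fin 2 → K} (h : IsStage S x y) (a : Fin 2) :
    x a ≠ 0 := by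
  intro h0
  apply r1_t S
  rw [h.ht]
  revert a
  rw [Fin.forall_fin_two]
  exact ⟨fun h => by rw [h, zero_mul], fun h => by rw [h, mul_zero]⟩

private theorem r1_mor {O : Subring K} (hO : LocRing k O) {x y w : K} (h : CoordB k O x y w)
    (hm : w ∈ mO O) : x ∈ O ∨ x⁻¹ ∈ O := by
  rcases h with ⟨p, hp, _⟩ | ⟨_, p, hp⟩ | h
  · left
    have h1 := O.add_mem hm.1 (hO.base p)
    rwa [hp, sub_add_cancel] at h1
  · left
    have h1 := O.add_mem hp.1 (hO.base p)
    rwa [sub_add_cancel] at h1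
  · right
    rw [← h]
    exact hm.1

variable [IsAlgClosed k] [CharZero k]

private theorem r1_loc {S : Surf k K} {x y : Fin 2 → K} (h : IsStage S x y)
    {f : K} (hf : f ≠ 0)
    (h3 : ∀ C : S.PD, ∃ n : ℤ, iB C.1.toSubring (x 0, y 0) (x 1, y 1) =
      ((ordS C.1.toSubring f + 3 * n : ℤ) : WithTop ℤ)) (P : S.Pt) {w : Fin 2 → K}
    (hw : Gen P.1.toSubring (w 0) (w 1))
    (hcw : ∀ a, CoordB k P.1.toSubring (x a) (y a) (w a)) :
    (Col P.1.toSubring (x 0) (y 0) (x 1) (y 1) ∧ ∃ u g, Un P.1.toSubring u ∧ g ≠ 0 ∧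
        f = u * g ^ 3 * (w 0 - w 1) ∧ Gen P.1.toSubring (w 0 - w 1) (w 1)) ∨
      (¬ Col P.1.toSubring (x 0) (y 0) (x 1) (y 1) ∧ EtForm 3 P.1.toSubring f) := by
  have hO := pt_loc S P
  by_cases hcol : Col P.1.toSubring (x 0) (y 0) (x 1) (y 1)
  · left
    have hgen : Gen P.1.toSubring (w 0 - w 1) (w 1) := by
      have h1 := hw.add_mul hO (b := -1) (P.1.toSubring.neg_mem P.1.toSubring.one_mem)
      have h2 : w 0 + -1 * w 1 = w 0 - w 1 := by ring
      rwa [h2] at h1
    have ht0 : w 0 - w 1 ≠ 0 := (pt_pri S P hgen).1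
    have hne : w 0 ≠ w 1 := sub_ne_zero.mp ht0
    obtain ⟨u, g, hu, hg, hfe⟩ := ord_form' h.smooth P hf ht0 (n := 3) (by norm_num) (by
      intro C hC
      obtain ⟨n, hn⟩ := h3 C
      rw [iB_col hO (pd_dvk C) hC (r1_x h 0) (r1_x h 1) (h.curve 0) (h.curve 1) (hcw 0) (hcw 1)
        hw.1 hw.2.1 hcol hne] at hn
      have hn' : ordS C.1.toSubring (w 0 - w 1) = ordS C.1.toSubring f + 3 * n := by
        exact_mod_cast hn
      refine ⟨-n, ?_⟩
      change ordS C.1.toSubring f - ordS C.1.toSubring (w 0 - w 1) = _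
      rw [hn']
      push_cast
      ring)
    exact ⟨hcol, u, g, hu, hg, hfe, hgen⟩
  · right
    refine ⟨hcol, ord_form h.smooth P hf (by norm_num) ?_⟩
    intro C hC
    obtain ⟨n, hn⟩ := h3 C
    rw [iB_not_col hO (pd_dvk C) hC (r1_x h 0) (r1_x h 1) (h.curve 0) (h.curve 1) (hcw 0) (hcw 1)
      hw.1 hw.2.1 hcol] at hn
    have hn' : (0 : ℤ) = ordS C.1.toSubring f + 3 * n := by
      exact_mod_cast hn
    refine ⟨-n, ?_⟩
    change ordS C.1.toSubring f = _
    push_cast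
    linarith

theorem exists_ram1 {S : Surf k K} {x y : Fin 2 → K} (h : IsStage S x y) {ζ : k}
    (hζ : ζ ^ 2 + ζ + 1 = 0) {f : K} (hf : f ≠ 0)
    (h3 : ∀ C : S.PD, ∃ n : ℤ, iB C.1.toSubring (x 0, y 0) (x 1, y 1) =
      ((ordS C.1.toSubring f + 3 * n : ℤ) : WithTop ℤ)) :
    ∃ (L : Type) (_ : Field L) (_ : Algebra k L) (_ : Algebra K L) (_ : IsScalarTower k K L)
      (S' : Surf k L) (c : L), c ^ 3 = algebraMap K L f ∧
      Half S' (fun a => algebraMap K L (x a)) (fun a => algebraMap K L (y a)) ζ ∧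
      ∀ Q : S'.Pt, ∃ P : S.Pt, DomR P.1.toSubring Q.1.toSubring := by
  obtain ⟨L, _, _, _, _, _, c, hc, hQ⟩ := kummer_step S Nat.prime_three f hf
  have hζ0 : ζ ≠ 0 := by
    rintro rfl
    norm_num at hζ
  have hζ3 : algebraMap k K ζ ^ 3 = 1 := by
    rw [← map_pow]
    have h1 : ζ ^ 3 = 1 := by linear_combination (ζ - 1) * hζ
    rw [h1, map_one]
  have hmw : ∀ (P : S.Pt) (w : Fin 2 → K), Gen P.1.toSubring (w 0) (w 1) →
      ∀ a, w a ∈ mO P.1.toSubring := by
    intro P w hw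
    rw [Fin.forall_fin_two]
    exact ⟨hw.1, hw.2.1⟩
  refine ⟨L, _, _, _, ‹_›, sext S L, c, hc, ?_, fun Q => (hQ Q).imp fun P hP => hP.dom⟩
  refine ⟨?_, ?_, ?_, ?_, ?_, ?_⟩
  · change algebraMap K L S.s = _
    rw [h.hs, map_add]
  · change algebraMap K L S.t = _
    rw [h.ht, map_mul]
  · intro a
    rw [← map_pow, h.curve a, map_add, map_pow, map_one]
  · rw [smooth_iff]
    intro Q
    obtain ⟨P, hP⟩ := hQ Q
    obtain ⟨w, hw, hcw⟩ := h.inv P
    rcases r1_loc h hf h3 P hw hcw with ⟨_, u, g, hu, hg, hfe, hgen⟩ | ⟨_, u, g, hu, hg, hfe⟩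
    · exact ⟨_, _, hP.ram u g _ _ hu hg hfe hgen⟩
    · exact ⟨_, _, hP.et u g hu hg hfe _ _ hw⟩
  · intro Q a
    obtain ⟨P, hP⟩ := hQ Q
    obtain ⟨w, hw, hcw⟩ := h.inv P
    exact ⟨algebraMap K L (w a), hP.dom.max _ (hmw P w hw a), (hcw a).map hP.dom⟩
  · intro Q hcolQ
    obtain ⟨P, hP⟩ := hQ Q
    obtain ⟨w, hw, hcw⟩ := h.inv P
    have hO := pt_loc S P
    rcases r1_loc h hf h3 P hw hcw with ⟨hcol, _⟩ | ⟨_, u, g, hu, hg, hfe⟩
    · exfalso
      refine col_excl hO hζ (r1_x h 0) (r1_x h 1) (h.curve 0) hcol ?_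
      have hm0 := r1_mor hO (hcw 0) (hmw P w hw 0)
      have hm1 := r1_mor hO (hcw 1) (hmw P w hw 1)
      have hUz : Un P.1.toSubring (algebraMap k K ζ) := hO.const hζ0
      refine col_dom hO hP.dom (mul_ne_zero hUz.ne (r1_x h 0)) (r1_x h 1) ?_ (h.curve 1) ?_ hm1 ?_
      · have h1 := h.curve 0
        linear_combination h1 - x 0 ^ 6 * (algebraMap k K ζ ^ 3 + 1) * hζ3
      · rcases hm0 with h1 | h1
        · left; exact P.1.toSubring.mul_mem hUz.mem h1
        · right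
          rw [mul_inv]
          exact P.1.toSubring.mul_mem hUz.inv.mem h1
      · have e1 : algebraMap K L (algebraMap k K ζ * x 0) =
            algebraMap k L ζ * algebraMap K L (x 0) := by
          rw [map_mul, ← IsScalarTower.algebraMap_apply]
        rw [e1, map_neg]
        exact hcolQ
    · exact ⟨fun a => algebraMap K L (w a), hP.et u g hu hg hfe _ _ hw,
        fun a => (hcw a).map hP.dom⟩

end C

end HB
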