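import Pool.Agent.HB.C.Kum

/-!
# Project HB, part C, module SmoothGen: smoothness in terms of `Gen`

STATEMENT. `S` is smooth iff for every closed point there are `x, y` with `Gen`.

PROOF. For `a : P.1.toSubring`: `a ∈ maximalIdeal` iff `(a : K) ∈ mO P.1.toSubring`
(`IsLocalRing.mem_maximalIdeal`, `mem_nonunits_iff`, `isUnit_iff_exists_inv`; the ring is a domain
inside the field), and `Ideal.mem_span_pair`.
-/

set_option autoImplicit false

namespace HB

namespace C

universe u

variable {k K : Type u} [Field k] [Field K] [Algebra k K]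

theorem mem_max_iff (P : LocalSubring K) (a : P.toSubring) :
    a ∈ IsLocalRing.maximalIdeal P.toSubring ↔ (a : K) ∈ mO P.toSubring := by
  rw [IsLocalRing.mem_maximalIdeal, mem_nonunits_iff]
  constructor
  · intro h
    refine ⟨a.2, ?_⟩
    by_cases ha : (a : K) = 0
    · exact Or.inl ha
    · right
      intro hinv
      apply h
      rw [isUnit_iff_exists_inv]
      refine ⟨⟨(a : K)⁻¹, hinv⟩, ?_⟩
      apply Subtype.ext
      change (a : K) * (a : K)⁻¹ = 1
      exact mul_inv_cancel₀ ha
  · rintro ⟨_, h⟩ hu
    rw [isUnit_iff_exists_inv] at hu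
    obtain ⟨b, hb⟩ := hu
    have hb' : (a : K) * (b : K) = 1 := by
      have := congrArg (Subtype.val) hb
      exact this
    rcases h with h | h
    · rw [h, zero_mul] at hb'
      exact zero_ne_one hb'
    · apply h
      have : (a : K)⁻¹ = (b : K) := by
        have ha : (a : K) ≠ 0 := by
          intro h0
          rw [h0, zero_mul] at hb'
          exact zero_ne_one hb'
        field_simp
        exact hb'.symm
      rw [this]
      exact b.2

theorem smooth_iff (S : Surf k K) :
    S.Smooth ↔ ∀ P : S.Pt, ∃ x y : K, Gen P.1.toSubring x y := by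
  constructor
  · intro h P
    obtain ⟨x, y, hxy⟩ := h P
    refine ⟨(x : K), (y : K), ?_, ?_, ?_⟩
    · rw [← mem_max_iff, hxy]
      exact Ideal.subset_span (by simp)
    · rw [← mem_max_iff, hxy]
      exact Ideal.subset_span (by simp)
    · intro a ha
      have ha' : (⟨a, ha.1⟩ : P.1.toSubring) ∈ IsLocalRing.maximalIdeal P.1.toSubring := by
        rw [mem_max_iff]
        exact ha
      rw [hxy, Ideal.mem_span_pair] at ha'
      obtain ⟨b, c, hbc⟩ := ha'
      refine ⟨(b : K), b.2, (c : K), c.2, ?_⟩
      have := congrArg (Subtype.val) hbc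
      exact this.symm
  · intro h P
    obtain ⟨x, y, hx, hy, hg⟩ := h P
    refine ⟨⟨x, hx.1⟩, ⟨y, hy.1⟩, ?_⟩
    apply le_antisymm
    · intro a ha
      rw [mem_max_iff] at ha
      obtain ⟨b, hb, c, hc, habc⟩ := hg _ ha
      rw [Ideal.mem_span_pair]
      refine ⟨⟨b, hb⟩, ⟨c, hc⟩, ?_⟩
      apply Subtype.ext
      exact habc.symm
    · rw [Ideal.span_le]
      intro a ha
      simp only [Set.mem_insert_iff, Set.mem_singleton_iff] at ha
      rcases ha with rfl | rfl
      · exact (mem_max_iff _ _).2 hx
      · exact (mem_max_iff _ _).2 hy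

end C

end HB
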