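import Pool.Agent.HB.C.Coord
import Pool.Agent.HB.C.KumStep
import Pool.Agent.HB.C.OrdForm

/-!
# Project HB, part C, module StageEt: an unramified Kummer step over a stage

STATEMENT. `S` a stage, `f ≠ 0` with `3 ∣ ord_C f` for all prime divisors `C`.  Then there is a stage
over `S` on which `f` is a cube.

PROOF. `kummer_step` with `p = 3`: `L`, `c`, `StepAt` for every closed point `Q` of `sext S L` and a
point `P` of `S`.  `S.Smooth` by `IsStage.smooth`; `ord_form` gives `EtForm 3 O_P f`; `StepAt.et`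
maps `Gen O_P (w 0) (w 1)` to `Gen O_Q` of the images; `CoordB.map`.  The other fields are images.
-/

set_option autoImplicit false

namespace HB

namespace C

universe u

variable {k K : Type u} [Field k] [Field K] [Algebra k K] [IsAlgClosed k] [CharZero k]

theorem stage_et {S : Surf k K} {x y : Fin 2 → K} (h : IsStage S x y) {f : K} (hf : f ≠ 0)
    (h3 : ∀ C : S.PD, (3 : ℤ) ∣ C.ord f) :
    ∃ (L : Type u) (_ : Field L) (_ : Algebra k L) (_ : Algebra K L) (_ : IsScalarTower k K L)
      (S' : Surf k L) (c : L), c ^ 3 = algebraMap K L f ∧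
      IsStage S' (fun a => algebraMap K L (x a)) (fun a => algebraMap K L (y a)) ∧
      ∀ Q : S'.Pt, ∃ P : S.Pt, DomR P.1.toSubring Q.1.toSubring := by
  obtain ⟨L, i1, i2, i3, i4, i5, c, hc, hQ⟩ := kummer_step S Nat.prime_three f hf
  refine ⟨L, i1, i2, i3, i4, sext S L, c, hc, ⟨?_, ?_, ?_, ?_⟩, ?_⟩
  · change algebraMap K L S.s = _
    rw [h.hs, map_add]
  · change algebraMap K L S.t = _
    rw [h.ht, map_mul]
  · intro a
    rw [← map_pow, ← map_pow, h.curve a, map_add, map_one]
  · intro Q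
    obtain ⟨P, hP⟩ := hQ Q
    obtain ⟨w, hw, hwc⟩ := h.inv P
    obtain ⟨u, g, hu, hg, hfe⟩ := ord_form h.smooth P hf (by norm_num : 0 < 3) (fun C _ => h3 C)
    exact ⟨fun a => algebraMap K L (w a), hP.et u g hu hg hfe _ _ hw,
      fun a => (hwc a).map hP.dom⟩
  · intro Q
    obtain ⟨P, hP⟩ := hQ Q
    exact ⟨P, hP.dom⟩

end C

end HB
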