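import Pool.Agent.HB.C.Psi
import Pool.Agent.HB.Geo

/-!
# Project HB, part C, module Third: `[θ] [θ] = -3`

`Thr θ U V X Y` : `(U, V) ↦ (X', Y') ↦ (X, Y)` under the isogeny of degree 3.

STATEMENT. If `Thr θ U V X Y`, `θ ^ 2 = -3`, then `3 • (U, -V) = (X, Y)` in the group `E(K)`,
`E : Y² = X³ + 1`.

PROOF.  Let `ζ = (-1 + θ)/2`, `ζ ^ 2 + ζ + 1 = 0`, `ρ (X,Y) = (ζ X, Y)`.
Route A (group theory): `ρ` is an automorphism of the group `E(K)` (check it on the addition
formulas: `slope (ζ x₁) (ζ x₂) y₁ y₂ = ζ⁻¹ slope x₁ x₂ y₁ y₂`, `addX (ζ x₁) (ζ x₂) (ζ⁻¹ ℓ) =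
ζ addX x₁ x₂ ℓ` as `ζ⁻² = ζ`), `P + ρ P + ρ² P = 0` (three points on a horizontal line), and
`ψ P = ρ P - ρ² P` for `P = (X',Y')` is `(X, ± Y)` in the notation of `Psi`: the slope is
`λ = 2 Y'/(θ X')` up to sign, `X = λ² + X' = -(X'^3+4)/(3 X'^2)`.  Then `ψ ψ = ρ² - 2 ρ³ + ρ⁴
= ρ² + ρ - 2 = -3` (the sign in `ψ = ± [θ]` does not matter in `ψ ψ`).
Route B (direct): compute `2 • (U,-V)` and `3 • (U,-V) = 2 • (U,-V) + (U,-V)` by the explicit
formulas of Mathlib (`WeierstrassCurve.Affine.Point.add_some`, `slope_of_X_ne`, `slope_of_Y_ne`) and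
compare with `X, Y` as rational functions of `U, V` using `V ^ 2 = U ^ 3 + 1` (`field_simp`,
`ring` / `linear_combination`).  Degenerate cases: `V = 0` cannot be excluded by the hypotheses of
`Psi` directly, but `Psi θ X' Y' X Y` needs `X' ≠ 0`, and `X' = -(U^3+4)/(3U^2)`, so
`U ^ 3 ≠ -4`; for `V = 0`, `U ^ 3 = -1`, one has `2 • P = 0`, `3 • P = P` and `X' = -1/U^2`... (then
`Y' = 0`, `X = ...= U`): treat it separately; and the case `2 P = ± P` is `U (U^3+4) = 0`, excluded.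
The hypotheses `hns`, `hns'` (nonsingularity) are automatic from the equations.
-/

set_option autoImplicit false

namespace HB

namespace C

/-- `(U, V) ↦ (X', Y') ↦ (X, Y)` under the isogeny of degree 3. -/
def Thr {K : Type} [Field K] (θ U V X Y : K) : Prop :=
  ∃ X' Y' : K, Psi θ U V X' Y' ∧ Psi θ X' Y' X Y

variable {K : Type} [Field K] [CharZero K]

open WeierstrassCurve.Affine in
omit [CharZero K] in
private theorem ec_eqn {x y : K} : (EC K).Equation x y ↔ y ^ 2 = x ^ 3 + 1 := by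
  rw [WeierstrassCurve.Affine.equation_iff]
  simp [EC]

open WeierstrassCurve.Affine in
private theorem ec_ns {x y : K} (h : y ^ 2 = x ^ 3 + 1) : (EC K).Nonsingular x y := by
  rw [WeierstrassCurve.Affine.nonsingular_iff]
  refine ⟨ec_eqn.2 h, ?_⟩
  by_cases hx : x = 0
  · right
    intro h'
    simp only [EC, zero_mul, sub_zero] at h'
    have h2 : (2 : K) * y = 0 := by linear_combination h'
    have hy : y = 0 := (mul_eq_zero.1 h2).resolve_left two_ne_zero
    rw [hx, hy] at h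
    norm_num at h
  · left
    simp only [EC, zero_mul, mul_zero, add_zero]
    exact (mul_ne_zero three_ne_zero (pow_ne_zero _ hx)).symm

private theorem add_ne {x₁ y₁ x₂ y₂ x₃ y₃ ℓ : K} (h₁ : (EC K).Nonsingular x₁ y₁)
    (h₂ : (EC K).Nonsingular x₂ y₂) (hx : x₁ ≠ x₂) (hℓ : ℓ * (x₁ - x₂) = y₁ - y₂)
    (hx₃ : x₃ = ℓ ^ 2 - x₁ - x₂) (hy₃ : y₃ = -(ℓ * (x₃ - x₁) + y₁)) :
    ∃ h₃ : (EC K).Nonsingular x₃ y₃,
      (WeierstrassCurve.Affine.Point.some _ _ h₁ : EPt K) +
        WeierstrassCurve.Affine.Point.some _ _ h₂ =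
          WeierstrassCurve.Affine.Point.some _ _ h₃ := by
  classical
  have hs : (EC K).slope x₁ x₂ y₁ y₂ = ℓ := by
    rw [WeierstrassCurve.Affine.slope_of_X_ne hx, div_eq_iff (sub_ne_zero.2 hx), hℓ]
  have e1 : (EC K).addX x₁ x₂ ((EC K).slope x₁ x₂ y₁ y₂) = x₃ := by
    rw [hs, hx₃]
    simp [WeierstrassCurve.Affine.addX, EC]
  have e2 : (EC K).addY x₁ x₂ y₁ ((EC K).slope x₁ x₂ y₁ y₂) = y₃ := by
    rw [WeierstrassCurve.Affine.addY, WeierstrassCurve.Affine.negAddY, e1, hs, hy₃]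
    simp [WeierstrassCurve.Affine.negY, EC]
  clear hx₃ hy₃
  subst e1
  subst e2
  exact ⟨WeierstrassCurve.Affine.nonsingular_add h₁ h₂ (fun h => hx h.1),
    by convert WeierstrassCurve.Affine.Point.add_some (W := EC K) (h₁ := h₁) (h₂ := h₂)
        (fun h => hx h.1)⟩

private theorem add_self {x₁ y₁ x₃ y₃ ℓ : K} (h₁ : (EC K).Nonsingular x₁ y₁)
    (hy : y₁ ≠ 0) (hℓ : ℓ * (2 * y₁) = 3 * x₁ ^ 2)
    (hx₃ : x₃ = ℓ ^ 2 - x₁ - x₁) (hy₃ : y₃ = -(ℓ * (x₃ - x₁) + y₁)) :
    ∃ h₃ : (EC K).Nonsingular x₃ y₃,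
      (WeierstrassCurve.Affine.Point.some _ _ h₁ : EPt K) +
        WeierstrassCurve.Affine.Point.some _ _ h₁ =
          WeierstrassCurve.Affine.Point.some _ _ h₃ := by
  classical
  have hne : y₁ ≠ (EC K).negY x₁ y₁ := by
    intro h
    simp only [WeierstrassCurve.Affine.negY, EC, zero_mul, sub_zero] at h
    have h2 : (2 : K) * y₁ = 0 := by linear_combination h
    exact hy ((mul_eq_zero.1 h2).resolve_left two_ne_zero)
  have hs : (EC K).slope x₁ x₁ y₁ y₁ = ℓ := by
    rw [WeierstrassCurve.Affine.slope_of_Y_ne rfl hne, div_eq_iff (sub_ne_zero.2 hne)]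
    simp only [WeierstrassCurve.Affine.negY, EC, zero_mul, sub_zero, mul_zero, add_zero]
    linear_combination -hℓ
  have e1 : (EC K).addX x₁ x₁ ((EC K).slope x₁ x₁ y₁ y₁) = x₃ := by
    rw [hs, hx₃]
    simp [WeierstrassCurve.Affine.addX, EC]
  have e2 : (EC K).addY x₁ x₁ y₁ ((EC K).slope x₁ x₁ y₁ y₁) = y₃ := by
    rw [WeierstrassCurve.Affine.addY, WeierstrassCurve.Affine.negAddY, e1, hs, hy₃]
    simp [WeierstrassCurve.Affine.negY, EC]
  clear hx₃ hy₃
  subst e1
  subst e2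
  exact ⟨WeierstrassCurve.Affine.nonsingular_add h₁ h₁ (fun h => hne h.2),
    by convert WeierstrassCurve.Affine.Point.add_some (W := EC K) (h₁ := h₁) (h₂ := h₁)
        (fun h => hne h.2)⟩

theorem thr_smul {θ U V X Y : K} (hθ : θ ^ 2 = -3) (h : Thr θ U V X Y) :
    ∃ (h1 : (EC K).Nonsingular U (-V)) (h2 : (EC K).Nonsingular X Y),
      (3 : ℤ) • (WeierstrassCurve.Affine.Point.some _ _ h1 : EPt K) =
        WeierstrassCurve.Affine.Point.some _ _ h2 := by
  obtain ⟨X', Y', ⟨hE, hU0, hX', hY'⟩, ⟨hE', hX'0, hX, hY⟩⟩ := h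
  have hθ0 : θ ≠ 0 := by
    rintro rfl
    norm_num at hθ
  have hP : (EC K).Nonsingular U (-V) := ec_ns (by rw [neg_sq]; exact hE)
  have h3smul : ∀ P : EPt K, (3 : ℤ) • P = P + (P + P) := by
    intro P
    abel
  by_cases hV : V = 0
  · subst hV
    have hU3 : U ^ 3 = -1 := by linear_combination -hE
    have hX'U : X' = U := by
      have : 3 * U ^ 2 * (X' - U) = 0 := by linear_combination hX' - 4 * hU3
      have h2 := (mul_eq_zero.1 this).resolve_left (mul_ne_zero three_ne_zero (pow_ne_zero 2 hU0))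
      linear_combination h2
    have hXU : X = U := by
      rw [hX'U] at hX
      have : 3 * U ^ 2 * (X - U) = 0 := by linear_combination hX - 4 * hU3
      have h2 := (mul_eq_zero.1 this).resolve_left (mul_ne_zero three_ne_zero (pow_ne_zero 2 hU0))
      linear_combination h2
    have hY'0 : Y' = 0 := by
      have : 3 * θ * U ^ 3 * Y' = 0 := by linear_combination hY'
      exact (mul_eq_zero.1 this).resolve_left
        (mul_ne_zero (mul_ne_zero three_ne_zero hθ0) (pow_ne_zero 3 hU0))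
    have hY0 : Y = 0 := by
      have : 3 * θ * X' ^ 3 * Y = 0 := by rw [hY, hY'0, zero_mul]
      exact (mul_eq_zero.1 this).resolve_left
        (mul_ne_zero (mul_ne_zero three_ne_zero hθ0) (pow_ne_zero 3 hX'0))
    subst hXU
    subst hY0
    refine ⟨hP, by simpa using hP, ?_⟩
    rw [h3smul]
    have hneg : -(WeierstrassCurve.Affine.Point.some _ _ hP : EPt K) =
        WeierstrassCurve.Affine.Point.some _ _ hP := by
      have e : -(WeierstrassCurve.Affine.Point.some _ _ hP : EPt K) =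
        WeierstrassCurve.Affine.Point.some _ _
          ((WeierstrassCurve.Affine.nonsingular_neg ..).mpr hP) :=
        WeierstrassCurve.Affine.Point.neg_some hP
      rw [e]
      congr 1
      simp [WeierstrassCurve.Affine.negY, EC]
    have h0 : (WeierstrassCurve.Affine.Point.some _ _ hP : EPt K) +
        WeierstrassCurve.Affine.Point.some _ _ hP = 0 := by
      nth_rewrite 2 [← hneg]
      exact add_neg_cancel _
    rw [h0, add_zero]
    congr 1
    simp
  · have hu4 : U ^ 3 + 4 ≠ 0 := by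
      intro h
      have : 3 * U ^ 2 * X' = 0 := by linear_combination hX' - h
      exact hX'0 ((mul_eq_zero.1 this).resolve_left
        (mul_ne_zero three_ne_zero (pow_ne_zero 2 hU0)))
    have hV4 : V ^ 4 = (U ^ 3 + 1) ^ 2 := by
      rw [← hE]
      ring
    -- doubling
    obtain ⟨h2P, e2P⟩ := add_self (x₁ := U) (y₁ := -V) (x₃ := (U ^ 4 - 8 * U) / (4 * V ^ 2))
      (y₃ := -(U ^ 6 + 20 * U ^ 3 - 8) / (8 * V ^ 3)) (ℓ := -(3 * U ^ 2) / (2 * V)) hP
      (neg_ne_zero.2 hV)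
      (by field_simp)
      (by
        field_simp
        try rw [hV4]
        try rw [hE]
        ring)
      (by
        field_simp
        try rw [hV4]
        try rw [hE]
        ring)
    obtain ⟨h3P, e3P⟩ := add_ne (x₁ := U) (y₁ := -V) (x₂ := (U ^ 4 - 8 * U) / (4 * V ^ 2))
      (y₂ := -(U ^ 6 + 20 * U ^ 3 - 8) / (8 * V ^ 3))
      (x₃ := (U ^ 9 - 96 * U ^ 6 + 48 * U ^ 3 + 64) / (9 * U ^ 2 * (U ^ 3 + 4) ^ 2))
      (y₃ := -V * (U ^ 12 + 220 * U ^ 9 - 1776 * U ^ 6 - 320 * U ^ 3 - 512) /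
        (27 * U ^ 3 * (U ^ 3 + 4) ^ 3))
      (ℓ := -(7 * U ^ 6 - 4 * U ^ 3 + 16) / (6 * U * V * (U ^ 3 + 4))) hP h2P
      (by
        intro h
        have h1 : 3 * U * (U ^ 3 + 4) = 0 := by
          field_simp at h
          linear_combination U * h - 4 * U * hE
        exact mul_ne_zero (mul_ne_zero three_ne_zero hU0) hu4 h1)
      (by
        field_simp
        try rw [hV4]
        try rw [hE]
        ring)
      (by
        field_simp
        try rw [hV4]
        try rw [hE]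
        ring)
      (by
        field_simp
        try rw [hV4]
        try rw [hE]
        ring)
    have hX'e : X' = -(U ^ 3 + 4) / (3 * U ^ 2) := by
      field_simp
      linear_combination hX'
    have hXe : X = (U ^ 9 - 96 * U ^ 6 + 48 * U ^ 3 + 64) / (9 * U ^ 2 * (U ^ 3 + 4) ^ 2) := by
      have : X = -(X' ^ 3 + 4) / (3 * X' ^ 2) := by
        field_simp
        linear_combination hX
      rw [this, hX'e]
      field_simp
      ring
    have hYe : Y = -V * (U ^ 12 + 220 * U ^ 9 - 1776 * U ^ 6 - 320 * U ^ 3 - 512) /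
        (27 * U ^ 3 * (U ^ 3 + 4) ^ 3) := by
      have h1 : -27 * U ^ 3 * X' ^ 3 * Y = V * (U ^ 3 - 8) * (X' ^ 3 - 8) := by
        linear_combination (3 * θ * U ^ 3) * hY + (X' ^ 3 - 8) * hY' -
          (9 * U ^ 3 * X' ^ 3 * Y) * hθ
      have h2 : Y = V * (U ^ 3 - 8) * (X' ^ 3 - 8) / (-27 * U ^ 3 * X' ^ 3) := by
        field_simp
        linear_combination -h1
      rw [h2, hX'e]
      field_simp
      ring
    subst hXe
    subst hYe
    refine ⟨hP, h3P, ?_⟩
    rw [h3smul, e2P, e3P]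

end C

end HB
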