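import Pool.Agent.HB.C.StageEt
import Pool.Agent.HB.C.EVal
import Pool.Agent.HB.C.Third

/-!
# Project HB, part C, module StageThr: division by 3 over a stage

STATEMENT (`stage_psi`). `S` a stage, `(X,Y)` a point of `Y² = X³ + 1` with `X ≠ 0`, `X ∈ O_P` or
`1/X ∈ O_P` for all closed points `P`.  Then there is a stage `S'` over `S` with a point `(X',Y')`
over `L`, `Psi θ X' Y' X Y`, and `X' ∈ O_Q` or `1/X' ∈ O_Q` for all closed points `Q` of `S'`.
PROOF. `stage_et` for `f = Y - 1` (`≠ 0` since `X ≠ 0`), `three_dvd_ord` with `pd_dvk`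
(`C.ord f = ordS C.1.toSubring f` by definition); `psi_of`, `psi_mor` over `L` (`pt_loc`); the
condition on the image of `X` at `Q` follows from `DomR`.

STATEMENT (`stage_thr`). The same with `Thr θ U V X Y`: apply `stage_psi` twice (`X' ≠ 0` by `Psi`,
`Y'^2 = X'^3 + 1` by `Psi`, `psi_map`).  Composition of field extensions: `Algebra K L₂` is the
composite, `IsScalarTower` for the composites.
-/

set_option autoImplicit false

namespace HB

namespace C

variable {k K : Type} [Field k] [Field K] [Algebra k K] [IsAlgClosed k] [CharZero k]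

theorem stage_psi {S : Surf k K} {x y : Fin 2 → K} (h : IsStage S x y) {θ : k}
    (hθ : θ ^ 2 = -3) {X Y : K} (hE : Y ^ 2 = X ^ 3 + 1) (hX : X ≠ 0)
    (hm : ∀ P : S.Pt, X ∈ P.1.toSubring ∨ X⁻¹ ∈ P.1.toSubring) :
    ∃ (L : Type) (_ : Field L) (_ : Algebra k L) (_ : Algebra K L) (_ : IsScalarTower k K L)
      (S' : Surf k L) (X' Y' : L),
      Psi (algebraMap k L θ) X' Y' (algebraMap K L X) (algebraMap K L Y) ∧
      (∀ Q : S'.Pt, X' ∈ Q.1.toSubring ∨ X'⁻¹ ∈ Q.1.toSubring) ∧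
      IsStage S' (fun a => algebraMap K L (x a)) (fun a => algebraMap K L (y a)) ∧
      ∀ Q : S'.Pt, ∃ P : S.Pt, DomR P.1.toSubring Q.1.toSubring := by
  have hf : Y - 1 ≠ 0 := by
    intro h0
    have h1 : Y = 1 := sub_eq_zero.1 h0
    rw [h1, one_pow] at hE
    have h2 : X ^ 3 = 0 := by linear_combination -hE
    exact hX (pow_eq_zero_iff (by norm_num) |>.1 h2)
  obtain ⟨L, i1, i2, i3, i4, S', c, hc, hS, hD⟩ :=
    stage_et h hf (fun C => three_dvd_ord (pd_dvk C) hE hX)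
  have hE' : (algebraMap K L Y) ^ 2 = (algebraMap K L X) ^ 3 + 1 := by
    rw [← map_pow, hE, map_add, map_pow, map_one]
  have hX' : algebraMap K L X ≠ 0 := (map_ne_zero _).2 hX
  have hc' : c ^ 3 = algebraMap K L Y - 1 := by
    rw [hc, map_sub, map_one]
  refine ⟨L, i1, i2, i3, i4, S', _, _, psi_of hθ hE' hX' hc', fun Q => ?_, hS, hD⟩
  obtain ⟨P, hP⟩ := hD Q
  refine psi_mor (pt_loc S' Q) hE' hX' hc' ?_
  rcases hm P with h1 | h1
  · exact Or.inl (hP.le _ h1)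
  · refine Or.inr ?_
    rw [← map_inv₀]
    exact hP.le _ h1

theorem stage_thr {S : Surf k K} {x y : Fin 2 → K} (h : IsStage S x y) {θ : k}
    (hθ : θ ^ 2 = -3) {X Y : K} (hE : Y ^ 2 = X ^ 3 + 1) (hX : X ≠ 0)
    (hm : ∀ P : S.Pt, X ∈ P.1.toSubring ∨ X⁻¹ ∈ P.1.toSubring) :
    ∃ (L : Type) (_ : Field L) (_ : Algebra k L) (_ : Algebra K L) (_ : IsScalarTower k K L)
      (S' : Surf k L) (U V : L),
      Thr (algebraMap k L θ) U V (algebraMap K L X) (algebraMap K L Y) ∧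
      (∀ Q : S'.Pt, U ∈ Q.1.toSubring ∨ U⁻¹ ∈ Q.1.toSubring) ∧
      IsStage S' (fun a => algebraMap K L (x a)) (fun a => algebraMap K L (y a)) ∧
      ∀ Q : S'.Pt, ∃ P : S.Pt, DomR P.1.toSubring Q.1.toSubring := by
  obtain ⟨L1, i1, i2, i3, i4, S1, X1, Y1, hP1, hm1, hS1, hD1⟩ := stage_psi h hθ hE hX hm
  obtain ⟨L2, j1, j2, j3, j4, S2, U, V, hP2, hm2, hS2, hD2⟩ :=
    stage_psi hS1 hθ hP1.1 hP1.2.1 hm1
  let a1 : Algebra K L2 := ((algebraMap L1 L2).comp (algebraMap K L1)).toAlgebra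
  have t1 : IsScalarTower k K L2 := by
    refine .of_algebraMap_eq fun c => ?_
    show algebraMap k L2 c = algebraMap L1 L2 (algebraMap K L1 (algebraMap k K c))
    rw [← IsScalarTower.algebraMap_apply k K L1, ← IsScalarTower.algebraMap_apply k L1 L2]
  refine ⟨L2, j1, j2, a1, t1, S2, U, V, ⟨_, _, hP2, ?_⟩, hm2, hS2, fun Q => ?_⟩
  · have h1 := psi_map (L := L2) hP1
    rw [← IsScalarTower.algebraMap_apply k L1 L2] at h1
    exact h1
  · obtain ⟨P1, hP1'⟩ := hD2 Q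
    obtain ⟨P, hP⟩ := hD1 P1
    exact ⟨P, ⟨fun a ha => hP1'.le _ (hP.le _ ha), fun a ha => hP1'.max _ (hP.max _ ha)⟩⟩

end C

end HB
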