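import Pool.Agent.HB.C.StageThr
import Pool.Agent.HB.C.BB

/-!
# Project HB, part C, module Tower: the stage with all the division points

STATEMENT. `θ ^ 2 = -3` in `k`.  There is a stage `S` with `(U a, V a)` over `π(y_a) = (x_a², y_a)`
and `(U' a, V' a)` over `π'(y_a) = (1/x_a², y_a/x_a³)` (`Thr`), such that `U a` or its inverse, and
`U' a` or its inverse, is in the local ring of every closed point.

PROOF. Start with `exists_BB`; apply `stage_thr` four times, with `(X,Y) = (x_0², y_0)`,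
`(1/x_0², y_0/x_0³)`, `(x_1², y_1)`, `(1/x_1², y_1/x_1³)`.  `x_a ≠ 0`: `x_0 x_1 = t ≠ 0`
(`Surf.indep`).  `Y² = X³ + 1` from `curve`.  The condition `hm` for `X = x_a²` or `1/x_a²`: by
`IsStage.inv`, `CoordB` and `Gen`: `x_a = w + p ∈ O`, or `x_a - p ∈ mO O`, or `1/x_a = w ∈ mO O`.
Data of earlier steps are mapped to the next field: `Thr` by `psi_map`, the condition that `U` or `1/U` is in
the local ring by `DomR`.
-/

set_option autoImplicit false

namespace HB

namespace C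

/-- On a stage `x a` or its inverse is regular at every closed point. -/
theorem IsStage.mor {k K : Type} [Field k] [Field K] [Algebra k K] {S : Surf k K}
    {x y : Fin 2 → K} (h : IsStage S x y) [IsAlgClosed k] [CharZero k] (P : S.Pt) (a : Fin 2) :
    x a ∈ P.1.toSubring ∨ (x a)⁻¹ ∈ P.1.toSubring := by
  obtain ⟨w, hw, hc⟩ := h.inv P
  have hO := pt_loc S P
  have hwa : w a ∈ mO P.1.toSubring := by
    revert a
    rw [Fin.forall_fin_two]
    exact ⟨hw.1, hw.2.1⟩
  rcases hc a with ⟨p, hp, _⟩ | ⟨_, p, hp⟩ | h3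
  · left
    have h1 := P.1.toSubring.add_mem hwa.1 (hO.base p)
    rwa [hp, sub_add_cancel] at h1
  · left
    have h1 := P.1.toSubring.add_mem hp.1 (hO.base p)
    rwa [sub_add_cancel] at h1
  · right
    rw [← h3]
    exact hwa.1

/-- a division point with the regularity condition -/
private def TowerGood {k K : Type} [Field k] [Field K] [Algebra k K] (S : Surf k K) (θ : k)
    (U V X Y : K) : Prop :=
  Thr (algebraMap k K θ) U V X Y ∧ ∀ P : S.Pt, U ∈ P.1.toSubring ∨ U⁻¹ ∈ P.1.toSubring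

section

variable {k : Type} [Field k] [IsAlgClosed k] [CharZero k]

/-- one extension of stages, which keeps the earlier data -/
private def TowerExt {K L : Type} [Field K] [Algebra k K] [Field L] [Algebra k L]
    (S : Surf k K) (S' : Surf k L) (x y : Fin 2 → K) (θ : k) (φ : K →+* L) : Prop :=
  IsStage S' (fun a => φ (x a)) (fun a => φ (y a)) ∧
    ∀ U V X Y : K, TowerGood S θ U V X Y → TowerGood S' θ (φ U) (φ V) (φ X) (φ Y)

private theorem tower_step {K : Type} [Field K] [Algebra k K] {S : Surf k K} {x y : Fin 2 → K}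
    (h : IsStage S x y) {θ : k} (hθ : θ ^ 2 = -3) {X Y : K} (hE : Y ^ 2 = X ^ 3 + 1) (hX : X ≠ 0)
    (hm : ∀ P : S.Pt, X ∈ P.1.toSubring ∨ X⁻¹ ∈ P.1.toSubring) :
    ∃ (L : Type) (_ : Field L) (_ : Algebra k L) (S' : Surf k L) (φ : K →+* L) (U V : L),
      TowerGood S' θ U V (φ X) (φ Y) ∧ TowerExt S S' x y θ φ := by
  obtain ⟨L, _, _, _, _, S', U, V, h1, h2, h3, h4⟩ := stage_thr h hθ hE hX hm
  refine ⟨L, inferInstance, inferInstance, S', algebraMap K L, U, V, ⟨h1, h2⟩, h3, ?_⟩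
  rintro U V X Y ⟨⟨X', Y', g1, g2⟩, g3⟩
  have hK : CharZero K := charZero_of_injective_algebraMap (algebraMap k K).injective
  refine ⟨⟨algebraMap K L X', algebraMap K L Y', ?_, ?_⟩, ?_⟩
  · rw [IsScalarTower.algebraMap_apply k K L θ]
    exact psi_map g1
  · rw [IsScalarTower.algebraMap_apply k K L θ]
    exact psi_map g2
  · intro Q
    obtain ⟨P, hP⟩ := h4 Q
    rcases g3 P with g | g
    · exact Or.inl (hP.le _ g)
    · right
      rw [← map_inv₀]
      exact hP.le _ g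

omit [IsAlgClosed k] [CharZero k] in
private theorem TowerExt.comp {K L M : Type} [Field K] [Algebra k K] [Field L] [Algebra k L]
    [Field M] [Algebra k M] {S : Surf k K} {S' : Surf k L} {S'' : Surf k M} {x y : Fin 2 → K}
    {θ : k} {φ : K →+* L} {ψ : L →+* M} (h : TowerExt S S' x y θ φ)
    (h' : TowerExt S' S'' (fun a => φ (x a)) (fun a => φ (y a)) θ ψ) :
    TowerExt S S'' x y θ (ψ.comp φ) :=
  ⟨h'.1, fun _ _ _ _ g => h'.2 _ _ _ _ (h.2 _ _ _ _ g)⟩

omit [IsAlgClosed k] [CharZero k] in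
private theorem tower_ne {K : Type} [Field K] [Algebra k K] {S : Surf k K} {x y : Fin 2 → K}
    (h : IsStage S x y) (a : Fin 2) : x a ≠ 0 := by
  have ht : S.t ≠ 0 := S.indep.ne_zero 1
  intro h0
  apply ht
  rw [h.ht]
  revert a
  rw [Fin.forall_fin_two]
  exact ⟨fun h => by rw [h, zero_mul], fun h => by rw [h, mul_zero]⟩

private theorem tower_two {K : Type} [Field K] [Algebra k K] {S : Surf k K} {x y : Fin 2 → K}
    (h : IsStage S x y) {θ : k} (hθ : θ ^ 2 = -3) (a : Fin 2) :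
    ∃ (L : Type) (_ : Field L) (_ : Algebra k L) (S' : Surf k L) (φ : K →+* L) (U V U' V' : L),
      TowerGood S' θ U V (φ (x a) ^ 2) (φ (y a)) ∧
      TowerGood S' θ U' V' ((φ (x a) ^ 2)⁻¹) (φ (y a) / φ (x a) ^ 3) ∧
      TowerExt S S' x y θ φ := by
  obtain ⟨L, _, _, S', φ, U, V, h1, h2⟩ := tower_step h hθ (X := x a ^ 2) (Y := y a)
    (by rw [h.curve a]; ring) (pow_ne_zero _ (tower_ne h a)) (by
      intro P
      rcases h.mor P a with g | g
      · exact Or.inl (pow_mem g 2)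
      · right
        rw [← inv_pow]
        exact pow_mem g 2)
  have hs := h2.1
  have hne : φ (x a) ≠ 0 := tower_ne hs a
  obtain ⟨M, _, _, S'', ψ, U', V', h3, h4⟩ := tower_step hs hθ (X := (φ (x a) ^ 2)⁻¹)
    (Y := φ (y a) / φ (x a) ^ 3)
    (by
      have e := hs.curve a
      rw [div_pow, e]
      field_simp
      ring)
    (inv_ne_zero (pow_ne_zero _ hne)) (by
      intro P
      rcases hs.mor P a with g | g
      · right
        rw [inv_inv]
        exact pow_mem g 2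
      · left
        rw [← inv_pow]
        exact pow_mem g 2)
  refine ⟨M, inferInstance, inferInstance, S'', ψ.comp φ, ψ U, ψ V, U', V', ?_, ?_, h2.comp h4⟩
  · have g := h4.2 _ _ _ _ h1
    rw [map_pow, map_pow] at g
    exact g
  · rw [map_inv₀, map_pow, map_div₀, map_pow] at h3
    exact h3

end

theorem exists_tower (k : Type) [Field k] [IsAlgClosed k] [CharZero k] {θ : k}
    (hθ : θ ^ 2 = -3) :
    ∃ (K : Type) (_ : Field K) (_ : Algebra k K) (S : Surf k K) (x y U V U' V' : Fin 2 → K),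
      IsStage S x y ∧
      (∀ a, Thr (algebraMap k K θ) (U a) (V a) (x a ^ 2) (y a)) ∧
      (∀ a, Thr (algebraMap k K θ) (U' a) (V' a) ((x a ^ 2)⁻¹) (y a / x a ^ 3)) ∧
      (∀ a (P : S.Pt), U a ∈ P.1.toSubring ∨ (U a)⁻¹ ∈ P.1.toSubring) ∧
      ∀ a (P : S.Pt), U' a ∈ P.1.toSubring ∨ (U' a)⁻¹ ∈ P.1.toSubring := by
  obtain ⟨K, _, _, S, x, y, h⟩ := exists_BB k
  obtain ⟨L, _, _, S', φ, U0, V0, U0', V0', h1, h2, h3⟩ := tower_two h hθ 0
  obtain ⟨M, _, _, S'', ψ, U1, V1, U1', V1', h4, h5, h6⟩ := tower_two h3.1 hθ 1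
  have h1' := h6.2 _ _ _ _ h1
  have h2' := h6.2 _ _ _ _ h2
  rw [map_pow] at h1'
  rw [map_inv₀, map_pow, map_div₀, map_pow] at h2'
  refine ⟨M, inferInstance, inferInstance, S'', fun a => ψ (φ (x a)), fun a => ψ (φ (y a)),
    ![ψ U0, U1], ![ψ V0, V1], ![ψ U0', U1'], ![ψ V0', V1'], h6.1, ?_, ?_, ?_, ?_⟩
  · rw [Fin.forall_fin_two]
    exact ⟨h1'.1, h4.1⟩
  · rw [Fin.forall_fin_two]
    exact ⟨h2'.1, h5.1⟩
  · rw [Fin.forall_fin_two]
    exact ⟨h1'.2, h4.2⟩
  · rw [Fin.forall_fin_two]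
    exact ⟨h2'.2, h5.2⟩

end C

end HB
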